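import Pool.Agent.CTypes.While

/-! Arithmetic subroutines. -/

namespace Pool.Agent.CTypes

/-- `w` leads from memory `m` to memory `m'`, whatever the cost criterion, the input and the
oracle. -/
def R (w : W) (m m' : ℕ → ℕ) : Prop := ∀ κ x O q, ∃ c, Runs κ x O w m q m' q c

theorem R.skip (m) : R .skip m m := fun κ x O q => ⟨_, Runs.skip m q⟩

theorem R.const {i c m m'} (h : m' = Function.update m i c) : R (.const i c) m m' := by
  subst h; exact fun κ x O q => ⟨_, Runs.const i c m q⟩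

theorem R.add {i j k m m'} (h : m' = Function.update m i (m j + m k)) :
    R (.add i j k) m m' := by
  subst h; exact fun κ x O q => ⟨_, Runs.add i j k m q⟩

theorem R.sub {i j k m m'} (h : m' = Function.update m i (m j - m k)) :
    R (.sub i j k) m m' := by
  subst h; exact fun κ x O q => ⟨_, Runs.sub i j k m q⟩

theorem R.seq {a b m m₁ m₂} (h : R a m m₁) (h' : R b m₁ m₂) : R (.seq a b) m m₂ := by
  intro κ x O q
  obtain ⟨c, hc⟩ := h κ x O q
  obtain ⟨c', hc'⟩ := h' κ x O q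
  exact ⟨_, hc.seq hc'⟩

theorem R.ite_zero {i a b m m'} (hm : m i = 0) (h : R a m m') : R (.ite i a b) m m' := by
  intro κ x O q
  obtain ⟨c, hc⟩ := h κ x O q
  exact ⟨_, Runs.ite_zero hm hc⟩

theorem R.ite_pos {i a b m m'} (hm : m i ≠ 0) (h : R b m m') : R (.ite i a b) m m' := by
  intro κ x O q
  obtain ⟨c, hc⟩ := h κ x O q
  exact ⟨_, Runs.ite_pos hm hc⟩

theorem R.loop_zero {i a m} (hm : m i = 0) : R (.loop i a) m m := by
  intro κ x O q
  exact ⟨_, Runs.loop_zero hm⟩

theorem R.loop_pos {i a m m₁ m₂} (hm : m i ≠ 0) (h : R a m m₁) (h' : R (.loop i a) m₁ m₂) :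
    R (.loop i a) m m₂ := by
  intro κ x O q
  obtain ⟨c, hc⟩ := h κ x O q
  obtain ⟨c', hc'⟩ := h' κ x O q
  exact ⟨_, Runs.loop_pos hm hc hc'⟩

theorem R.loop_inv {i : ℕ} {body : W} (Inv : ℕ → (ℕ → ℕ) → Prop) (n : ℕ)
    (h : ∀ k < n, ∀ m, Inv k m → m i ≠ 0 ∧ ∃ m', R body m m' ∧ Inv (k + 1) m')
    (hn : ∀ m, Inv n m → m i = 0) :
    ∀ m, Inv 0 m → ∃ m', R (.loop i body) m m' ∧ Inv n m' := by
  have key : ∀ d k, k + d = n → ∀ m, Inv k m → ∃ m', R (.loop i body) m m' ∧ Inv n m' := by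
    intro d
    induction d with
    | zero =>
      intro k hk m hm
      have : k = n := by omega
      subst this
      exact ⟨m, R.loop_zero (hn m hm), hm⟩
    | succ d ih =>
      intro k hk m hm
      obtain ⟨h1, m', h2, h3⟩ := h k (by omega) m hm
      obtain ⟨m'', h4, h5⟩ := ih (k + 1) (by omega) m' h3
      exact ⟨m'', R.loop_pos h1 h2 h4, h5⟩
  exact fun m hm => key n 0 (by omega) m hm

/-- `R_i := R_j`. -/
def mov (i j : ℕ) : W := .seq (.const i 0) (.add i i j)

theorem mov_pure (i j : ℕ) : (mov i j).Pure := ⟨trivial, trivial⟩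

theorem R.mov {i j m m'} (hij : i ≠ j) (h : m' = Function.update m i (m j)) :
    R (mov i j) m m' := by
  subst h
  refine R.seq (R.const rfl) (R.add ?_)
  simp [Function.update_of_ne hij.symm]

/-- Closing goals about updated memories. -/
theorem upd_ne {m : ℕ → ℕ} {i v j : ℕ} (h : j ≠ i) : Function.update m i v j = m j :=
  Function.update_of_ne h v m

theorem upd_eq {m : ℕ → ℕ} {i v : ℕ} : Function.update m i v i = v :=
  Function.update_self i v m

/-- `R_r := R_a * R_b`, with auxiliary registers `t`, `t + 1`. -/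
def mulW (r a b t : ℕ) : W :=
  .seq (.const (t + 1) 1) (.seq (.const r 0) (.seq (mov t a)
    (.loop t (.seq (.add r r b) (.sub t t (t + 1))))))

theorem mulW_pure (r a b t : ℕ) : (mulW r a b t).Pure :=
  ⟨trivial, trivial, mov_pure _ _, trivial, trivial⟩

theorem mulW_spec {r a b t : ℕ} (m : ℕ → ℕ) (ha : a < t) (hb : b < t) (hr : r < t)
    (hra : r ≠ a) (hrb : r ≠ b) : ∃ m', R (mulW r a b t) m m' ∧ m' r = m a * m b ∧
      ∀ j, j ≠ r → j ≠ t → j ≠ t + 1 → m' j = m j := by
  let m1 := Function.update m (t + 1) 1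
  let m2 := Function.update m1 r 0
  let m3 := Function.update m2 t (m2 a)
  have h3a : m2 a = m a := by
    simp only [m2, m1]
    rw [upd_ne (by omega), upd_ne (by omega)]
  obtain ⟨m', h1, h2⟩ := R.loop_inv (i := t) (body := .seq (.add r r b) (.sub t t (t + 1)))
    (fun k μ => μ t = m a - k ∧ μ r = k * m b ∧ μ (t + 1) = 1 ∧
      ∀ j, j ≠ r → j ≠ t → j ≠ t + 1 → μ j = m j) (m a)
    (by
      rintro k hk μ ⟨e1, e2, e3, e4⟩
      refine ⟨by omega, _, R.seq (R.add rfl) (R.sub rfl), ?_, ?_, ?_, ?_⟩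
      · rw [upd_eq, upd_ne (by omega), upd_ne (by omega), e1, e3]; omega
      · rw [upd_ne (by omega), upd_eq, e2, e4 b (by omega) (by omega) (by omega)]; ring
      · rw [upd_ne (by omega), upd_ne (by omega), e3]
      · intro j h1 h2 h3
        rw [upd_ne h2, upd_ne h1, e4 j h1 h2 h3])
    (by
      rintro μ ⟨e1, -⟩
      omega)
    m3 (by
      refine ⟨?_, ?_, ?_, ?_⟩
      · simp only [m3]; rw [upd_eq, h3a]; rfl
      · simp only [m3, m2]; rw [upd_ne (by omega), upd_eq, Nat.zero_mul]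
      · simp only [m3, m2, m1]; rw [upd_ne (by omega), upd_ne (by omega), upd_eq]
      · intro j h1 h2 h3
        simp only [m3, m2, m1]
        rw [upd_ne h2, upd_ne h1, upd_ne h3])
  exact ⟨m', R.seq (R.const rfl) (R.seq (R.const rfl) (R.seq (R.mov (by omega) rfl) h1)),
    h2.2.1, h2.2.2.2⟩

/-- `R_r := Nat.pair R_a R_b`, with auxiliary registers `t`, ..., `t + 2`. -/
def pairW (r a b t : ℕ) : W :=
  .seq (.sub (t + 2) b a) (.ite (t + 2)
    (.seq (mulW r a a t) (.seq (.add r r a) (.add r r b)))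
    (.seq (mulW r b b t) (.add r r a)))

theorem pairW_pure (r a b t : ℕ) : (pairW r a b t).Pure :=
  ⟨trivial, ⟨mulW_pure _ _ _ _, trivial, trivial⟩, mulW_pure _ _ _ _, trivial⟩

theorem pairW_spec {r a b t : ℕ} (m : ℕ → ℕ) (ha : a < t) (hb : b < t) (hr : r < t)
    (hra : r ≠ a) (hrb : r ≠ b) : ∃ m', R (pairW r a b t) m m' ∧ m' r = Nat.pair (m a) (m b) ∧
      ∀ j, j ≠ r → (j < t ∨ t + 3 ≤ j) → m' j = m j := by
  let m1 := Function.update m (t + 2) (m b - m a)
  have f1 : ∀ j, j ≠ t + 2 → m1 j = m j := fun j hj => upd_ne hj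
  have f0 : m1 (t + 2) = m b - m a := upd_eq
  by_cases hab : m a < m b
  · obtain ⟨m2, h1, h2, h3⟩ := mulW_spec (r := r) (a := b) (b := b) (t := t) m1 hb hb hr hrb hrb
    refine ⟨_, R.seq (R.sub rfl) (R.ite_pos ?_ (R.seq h1 (R.add rfl))), ?_, ?_⟩
    · change m1 (t + 2) ≠ 0; omega
    · rw [upd_eq, h2, h3 a (by omega) (by omega) (by omega), f1 a (by omega), f1 b (by omega),
        Nat.pair, if_pos hab]
    · intro j hj1 hj2
      rw [upd_ne hj1, h3 j hj1 (by omega) (by omega), f1 j (by omega)]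
  · obtain ⟨m2, h1, h2, h3⟩ := mulW_spec (r := r) (a := a) (b := a) (t := t) m1 ha ha hr hra hra
    refine ⟨_, R.seq (R.sub rfl) (R.ite_zero ?_ (R.seq h1 (R.seq (R.add rfl) (R.add rfl)))),
      ?_, ?_⟩
    · change m1 (t + 2) = 0; omega
    · rw [upd_eq, upd_eq, upd_ne hrb.symm, h2, h3 a (by omega) (by omega) (by omega),
        h3 b (by omega) (by omega) (by omega), f1 a (by omega), f1 b (by omega),
        Nat.pair, if_neg hab]
    · intro j hj1 hj2
      rw [upd_ne hj1, upd_ne hj1, h3 j hj1 (by omega) (by omega), f1 j (by omega)]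

/-- The successor function for the enumeration of pairs. -/
def nextPair (p : ℕ × ℕ) : ℕ × ℕ :=
  if p.1 < p.2 then (if p.1 + 1 < p.2 then (p.1 + 1, p.2) else (p.1 + 1, 0))
  else (if p.2 < p.1 then (p.1, p.2 + 1) else (0, p.1 + 1))

theorem pair_nextPair (p : ℕ × ℕ) :
    Nat.pair (nextPair p).1 (nextPair p).2 = Nat.pair p.1 p.2 + 1 := by
  obtain ⟨a, b⟩ := p
  unfold nextPair
  simp only
  split_ifs with h1 h2 h3
  · simp only [Nat.pair, if_pos h1, if_pos h2]; omega
  · have : b = a + 1 := by omega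
    subst this
    simp only [Nat.pair, if_pos h1, Nat.not_lt_zero, if_false]
    ring
  · have : ¬ a < b + 1 := by omega
    simp only [Nat.pair, if_neg h1, if_neg this]; omega
  · have : a = b := by omega
    subst this
    simp only [Nat.pair, lt_irrefl, if_false, Nat.succ_pos', if_true]
    ring

theorem unpair_succ (n : ℕ) : Nat.unpair (n + 1) = nextPair (Nat.unpair n) := by
  have h := pair_nextPair (Nat.unpair n)
  rw [Nat.pair_unpair] at h
  rw [← h, Nat.unpair_pair]

/-- Replace `(R_p, R_{p+1})` by the next pair; auxiliary registers `p + 2`, `p + 3`, where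
`R_{p+3} = 1`. -/
def nextW (p : ℕ) : W :=
  .seq (.sub (p + 2) (p + 1) p) (.ite (p + 2)
    (.seq (.sub (p + 2) p (p + 1)) (.ite (p + 2)
      (.seq (.add (p + 1) p (p + 3)) (.const p 0))
      (.add (p + 1) (p + 1) (p + 3))))
    (.seq (.add p p (p + 3)) (.seq (.sub (p + 2) (p + 1) p)
      (.ite (p + 2) (.const (p + 1) 0) .skip))))

theorem nextW_pure (p : ℕ) : (nextW p).Pure := by
  simp [nextW, W.Pure]

theorem nextW_spec (p : ℕ) (m : ℕ → ℕ) (h1 : m (p + 3) = 1) : ∃ m', R (nextW p) m m' ∧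
    (m' p, m' (p + 1)) = nextPair (m p, m (p + 1)) ∧ m' (p + 3) = 1 ∧
      ∀ j, (j < p ∨ p + 4 ≤ j) → m' j = m j := by
  unfold nextPair
  simp only
  split_ifs with c1 c2 c3
  · refine ⟨_, R.seq (R.sub rfl) (R.ite_pos ?_ (R.seq (R.add rfl) (R.seq (R.sub rfl)
      (R.ite_pos ?_ (R.skip _))))), ?_, ?_, ?_⟩
    · rw [upd_eq]; omega
    · simp (disch := omega) only [upd_eq, upd_ne, h1]; omega
    · simp (disch := omega) only [upd_eq, upd_ne, h1]
    · simp (disch := omega) only [upd_eq, upd_ne, h1]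
    · intro j hj
      simp (disch := omega) only [upd_eq, upd_ne, h1]
  · refine ⟨_, R.seq (R.sub rfl) (R.ite_pos ?_ (R.seq (R.add rfl) (R.seq (R.sub rfl)
      (R.ite_zero ?_ (R.const rfl))))), ?_, ?_, ?_⟩
    · rw [upd_eq]; omega
    · simp (disch := omega) only [upd_eq, upd_ne, h1]; omega
    · simp (disch := omega) only [upd_eq, upd_ne, h1]
    · simp (disch := omega) only [upd_eq, upd_ne, h1]
    · intro j hj
      simp (disch := omega) only [upd_eq, upd_ne, h1]
  · refine ⟨_, R.seq (R.sub rfl) (R.ite_zero ?_ (R.seq (R.sub rfl)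
      (R.ite_pos ?_ (R.add rfl)))), ?_, ?_, ?_⟩
    · rw [upd_eq]; omega
    · simp (disch := omega) only [upd_eq, upd_ne, h1]; omega
    · simp (disch := omega) only [upd_eq, upd_ne, h1]
    · simp (disch := omega) only [upd_eq, upd_ne, h1]
    · intro j hj
      simp (disch := omega) only [upd_eq, upd_ne, h1]
  · refine ⟨_, R.seq (R.sub rfl) (R.ite_zero ?_ (R.seq (R.sub rfl)
      (R.ite_zero ?_ (R.seq (R.add rfl) (R.const rfl))))), ?_, ?_, ?_⟩
    · rw [upd_eq]; omega
    · simp (disch := omega) only [upd_eq, upd_ne, h1]; omega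
    · simp (disch := omega) only [upd_eq, upd_ne, h1]
    · simp (disch := omega) only [upd_eq, upd_ne, h1]
    · intro j hj
      simp (disch := omega) only [upd_eq, upd_ne, h1]

/-- `(R_p, R_{p+1}) := Nat.unpair R_a`; auxiliary registers `p + 2`, ..., `p + 5`. -/
def unpairW (a p : ℕ) : W :=
  .seq (mov (p + 4) a) (.seq (.const p 0) (.seq (.const (p + 1) 0) (.seq (.const (p + 3) 1)
    (.loop (p + 4) (.seq (nextW p) (.sub (p + 4) (p + 4) (p + 3)))))))

theorem unpairW_pure (a p : ℕ) : (unpairW a p).Pure :=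
  ⟨mov_pure _ _, trivial, trivial, trivial, nextW_pure _, trivial⟩

theorem unpairW_spec {a p : ℕ} (m : ℕ → ℕ) (ha : a < p) : ∃ m', R (unpairW a p) m m' ∧
    m' p = (m a).unpair.1 ∧ m' (p + 1) = (m a).unpair.2 ∧
      ∀ j, (j < p ∨ p + 5 ≤ j) → m' j = m j := by
  let m1 := Function.update m (p + 4) (m a)
  let m2 := Function.update m1 p 0
  let m3 := Function.update m2 (p + 1) 0
  let m4 := Function.update m3 (p + 3) 1
  obtain ⟨m', h1, h2⟩ := R.loop_inv (i := p + 4)
    (body := .seq (nextW p) (.sub (p + 4) (p + 4) (p + 3)))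
    (fun k μ => μ (p + 4) = m a - k ∧ (μ p, μ (p + 1)) = Nat.unpair k ∧ μ (p + 3) = 1 ∧
      ∀ j, (j < p ∨ p + 5 ≤ j) → μ j = m j) (m a)
    (by
      rintro k hk μ ⟨e1, e2, e3, e4⟩
      obtain ⟨μ', g1, g2, g3, g4⟩ := nextW_spec p μ e3
      refine ⟨by omega, _, R.seq g1 (R.sub rfl), ?_, ?_, ?_, ?_⟩
      · rw [upd_eq, g3, g4 (p + 4) (by omega), e1]; omega
      · rw [upd_ne (by omega), upd_ne (by omega), g2, e2, unpair_succ]
      · rw [upd_ne (by omega), g3]
      · intro j hj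
        rw [upd_ne (by omega), g4 j (by omega), e4 j hj])
    (by
      rintro μ ⟨e1, -⟩
      omega)
    m4 (by
      refine ⟨?_, ?_, ?_, ?_⟩
      · simp only [m4, m3, m2, m1]
        simp (disch := omega) only [upd_eq, upd_ne]; rfl
      · simp only [m4, m3, m2, m1]
        simp (disch := omega) only [upd_eq, upd_ne]; rfl
      · simp only [m4]; exact upd_eq
      · intro j hj
        simp only [m4, m3, m2, m1]
        simp (disch := omega) only [upd_ne])
  refine ⟨m', R.seq (R.mov (by omega) rfl) (R.seq (R.const rfl) (R.seq (R.const rfl)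
    (R.seq (R.const rfl) h1))), ?_, ?_, h2.2.2.2⟩
  · exact congrArg Prod.fst h2.2.1
  · exact congrArg Prod.snd h2.2.1

end Pool.Agent.CTypes
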