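import Pool.Agent.CTypes.SimPrim

/-! Basic facts on computations. -/

namespace Pool.Agent.CTypes

theorem stateAt_succ (P O x t) : stateAt P O x (t + 1) = step P O x (stateAt P O x t) := by
  unfold stateAt; rw [Function.iterate_succ_apply']

theorem costUpTo_succ (κ P O x t) : costUpTo κ P O x (t + 1) = costUpTo κ P O x t +
    (fetch P (stateAt P O x t).pc).cost κ (stateAt P O x t).mem := by
  unfold costUpTo; rw [Finset.sum_range_succ]

theorem costUpTo_mono (κ P O x) : Monotone (costUpTo κ P O x) := by
  refine monotone_nat_of_le_succ fun t => ?_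
  rw [costUpTo_succ]
  exact Nat.le_add_right _ _

theorem stateAt_of_halt {P O x t b} (h : fetch P (stateAt P O x t).pc = .halt b) (d : ℕ) :
    stateAt P O x (t + d) = stateAt P O x t := by
  induction d with
  | zero => rfl
  | succ d ih =>
    rw [← add_assoc, stateAt_succ, ih]
    unfold step
    rw [h]
    rfl

theorem costUpTo_of_halt {κ P O x t b} (h : fetch P (stateAt P O x t).pc = .halt b) (d : ℕ) :
    costUpTo κ P O x (t + d) = costUpTo κ P O x t := by
  induction d with
  | zero => rfl
  | succ d ih =>
    rw [← add_assoc, costUpTo_succ, ih, stateAt_of_halt h, h]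
    rfl

theorem Halts.unique {κ P O x b c b' c'} (h : Halts κ P O x b c) (h' : Halts κ P O x b' c') :
    b = b' ∧ c = c' := by
  obtain ⟨t, h1, rfl⟩ := h
  obtain ⟨t', h1', rfl⟩ := h'
  rcases le_total t t' with h | h
  · obtain ⟨d, rfl⟩ := Nat.exists_eq_add_of_le h
    rw [stateAt_of_halt h1, h1] at h1'
    rw [costUpTo_of_halt h1]
    exact ⟨Instr.halt.inj h1', rfl⟩
  · obtain ⟨d, rfl⟩ := Nat.exists_eq_add_of_le h
    rw [stateAt_of_halt h1', h1'] at h1
    rw [costUpTo_of_halt h1']
    exact ⟨(Instr.halt.inj h1).symm, rfl⟩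

theorem Instr.one_le_cost {I : Instr} (κ m) (h : ∀ b, I ≠ .halt b) : 1 ≤ I.cost κ m := by
  cases I with
  | halt b => exact absurd rfl (h b)
  | _ => simp only [Instr.cost]; omega

theorem le_costUpTo {κ P O x} (t : ℕ) (h : ∀ b, fetch P (stateAt P O x t).pc ≠ .halt b) :
    t + 1 ≤ costUpTo κ P O x (t + 1) := by
  have key : ∀ k ≤ t, ∀ b, fetch P (stateAt P O x k).pc ≠ .halt b := by
    intro k hk b hb
    obtain ⟨d, rfl⟩ := Nat.exists_eq_add_of_le hk
    refine h b ?_
    rw [stateAt_of_halt hb, hb]
  clear h
  induction t with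
  | zero =>
    rw [costUpTo_succ]
    exact Nat.le_add_left_of_le (Instr.one_le_cost _ _ (key 0 le_rfl))
  | succ t ih =>
    rw [costUpTo_succ]
    exact Nat.add_le_add (ih fun k hk => key k (by omega))
      (Instr.one_le_cost _ _ (key (t + 1) le_rfl))

/-- A machine with running time `c` has halted after `c` steps. -/
theorem Halts.fetch_of_le {κ P O x b c T} (h : Halts κ P O x b c) (hT : c ≤ T) :
    fetch P (stateAt P O x T).pc = .halt b := by
  obtain ⟨t, h1, h2⟩ := h
  rcases le_or_gt t T with h | h
  · obtain ⟨d, rfl⟩ := Nat.exists_eq_add_of_le h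
    rw [stateAt_of_halt h1, h1]
  · by_cases hT' : ∃ b', fetch P (stateAt P O x T).pc = .halt b'
    · obtain ⟨b', hb'⟩ := hT'
      have h3 : Halts κ P O x b' (costUpTo κ P O x T) := ⟨T, hb', rfl⟩
      rw [hb', (Halts.unique ⟨t, h1, h2⟩ h3).1]
    · push Not at hT'
      have h3 := le_costUpTo (κ := κ) T hT'
      have h4 := costUpTo_mono κ P O x h
      have : costUpTo κ P O x (T + 1) ≤ costUpTo κ P O x t := h4
      omega

theorem Halts.cost_eq_of_le {κ P O x b c T} (h : Halts κ P O x b c) (hT : c ≤ T) :
    costUpTo κ P O x T = c :=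
  (h.unique ⟨T, h.fetch_of_le hT, rfl⟩).2.symm

theorem length_q_le (P O x) (t : ℕ) : (stateAt P O x t).q.length ≤ t := by
  induction t with
  | zero => exact le_rfl
  | succ t ih =>
    rw [stateAt_succ]
    unfold step
    cases fetch P (stateAt P O x t).pc with
    | write b => simp only [exec, List.length_append, List.length_singleton]; omega
    | query i => simp [exec]
    | halt b => simp only [exec]; omega
    | _ => simp only [exec]; omega

theorem stateAt_congr {P x} {O O' : Set Str} {T : ℕ}
    (h : ∀ q : Str, q.length < T → (q ∈ O ↔ q ∈ O')) :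
    ∀ t ≤ T, stateAt P O x t = stateAt P O' x t := by
  intro t
  induction t with
  | zero => intro _; rfl
  | succ t ih =>
    intro ht
    rw [stateAt_succ, stateAt_succ, ← ih (by omega)]
    unfold step
    have hq := h _ (lt_of_le_of_lt (length_q_le P O x t) ht)
    cases fetch P (stateAt P O x t).pc with
    | query i =>
      by_cases hqO : (stateAt P O x t).q ∈ O
      · simp only [exec, if_pos hqO, if_pos (hq.1 hqO)]
      · simp only [exec, if_neg hqO, if_neg (mt hq.2 hqO)]
    | _ => rfl

/-! ### Simulation on codes, with the empty oracle -/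

/-- The empty oracle. -/
def noO : Str → Bool := fun _ => false

theorem noO_eq : {q : Str | noO q = true} = ∅ := by
  ext q; simp [noO]

/-- Codes of programs as natural numbers. -/
def prog (m : ℕ) : List Raw := Denumerable.ofNat (List Raw) m

theorem prog_surjective (P : Prog) : ∃ m, toProg (prog m) = P := by
  obtain ⟨r, hr⟩ := toProg_surjective P
  exact ⟨Encodable.encode r, by unfold prog; rw [Denumerable.ofNat_encode, hr]⟩

theorem prim_prog : Primrec prog := Primrec.ofNat _

/-- The answer of the machine with code `m` on input `x` after `t` steps. -/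
def U (r : List Raw) (x : Str) (t : ℕ) : Option Bool := answer noO x r t

theorem U_eq_some {r x t b} : U r x t = some b ↔
    fetch (toProg r) (stateAt (toProg r) ∅ x t).pc = .halt b := by
  unfold U
  rw [answer_eq_some, noO_eq]

theorem Halts.U {κ r x b c t} (h : Halts κ (toProg r) ∅ x b c) (ht : c ≤ t) :
    U r x t = some b := U_eq_some.2 (h.fetch_of_le ht)

theorem halts_of_U {κ r x b t} (h : U r x t = some b) :
    Halts κ (toProg r) ∅ x b (costUpTo κ (toProg r) ∅ x t) := ⟨t, U_eq_some.1 h, rfl⟩

theorem prim_noO {α : Type} [Primcodable α] : Primrec₂ fun (_ : α) (q : Str) => noO q :=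
  Primrec₂.const false

theorem prim_U {α : Type} [Primcodable α] {x : α → Str}
    (hx : Primrec x) {r : α → List Raw} (hr : Primrec r) {t : α → ℕ} (ht : Primrec t) :
    Primrec fun a => U (r a) (x a) (t a) :=
  prim_answer (O := fun _ => noO) prim_noO hx hr ht

/-- The total cost of the first `t` steps. -/
def costU (κ : Criterion) (r : List Raw) (x : Str) (t : ℕ) : ℕ := costSum κ noO x r t

theorem costU_eq (κ r x t) : costU κ r x t = costUpTo κ (toProg r) ∅ x t := by
  unfold costU
  rw [← costUpTo_eq, noO_eq]

theorem prim_costU (κ : Criterion) {α : Type} [Primcodable α] {x : α → Str}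
    (hx : Primrec x) {r : α → List Raw} (hr : Primrec r) {t : α → ℕ} (ht : Primrec t) :
    Primrec fun a => costU κ (r a) (x a) (t a) :=
  prim_costSum κ (O := fun _ => noO) prim_noO hx hr ht

end Pool.Agent.CTypes
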