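import Pool.Agent.CTypes.Tower

/-! Branching on the first bit of the input. -/

namespace Pool.Agent.CTypes

theorem steps_iterate (κ P O x) (t : ℕ) : ∀ s : State, Steps κ P O x s
    (∑ k ∈ Finset.range t, (fetch P ((step P O x)^[k] s).pc).cost κ ((step P O x)^[k] s).mem)
    ((step P O x)^[t] s) := by
  induction t with
  | zero => intro s; exact Steps.refl s
  | succ t ih =>
    intro s
    rw [Finset.sum_range_succ', Function.iterate_succ_apply, add_comm]
    exact Steps.head (ih (step P O x s))

theorem Halts.steps {κ P O x b c} (h : Halts κ P O x b c) :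
    ∃ s', Steps κ P O x (init x) c s' ∧ fetch P s'.pc = .halt b := by
  obtain ⟨t, h1, rfl⟩ := h
  exact ⟨_, steps_iterate κ P O x t (init x), h1⟩

/-- Relocation of an instruction. -/
def shiftI (L : ℕ) : Instr → Instr
  | .jz i l => .jz i (l + L)
  | .jmp l => .jmp (l + L)
  | I => I

theorem shiftI_plain {L : ℕ} {I : Instr} (h : I.Plain) : (shiftI L I).Plain := by
  cases I <;> exact h

theorem init_mem_pos {x : Str} {i : ℕ} (h : i ≠ 0) : (init x).mem i = 0 := if_neg h

/-- Run `M` if the first bit is `0` and the structured program `w` otherwise. -/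
def comb (w : W) (M : Prog) : Prog :=
  ([.read 1 2, .jz 1 (2 + w.len + 3)] ++
    (w.compile 2 ++ [.jz 0 (2 + w.len + 2), .halt true, .halt false])) ++
      M.map (shiftI (2 + w.len + 3))

theorem comb_plain {w : W} {M : Prog} (hw : w.Plain) (hM : Plain M) : Plain (comb w M) := by
  intro I hI
  simp only [comb, List.mem_append, List.mem_cons, List.not_mem_nil, or_false,
    List.mem_map] at hI
  rcases hI with ((rfl | rfl) | hI | rfl | rfl | rfl) | ⟨J, hJ, rfl⟩
  · trivial
  · trivial
  · exact hw.compile _ I hI
  · trivial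
  · trivial
  · trivial
  · exact shiftI_plain (hM J hJ)

theorem fetch_comb (w : W) (M : Prog) (pc : ℕ) :
    fetch (comb w M) (pc + (2 + w.len + 3)) = shiftI (2 + w.len + 3) (fetch M pc) := by
  unfold fetch comb
  have hl : ([Instr.read 1 2, .jz 1 (2 + w.len + 3)] ++
    (w.compile 2 ++ [Instr.jz 0 (2 + w.len + 2), .halt true, .halt false])).length =
      2 + w.len + 3 := by
    simp only [List.length_append, W.length_compile, List.length_cons, List.length_nil]
    omega
  rw [List.getD_append_right _ _ _ _ (by rw [hl]; omega), hl, Nat.add_sub_cancel,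
    List.getD_eq_getElem?_getD, List.getD_eq_getElem?_getD, List.getElem?_map]
  cases M[pc]? <;> rfl

/-- The configuration of the combined machine corresponding to a configuration of `M`. -/
def lift (L : ℕ) (s : State) : State := ⟨s.pc + L, s.mem, s.q⟩

theorem step_comb (w : W) (M : Prog) (O x) (s : State) :
    step (comb w M) O x (lift (2 + w.len + 3) s) = lift (2 + w.len + 3) (step M O x s) := by
  unfold step
  have h : fetch (comb w M) (lift (2 + w.len + 3) s).pc =
      shiftI (2 + w.len + 3) (fetch M s.pc) := fetch_comb w M s.pc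
  rw [h]
  generalize 2 + w.len + 3 = L
  have e : s.pc + L + 1 = s.pc + 1 + L := by omega
  cases fetch M s.pc with
  | jz i l =>
    simp only [shiftI, exec, lift]
    by_cases hm : s.mem i = 0
    · rw [if_pos hm, if_pos hm]
    · rw [if_neg hm, if_neg hm, e]
  | jmp l => rfl
  | halt b => rfl
  | query i =>
    simp only [shiftI, exec, lift, e]
    rfl
  | _ => simp only [shiftI, exec, lift, e]

theorem cost_shiftI (κ : Criterion) (L : ℕ) (I : Instr) (m : ℕ → ℕ) :
    (shiftI L I).cost κ m = I.cost κ m := by
  cases I <;> rfl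

theorem Steps.comb {κ M O x s c s'} (h : Steps κ M O x s c s') (w : W) :
    Steps κ (CTypes.comb w M) O x (lift (2 + w.len + 3) s) c (lift (2 + w.len + 3) s') := by
  induction h with
  | refl s => exact Steps.refl _
  | @head s s' c _ ih =>
    rw [← step_comb] at ih
    have h2 := Steps.head ih
    have h : fetch (CTypes.comb w M) (lift (2 + w.len + 3) s).pc =
      shiftI (2 + w.len + 3) (fetch M s.pc) := fetch_comb w M s.pc
    rw [h, cost_shiftI] at h2
    exact h2

theorem comb_zero {κ w M O x b c} (h0 : bitAt x 0 = 0) (h : Halts κ M O x b c) :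
    ∃ c', Halts κ (comb w M) O x b c' ∧ c' ≤ c + 6 := by
  obtain ⟨s', h1, h2⟩ := h.steps
  have h3 := h1.comb w
  have s1 : Seg (comb w M) 0 ([Instr.read 1 2] ++ [.jz 1 (2 + w.len + 3)]) := by
    refine Seg.left (Q' := (w.compile 2 ++ [.jz 0 (2 + w.len + 2), .halt true, .halt false]) ++
      M.map (shiftI (2 + w.len + 3))) ?_
    have := Seg.all (comb w M)
    unfold comb at this ⊢
    simpa using this
  have r1 : Steps κ (comb w M) O x (init x) ((Instr.read 1 2).cost κ (init x).mem)
      ⟨0 + 1, (init x).mem, []⟩ := by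
    refine steps_one s1.left.fetch ?_ rfl
    simp only [exec]
    congr 1
    have e2 : (init x).mem 2 = 0 := init_mem_pos (by norm_num)
    have e1 : (init x).mem 1 = 0 := init_mem_pos (by norm_num)
    change Function.update (init x).mem 1 (bitAt x ((init x).mem 2)) = (init x).mem
    rw [e2, h0]
    conv_lhs => rw [← e1]
    exact Function.update_eq_self _ _
  have r2 : Steps κ (comb w M) O x ⟨0 + 1, (init x).mem, []⟩
      ((Instr.jz 1 0).cost κ (init x).mem) (lift (2 + w.len + 3) (init x)) := by
    refine steps_one s1.right.fetch ?_ rfl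
    have e1 : (init x).mem 1 = 0 := init_mem_pos (by norm_num)
    simp only [exec, lift]
    rw [if_pos e1]
    simp [init]
  have h4 := r1.trans (r2.trans h3)
  refine ⟨_, h4.halts (b := b) ?_, ?_⟩
  · change fetch (comb w M) (s'.pc + (2 + w.len + 3)) = _
    rw [fetch_comb, h2]
    rfl
  · have e2 : (init x).mem 2 = 0 := init_mem_pos (by norm_num)
    have e1 : (init x).mem 1 = 0 := init_mem_pos (by norm_num)
    simp only [Instr.cost]
    rw [e1, e2]
    have a0 : κ.len 0 ≤ 0 := len_le_of_lt κ (by norm_num)
    have a1 : κ.len 1 ≤ 1 := len_le_of_lt κ (by norm_num)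
    have a2 : κ.len 2 ≤ 2 := len_le_of_lt κ (by norm_num)
    omega

theorem comb_one {κ w O x} (h0 : bitAt x 0 = 1) {m' q' c}
    (h : Runs κ x O w (Function.update (mem0 x.length) 1 1) [] m' q' c) :
    ∃ c', c' ≤ c + 8 + κ.len (m' 0) ∧
      ∀ M, Halts κ (comb w M) O x (decide (m' 0 ≠ 0)) c' := by
  refine ⟨(Instr.read 1 2).cost κ (mem0 x.length) +
    ((Instr.jz 1 0).cost κ (Function.update (mem0 x.length) 1 1) +
      (c + (Instr.jz 0 0).cost κ m')), ?_, fun M => ?_⟩
  · simp only [Instr.cost]
    rw [upd_eq, mem0_pos (by norm_num)]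
    have a0 : κ.len 0 ≤ 0 := len_le_of_lt κ (by norm_num)
    have a1 : κ.len 1 ≤ 1 := len_le_of_lt κ (by norm_num)
    have a2 : κ.len 2 ≤ 2 := len_le_of_lt κ (by norm_num)
    omega
  · have s0 : Seg (comb w M) 0 (([Instr.read 1 2] ++ [.jz 1 (2 + w.len + 3)]) ++
        (w.compile 2 ++ ([.jz 0 (2 + w.len + 2)] ++ ([.halt true] ++ [.halt false])))) := by
      refine Seg.left (Q' := M.map (shiftI (2 + w.len + 3))) ?_
      have := Seg.all (comb w M)
      unfold comb at this ⊢
      simpa using this
    have s1 := s0.left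
    have s2 := s0.right
    have s3 := s2.right
    rw [W.length_compile] at s3
    have s4 := s3.right
    have s5 := s4.right
    have r1 : Steps κ (comb w M) O x (init x) ((Instr.read 1 2).cost κ (mem0 x.length))
        ⟨0 + 1, Function.update (mem0 x.length) 1 1, []⟩ := by
      refine steps_one s1.left.fetch ?_ rfl
      simp only [exec]
      congr 1
      have e2 : (init x).mem 2 = 0 := init_mem_pos (by norm_num)
      change Function.update (init x).mem 1 (bitAt x ((init x).mem 2)) = _
      rw [e2, h0]
      rfl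
    have r2 : Steps κ (comb w M) O x ⟨0 + 1, Function.update (mem0 x.length) 1 1, []⟩
        ((Instr.jz 1 0).cost κ (Function.update (mem0 x.length) 1 1))
        ⟨0 + 1 + 1, Function.update (mem0 x.length) 1 1, []⟩ := by
      refine steps_one s1.right.fetch ?_ rfl
      simp only [exec]
      rw [upd_eq, if_neg (by norm_num)]
    have r3 := h.steps (comb w M) (0 + 1 + 1) s2.left
    by_cases hm : m' 0 = 0
    · have r4 : Steps κ (comb w M) O x ⟨0 + 1 + 1 + w.len, m', q'⟩ ((Instr.jz 0 0).cost κ m')
          ⟨0 + 1 + 1 + w.len + 1 + 1, m', q'⟩ := by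
        refine steps_one s3.left.fetch ?_ rfl
        simp only [exec]
        rw [if_pos hm]
      have h5 := (r1.trans (r2.trans (r3.trans r4))).halts (b := false) s5.fetch
      simpa [hm] using h5
    · have r4 : Steps κ (comb w M) O x ⟨0 + 1 + 1 + w.len, m', q'⟩ ((Instr.jz 0 0).cost κ m')
          ⟨0 + 1 + 1 + w.len + 1, m', q'⟩ := by
        refine steps_one s3.left.fetch ?_ rfl
        simp only [exec]
        rw [if_neg hm]
      have h5 := (r1.trans (r2.trans (r3.trans r4))).halts (b := true) s4.left.fetch
      simpa [hm] using h5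

end Pool.Agent.CTypes
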