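import Pool.Agent.CTypes.Diag

/-! The reductions `x ↦ u ++ x`. -/

namespace Pool.Agent.CTypes

theorem len_le_size (κ : Criterion) (n : ℕ) : κ.len n ≤ Nat.size n := by
  cases κ with
  | uniform => exact Nat.zero_le _
  | logarithmic => exact le_rfl

theorem size_mono {a b : ℕ} (h : a ≤ b) : Nat.size a ≤ Nat.size b := Nat.size_le_size h

theorem size_le_self (n : ℕ) : Nat.size n ≤ n := Nat.size_le.2 Nat.lt_two_pow_self

theorem len_le (κ : Criterion) {a b : ℕ} (h : a ≤ b) : κ.len a ≤ Nat.size b :=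
  (len_le_size κ a).trans (size_mono h)

theorem size_le_of_lt {a k : ℕ} (h : a < 2 ^ k) : Nat.size a ≤ k := Nat.size_le.2 h

theorem len_le_of_lt (κ : Criterion) {a k : ℕ} (h : a < 2 ^ k) : κ.len a ≤ k :=
  (len_le_size κ a).trans (size_le_of_lt h)

theorem poly_bound (C d : ℕ) : ∃ k, ∀ n : ℕ, C * n ^ d + C ≤ n ^ k + k := by
  refine ⟨d + 2 * C, fun n => ?_⟩
  rcases Nat.lt_or_ge n 2 with h | h
  · have h1 : n ^ d ≤ 1 := (Nat.pow_le_pow_left (by omega : n ≤ 1) d).trans (by simp)
    nlinarith [Nat.zero_le (n ^ (d + 2 * C))]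
  · have h1 : 2 * C ≤ n ^ (2 * C) := (Nat.lt_pow_self h).le
    have h2 : 1 ≤ n ^ d := Nat.one_le_pow _ _ (by omega)
    rw [pow_add]
    nlinarith [Nat.mul_le_mul_left (n ^ d) h1]

/-- Appending a fixed string to the query. -/
def writeAll : Str → W
  | [] => .skip
  | b :: u => .seq (.write b) (writeAll u)

theorem writeAll_spec (κ x O) (u : Str) : ∀ m q, Runs κ x O (writeAll u) m q m (q ++ u)
    u.length := by
  induction u with
  | nil => intro m q; rw [List.append_nil]; exact Runs.skip m q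
  | cons b u ih =>
    intro m q
    have h := (Runs.write (κ := κ) (x := x) (O := O) b m q).seq (ih m (q ++ [b]))
    have e : q ++ [b] ++ u = q ++ b :: u := by simp
    rw [e] at h
    have e2 : (Instr.write b).cost κ m + u.length = (b :: u).length := by
      simp only [Instr.cost, List.length_cons]; omega
    rw [← e2]
    exact h

/-- The body of the copying loop. -/
def copyBody : W :=
  .seq (.read 3 2) (.seq (.ite 3 (.write false) (.write true)) (.seq (.add 2 2 1) (.sub 0 0 1)))

theorem copyBody_spec (κ x O) (m : ℕ → ℕ) (q : Str) (h2 : m 2 < x.length) (h1 : m 1 = 1) :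
    ∃ m' c, Runs κ x O copyBody m q m' (q ++ [x.getD (m 2) false]) c ∧
      m' 0 = m 0 - 1 ∧ m' 1 = 1 ∧ m' 2 = m 2 + 1 ∧
      c ≤ 30 + 2 * Nat.size x.length + Nat.size (m 0) := by
  let m1 := Function.update m 3 (bitAt x (m 2))
  have r1 : Runs κ x O (.read 3 2) m q m1 q _ := Runs.read 3 2 m q
  have r2 : ∃ c, Runs κ x O (.ite 3 (.write false) (.write true)) m1 q m1
      (q ++ [x.getD (m 2) false]) c ∧ c ≤ 10 := by
    have hs : κ.len 3 ≤ 2 := len_le_of_lt κ (by norm_num)
    by_cases hb : x.getD (m 2) false = true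
    · have e : m1 3 = 1 := by
        simp only [m1]; rw [upd_eq, bitAt, if_pos hb]
      rw [hb]
      refine ⟨_, Runs.ite_pos (by omega) (Runs.write true m1 q), ?_⟩
      have hs' : κ.len 1 ≤ 1 := len_le_of_lt κ (by norm_num)
      simp only [Instr.cost, e]
      omega
    · have e : m1 3 = 0 := by
        simp only [m1]; rw [upd_eq, bitAt, if_neg hb]
      have hb' : x.getD (m 2) false = false := by simpa using hb
      rw [hb']
      refine ⟨_, Runs.ite_zero e (Runs.write false m1 q), ?_⟩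
      have hs' : κ.len 0 ≤ 0 := len_le_of_lt κ (by norm_num)
      simp only [Instr.cost, e]
      omega
  obtain ⟨c2, r2, hc2⟩ := r2
  have r3 := Runs.add (κ := κ) (x := x) (O := O) 2 2 1 m1 (q ++ [x.getD (m 2) false])
  have r4 := Runs.sub (κ := κ) (x := x) (O := O) 0 0 1 (Function.update m1 2 (m1 2 + m1 1))
    (q ++ [x.getD (m 2) false])
  refine ⟨_, _, r1.seq (r2.seq (r3.seq r4)), ?_, ?_, ?_, ?_⟩
  · simp only [m1]
    simp (disch := omega) only [upd_eq, upd_ne, h1]
  · simp only [m1]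
    simp (disch := omega) only [upd_eq, upd_ne, h1]
  · simp only [m1]
    simp (disch := omega) only [upd_eq, upd_ne, h1]
  · have e1 : m1 1 = 1 := by simp only [m1]; rw [upd_ne (by omega), h1]
    have e2 : m1 2 = m 2 := by simp only [m1]; rw [upd_ne (by omega)]
    have e0 : m1 0 = m 0 := by simp only [m1]; rw [upd_ne (by omega)]
    simp only [Instr.cost]
    rw [upd_ne (by omega), upd_ne (by omega), e0, e1, e2]
    have a0 : κ.len 0 ≤ 0 := len_le_of_lt κ (by norm_num)
    have a1 : κ.len 1 ≤ 1 := len_le_of_lt κ (by norm_num)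
    have a2 : κ.len 2 ≤ 2 := len_le_of_lt κ (by norm_num)
    have a3 : κ.len 3 ≤ 2 := len_le_of_lt κ (by norm_num)
    have a4 : κ.len (m 2) ≤ Nat.size x.length := len_le κ h2.le
    have a5 : κ.len (m 0) ≤ Nat.size (m 0) := len_le κ le_rfl
    omega

theorem copyLoop_spec (κ x O) (d : ℕ) : ∀ (m : ℕ → ℕ) (q : Str) (k : ℕ), m 0 = d → m 1 = 1 →
    m 2 = k → k + d = x.length →
    ∃ m' c, Runs κ x O (.loop 0 copyBody) m q m' (q ++ x.drop k) c ∧ m' 1 = 1 ∧
      c ≤ (d + 1) * (40 + 4 * Nat.size x.length) := by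
  induction d with
  | zero =>
    intro m q k h0 h1 h2 hk
    have : x.drop k = [] := List.drop_eq_nil_of_le (by omega)
    rw [this, List.append_nil]
    refine ⟨m, _, Runs.loop_zero h0, h1, ?_⟩
    simp only [Instr.cost]
    rw [h0]
    have a0 : κ.len 0 ≤ 0 := len_le_of_lt κ (by norm_num)
    omega
  | succ d ih =>
    intro m q k h0 h1 h2 hk
    obtain ⟨m1, c1, r1, e0, e1, e2, hc1⟩ := copyBody_spec κ x O m q (by omega) h1
    obtain ⟨m2, c2, r2, f1, hc2⟩ := ih m1 (q ++ [x.getD (m 2) false]) (k + 1) (by omega) e1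
      (by omega) (by omega)
    have e : q ++ [x.getD (m 2) false] ++ x.drop (k + 1) = q ++ x.drop k := by
      rw [h2, List.append_assoc]
      congr 1
      have hlt : k < x.length := by omega
      rw [List.drop_eq_getElem_cons hlt, List.getD_eq_getElem _ _ hlt]
      rfl
    rw [e] at r2
    refine ⟨m2, _, Runs.loop_pos (by omega) r1 r2, f1, ?_⟩
    simp only [Instr.cost]
    have a0 : κ.len 0 ≤ 0 := len_le_of_lt κ (by norm_num)
    have a5 : κ.len (m 0) ≤ Nat.size x.length := len_le κ (by omega)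
    have a6 : Nat.size (m 0) ≤ Nat.size x.length := size_mono (by omega)
    nlinarith

/-- The program querying `u ++ x` on input `x`. -/
def prefixW (u : Str) : W :=
  .seq (writeAll u) (.seq (.const 1 1) (.seq (.loop 0 copyBody) (.query 0)))

open Classical in
theorem prefixW_spec (κ x O) (u : Str) : ∃ m' c, Runs κ x O (prefixW u) (init x).mem [] m' [] c ∧
    m' 0 = (if u ++ x ∈ O then 1 else 0) ∧
      c ≤ u.length + 10 + (x.length + 1) * (40 + 4 * Nat.size x.length) := by
  have r1 := writeAll_spec κ x O u (init x).mem []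
  have r2 := Runs.const (κ := κ) (x := x) (O := O) 1 1 (init x).mem ([] ++ u)
  obtain ⟨m3, c3, r3, h3, hc3⟩ := copyLoop_spec κ x O x.length
    (Function.update (init x).mem 1 1) ([] ++ u) 0 (by rw [upd_ne (by omega)]; rfl) upd_eq
    (by rw [upd_ne (by omega)]; rfl) (by omega)
  have r4 := Runs.query (κ := κ) (x := x) (O := O) 0 m3 ([] ++ u ++ x.drop 0)
  refine ⟨_, _, r1.seq (r2.seq (r3.seq r4)), ?_, ?_⟩
  · rw [upd_eq]
    simp
  · simp only [Instr.cost]
    have a0 : κ.len 0 ≤ 0 := len_le_of_lt κ (by norm_num)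
    have a1 : κ.len 1 ≤ 1 := len_le_of_lt κ (by norm_num)
    omega

theorem leTp_of_prefix {κ : Criterion} {A B : Set Str} (u : Str)
    (h : ∀ x, x ∈ A ↔ u ++ x ∈ B) : LeTp κ A B := by
  obtain ⟨k, hk⟩ := poly_bound (u.length + 200) 2
  have key : ∀ (O : Set Str) (x : Str), ∃ b c, Halts κ (prefixW u).toProg O x b c ∧
      (b = true ↔ u ++ x ∈ O) ∧ c ≤ x.length ^ k + k := by
    intro O x
    obtain ⟨m', c, h1, h2, h3⟩ := prefixW_spec κ x O u
    refine ⟨_, _, h1.halts, ?_, ?_⟩
    · rw [decide_eq_true_iff, h2]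
      split_ifs with h <;> simp [h]
    · refine le_trans ?_ (hk x.length)
      simp only [Instr.cost]
      have a0 : κ.len 0 ≤ 0 := len_le_of_lt κ (by norm_num)
      have a1 : κ.len (m' 0) ≤ 1 := len_le_of_lt κ (by rw [h2]; split_ifs <;> norm_num)
      have a2 := size_le_self x.length
      have a3 : (x.length + 1) * (40 + 4 * Nat.size x.length) ≤
          (x.length + 1) * (40 + 4 * x.length) := Nat.mul_le_mul_left _ (by omega)
      have a4 : x.length ≤ x.length ^ 2 := Nat.le_self_pow (by norm_num) _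
      have a5 : 200 * x.length ^ 2 ≤ (u.length + 200) * x.length ^ 2 :=
        Nat.mul_le_mul_right _ (by omega)
      nlinarith
  refine ⟨(prefixW u).toProg, ⟨k, fun O x => ?_⟩, fun x => ?_⟩
  · obtain ⟨b, c, h1, -, h3⟩ := key O x
    exact ⟨b, c, h1, h3⟩
  · obtain ⟨b, c, h1, h2, -⟩ := key B x
    exact ⟨b, c, h1, h2.trans (h x).symm⟩

theorem LeTp.refl (κ : Criterion) (A : Set Str) : LeTp κ A A :=
  leTp_of_prefix [] fun _ => Iff.rfl

end Pool.Agent.CTypes
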