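import Pool.Agent.CTypes.Read

/-! Machines deciding computable sets and clocks, with parameters. -/

namespace Pool.Agent.CTypes

/-- The raw code of an instruction. -/
def fromInstr : Instr → Raw
  | .const i c => (0, i, c, 0)
  | .add i j k => (1, i, j, k)
  | .sub i j k => (2, i, j, k)
  | .load i j => (3, i, j, 0)
  | .store i j => (4, i, j, 0)
  | .read i j => (5, i, j, 0)
  | .jz i l => (6, i, l, 0)
  | .jmp l => (7, l, 0, 0)
  | .write b => (8, if b then 1 else 0, 0, 0)
  | .query i => (9, i, 0, 0)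
  | .halt b => (10, if b then 1 else 0, 0, 0)

theorem toInstr_fromInstr (I : Instr) : toInstr (fromInstr I) = I := by
  cases I with
  | write b => cases b <;> rfl
  | halt b => cases b <;> rfl
  | _ => rfl

/-- The raw code of a program. -/
def fromProg (P : Prog) : List Raw := P.map fromInstr

theorem toProg_fromProg (P : Prog) : toProg (fromProg P) = P := by
  unfold toProg fromProg
  rw [List.map_map]
  conv_rhs => rw [← List.map_id P]
  exact List.map_congr_left fun I _ => toInstr_fromInstr I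

/-- The code of the machine `R_N := c; w`, as a function of `c`. -/
def paramR (N : ℕ) (w : W) (c : ℕ) : List Raw :=
  (0, N, c, 0) :: fromProg (w.compile 1 ++ [.jz 0 (1 + w.len + 2), .halt true, .halt false])

theorem toProg_paramR (N : ℕ) (w : W) (c : ℕ) :
    toProg (paramR N w c) = (W.seq (.const N c) w).toProg := by
  unfold paramR
  change toInstr (0, N, c, 0) :: toProg (fromProg _) = _
  rw [toProg_fromProg]
  rfl

theorem prim_paramR (N : ℕ) (w : W) : Primrec (paramR N w) := by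
  unfold paramR
  exact Primrec.list_cons.comp ((Primrec.const 0).pair ((Primrec.const N).pair
    (Primrec.id.pair (Primrec.const 0)))) (Primrec.const _)

/-- The initial memory for inputs of length `n`. -/
def mem0 (n : ℕ) : ℕ → ℕ := fun i => if i = 0 then n else 0

theorem init_mem (x : Str) : (init x).mem = mem0 x.length := rfl

theorem mem0_zero (n : ℕ) : mem0 n 0 = n := rfl

theorem mem0_pos {n i : ℕ} (h : i ≠ 0) : mem0 n i = 0 := if_neg h

/-- Deciders for computable sets, with a parameter. -/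
theorem exists_decider {f : ℕ →. ℕ} (hf : Nat.Partrec f) :
    ∃ w : W, w.Plain ∧ ∀ (c : ℕ) (x : Str) (y : ℕ), y ∈ f (Nat.pair c (Encodable.encode x)) →
      ∀ m : ℕ → ℕ, m 0 = x.length →
      ∃ m', Rx x (.seq (.const 8 c) w) m m' ∧ m' 0 = y := by
  obtain ⟨wf, pf, Nf, hNf, hf⟩ := cmp_of_partrec hf
  refine ⟨.seq readW (.seq (pairW 9 8 0 10) (.seq (mov 0 9) wf)),
    ⟨readW_plain, (pairW_pure _ _ _ _).plain, (mov_pure _ _).plain, pf.plain⟩, ?_⟩
  intro c x y hy m hm
  obtain ⟨m1, r1, v1, u1⟩ := readW_spec x (Function.update m 8 c) (by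
    rw [upd_ne (by omega), hm])
  obtain ⟨m2, r2, v2, u2⟩ := pairW_spec (r := 9) (a := 8) (b := 0) (t := 10) m1
    (by omega) (by omega) (by omega) (by omega) (by omega)
  rw [u1 8 le_rfl, upd_eq, v1] at v2
  obtain ⟨m3, r3, v3, -⟩ := hf (Function.update m2 0 (m2 9)) y (by rw [upd_eq, v2]; exact hy)
  exact ⟨m3, ((R.const rfl).rx x).seq (r1.seq ((r2.rx x).seq (((R.mov (by omega) rfl).rx x).seq
    (r3.rx x)))), v3⟩

/-- Counting down from `R_0`. -/
def countW : W := .seq (.const 1 1) (.loop 0 (.sub 0 0 1))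

theorem countW_pure : countW.Pure := ⟨trivial, trivial⟩

theorem countLoop_spec (κ x O q) (v : ℕ) : ∀ m : ℕ → ℕ, m 0 = v → m 1 = 1 →
    ∃ m' c, Runs κ x O (.loop 0 (.sub 0 0 1)) m q m' q c ∧ v ≤ c ∧ m' 0 = 0 := by
  induction v with
  | zero =>
    intro m h0 _
    exact ⟨m, _, Runs.loop_zero h0, Nat.zero_le _, h0⟩
  | succ v ih =>
    intro m h0 h1
    obtain ⟨m', c, hr, hc, hz⟩ := ih (Function.update m 0 (m 0 - m 1))
      (by rw [upd_eq, h0, h1]; omega) (by rw [upd_ne (by omega), h1])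
    refine ⟨m', _, Runs.loop_pos (by omega) (Runs.sub 0 0 1 m q) hr, ?_, hz⟩
    simp only [Instr.cost]
    omega

theorem countW_spec (κ x O q) (m : ℕ → ℕ) :
    ∃ m' c, Runs κ x O countW m q m' q c ∧ m 0 ≤ c ∧ m' 0 = 0 := by
  obtain ⟨m', c, hr, hc, hz⟩ := countLoop_spec κ x O q (m 0) (Function.update m 1 1)
    (upd_ne (by omega)) upd_eq
  exact ⟨m', _, (Runs.const 1 1 m q).seq hr, by omega, hz⟩

/-- Clocks: machines whose running time depends on the length `n` of the input only and is at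
least `f(c, n)`. -/
theorem exists_clock {f : ℕ →. ℕ} (hf : Nat.Partrec f) :
    ∃ w : W, w.Pure ∧ ∀ κ (c n y : ℕ), y ∈ f (Nat.pair c n) →
      ∃ m' cost, y ≤ cost ∧ ∀ (x : Str) (O : Set Str),
        Runs κ x O (.seq (.const 1 c) w) (mem0 n) [] m' [] cost := by
  obtain ⟨wf, pf, Nf, hNf, hf⟩ := cmp_of_partrec hf
  have hpure : (W.seq (pairW 2 1 0 3) (.seq (mov 0 2) (.seq wf countW))).Pure :=
    ⟨pairW_pure _ _ _ _, mov_pure _ _, pf, countW_pure⟩
  refine ⟨_, hpure, ?_⟩
  intro κ c n y hy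
  obtain ⟨m2, r2, v2, u2⟩ := pairW_spec (r := 2) (a := 1) (b := 0) (t := 3)
    (Function.update (mem0 n) 1 c)
    (by omega) (by omega) (by omega) (by omega) (by omega)
  rw [upd_eq, upd_ne (by omega), mem0_zero] at v2
  obtain ⟨m3, r3, v3, -⟩ := hf (Function.update m2 0 (m2 2)) y (by rw [upd_eq, v2]; exact hy)
  have h1 : R (.seq (.const 1 c) (.seq (pairW 2 1 0 3) (.seq (mov 0 2) wf))) (mem0 n) m3 :=
    R.seq (R.const rfl) (R.seq r2 (R.seq (R.mov (by omega) rfl) r3))
  obtain ⟨m4, c4, r4, h4, -⟩ := countW_spec κ [] ∅ [] m3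
  have r2' := r2 κ [] ∅ []
  obtain ⟨a1, ha1⟩ := r2 κ [] ∅ []
  obtain ⟨a2, ha2⟩ := R.mov (i := 0) (j := 2) (m := m2) (by omega) rfl κ [] ∅ []
  obtain ⟨a3, ha3⟩ := r3 κ [] ∅ []
  have hrun := (Runs.const (κ := κ) (x := []) (O := ∅) 1 c (mem0 n) []).seq
    (ha1.seq (ha2.seq (ha3.seq r4)))
  refine ⟨m4, _, ?_, fun x O => hrun.pure ⟨trivial, hpure⟩ x O⟩
  rw [v3] at h4
  omega

end Pool.Agent.CTypes
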