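import Pool.Agent.CTypes.Strs

/-! The set `K`, complete for its complexity type. -/

namespace Pool.Agent.CTypes

open Primrec
open Nat.Partrec (Code)

/-! ### Total costs -/

/-- The total cost of the machine with code `r` on the inputs of length `n`. -/
def totP (κ : Criterion) (r : List Raw) (n : ℕ) : Part ℕ :=
  (Nat.rfind fun t => Part.some (allHalt r n t)).map fun t => tot κ r n t

theorem partrec_totP (κ : Criterion) {α : Type} [Primcodable α] {r : α → List Raw}
    {n : α → ℕ} (hr : Primrec r) (hn : Primrec n) : Partrec fun a => totP κ (r a) (n a) := by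
  refine Partrec.map (Partrec.rfind ?_) ?_
  · exact (prim_allHalt (α := α × ℕ) (hr.comp fst) (hn.comp fst) snd).to_comp.partrec.to₂
  · exact (prim_tot κ (α := α × ℕ) (hr.comp fst) (hn.comp fst) snd).to_comp.to₂

theorem totP_spec {κ : Criterion} {r : List Raw} {n : ℕ} {cost : Str → ℕ}
    (h : ∀ z : Str, z.length = n → ∃ b, Halts κ (toProg r) ∅ z b (cost z)) :
    ∃ y ∈ totP κ r n, ∀ z : Str, z.length = n → cost z ≤ y := by
  have hT : allHalt r n ((strs n).map cost).sum = true := by
    rw [allHalt_iff]
    intro z hz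
    obtain ⟨b, hb⟩ := h z hz
    exact ⟨b, hb.U (le_lsum (mem_strs.2 hz))⟩
  have hdom : (Nat.rfind fun t => Part.some (allHalt r n t)).Dom := by
    rw [Nat.rfind_dom]
    exact ⟨_, by rw [hT]; exact Part.mem_some _, fun _ => trivial⟩
  obtain ⟨t, ht⟩ := Part.dom_iff_mem.1 hdom
  refine ⟨tot κ r n t, Part.mem_map _ ht, fun z hz => ?_⟩
  have h1 := Nat.rfind_spec ht
  have h2 : allHalt r n t = true := (Part.mem_some_iff.1 h1).symm
  obtain ⟨b', hb'⟩ := allHalt_iff.1 h2 z hz
  obtain ⟨b, hb⟩ := h z hz
  rw [← costU_of_halts hb hb']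
  exact tot_ge hz

/-! ### Strings -/

/-- Decoding strings. -/
def strOf (n : ℕ) : Str := (Encodable.decode n : Option Str).getD []

theorem strOf_encode (x : Str) : strOf (Encodable.encode x) = x := by
  unfold strOf
  rw [Encodable.encodek]
  rfl

theorem prim_strOf : Primrec strOf := Primrec.option_getD.comp Primrec.decode (const [])

/-- Number of leading ones. -/
def lead (r : Str) : ℕ := r.findIdx fun b => !b

theorem prim_lead : Primrec lead :=
  Primrec.list_findIdx Primrec.id (Primrec.not.comp snd).to₂

theorem lead_eq (m : ℕ) (x : Str) : lead (List.replicate m true ++ false :: x) = m := by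
  unfold lead
  induction m with
  | zero =>
    simp only [List.replicate_zero, List.nil_append]
    rw [List.findIdx_cons]
    rfl
  | succ m ih =>
    rw [List.replicate_succ, List.cons_append, List.findIdx_cons, ih]
    rfl

theorem drop_lead (m : ℕ) (x : Str) :
    (List.replicate m true ++ false :: x).drop (m + 1) = x := by
  rw [List.drop_append]
  simp

/-- The condition defining `K`. -/
def accK (z : Str) (t : ℕ) : Bool :=
  if z.headI = true then decide (U (prog (lead z.tail).unpair.1) z t ≠ some true)
  else decide (U (prog (lead z.tail).unpair.1) (z.tail.drop (lead z.tail + 1)) (z.length * t)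
    = some true)

theorem prim_accK {α : Type} [Primcodable α] {z : α → Str} {t : α → ℕ} (hz : Primrec z)
    (ht : Primrec t) : Primrec fun a => accK (z a) (t a) := by
  have hl : Primrec fun a => lead (z a).tail := prim_lead.comp (Primrec.list_tail.comp hz)
  have hp : Primrec fun a => prog (lead (z a).tail).unpair.1 :=
    prim_prog.comp (fst.comp (Primrec.unpair.comp hl))
  unfold accK
  refine Primrec.ite (Primrec.eq.comp (Primrec.list_headI.comp hz) (const true)) ?_ ?_
  · exact (Primrec.eq.comp (prim_U hz hp ht) (const (some true))).not.decide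
  · exact (Primrec.eq.comp (prim_U (Primrec.list_drop.comp (Primrec.succ.comp hl)
      (Primrec.list_tail.comp hz)) hp (prim_mul (Primrec.list_length.comp hz) ht))
        (const (some true))).decide

/-- Deciding `K` relative to the function with code `c`. -/
def kdf : ℕ →. ℕ := fun p =>
  (Code.eval (Denumerable.ofNat Code p.unpair.1) ((strOf p.unpair.2).length - 1)).map
    fun t => if accK (strOf p.unpair.2) t = true then 1 else 0

theorem partrec_kdf : Nat.Partrec kdf := by
  rw [← Partrec.nat_iff]
  have h1 : Primrec fun p : ℕ => p.unpair.1 := fst.comp Primrec.unpair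
  have h2 : Primrec fun p : ℕ => p.unpair.2 := snd.comp Primrec.unpair
  have h3 : Primrec fun p : ℕ => strOf p.unpair.2 := prim_strOf.comp h2
  refine Partrec.map (Code.eval_part.comp ((Primrec.ofNat Code).comp h1).to_comp
    (prim_sub (Primrec.list_length.comp h3) (const 1)).to_comp) ?_
  exact (Primrec.ite (Primrec.eq.comp (prim_accK (α := ℕ × ℕ) (h3.comp fst) snd) (const true))
    (const 1) (const 0)).to_comp.to₂

/-- Evaluation of codes. -/
def clf : ℕ →. ℕ := fun p => Code.eval (Denumerable.ofNat Code p.unpair.1) p.unpair.2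

theorem partrec_clf : Nat.Partrec clf := by
  rw [← Partrec.nat_iff]
  exact Code.eval_part.comp ((Primrec.ofNat Code).comp (fst.comp Primrec.unpair)).to_comp
    (snd.comp Primrec.unpair).to_comp

/-- There is a function `φ`, a machine deciding `K` with cost at most `φ`, and a clock `h` with
`φ n ≤ h n ≤ φ (n + 1)`. -/
theorem exists_phi (κ : Criterion) : ∃ φ h : ℕ → ℕ, ∃ wK wP : W, wK.Plain ∧
    (∀ z : Str, ∃ b c, Halts κ wK.toProg ∅ z b c ∧
      (b = true ↔ accK z (φ (z.length - 1)) = true) ∧ (z ≠ [] → c ≤ φ z.length)) ∧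
    IsClock κ wP h ∧
    (∀ n, φ n ≤ h n) ∧ (∀ n, h n ≤ φ (n + 1)) ∧ ∀ n, 2 ^ n ≤ φ n := by
  obtain ⟨wK, hwK, hK⟩ := exists_decider partrec_kdf
  obtain ⟨wP, hwP, hP⟩ := exists_clock partrec_clf
  let RK : Code → List Raw := fun c => paramR 8 wK (Encodable.encode c)
  let RP : Code → List Raw := fun c => paramR 1 wP (Encodable.encode c)
  have pRK : Primrec RK := (prim_paramR 8 wK).comp Primrec.encode
  have pRP : Primrec RP := (prim_paramR 1 wP).comp Primrec.encode
  let G : Code → ℕ →. ℕ := fun c n => n.casesOn (Part.some 1) fun k =>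
    (totP κ (RK c) (k + 1)).bind fun a => (totP κ (RP c) k).map fun b => 2 ^ (k + 1) + a + b
  have hG : Partrec₂ G := by
    refine Partrec.nat_casesOn_right (α := Code × ℕ) (g := fun _ => 1)
      (h := fun p k => (totP κ (RK p.1) (k + 1)).bind fun a =>
        (totP κ (RP p.1) k).map fun b => 2 ^ (k + 1) + a + b) Computable.snd
      (Computable.const 1) ?_
    refine Partrec.bind (α := (Code × ℕ) × ℕ) (partrec_totP κ
      (pRK.comp (fst.comp fst)) (Primrec.succ.comp snd)) ?_
    refine Partrec.map (α := ((Code × ℕ) × ℕ) × ℕ) (partrec_totP κ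
      (pRP.comp (fst.comp (fst.comp fst))) (snd.comp fst)) ?_
    exact (prim_add (prim_add (prim_pow (const 2) (Primrec.succ.comp (snd.comp (fst.comp fst))))
      (snd.comp fst)) snd).to_comp.to₂
  obtain ⟨c, hc⟩ := Code.fixed_point₂ hG
  have e0 : Code.eval c 0 = Part.some 1 := by rw [hc]; rfl
  -- costs of the machines
  have hRK : ∀ (z : Str) (t : ℕ), t ∈ Code.eval c (z.length - 1) →
      ∃ b co, Halts κ (toProg (RK c)) ∅ z b co ∧ (b = true ↔ accK z t = true) := by
    intro z t ht
    obtain ⟨m', h1, h2⟩ := hK (Encodable.encode c) z (if accK z t = true then 1 else 0)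
      (by
        unfold kdf
        simp only [Nat.unpair_pair, Denumerable.ofNat_encode, strOf_encode]
        exact Part.mem_map (fun t => if accK z t = true then 1 else 0) ht) (init z).mem rfl
    obtain ⟨co, hco⟩ := h1 κ ∅ []
    refine ⟨_, _, by rw [show toProg (RK c) = _ from toProg_paramR _ _ _]; exact hco.halts, ?_⟩
    rw [decide_eq_true_iff, h2]
    split_ifs with h <;> simp [h]
  have hRP : ∀ (n t : ℕ), t ∈ Code.eval c n → ∃ co b, t ≤ co ∧ (∀ x : Str, x.length = n →
      Halts κ (toProg (RP c)) ∅ x b co) ∧ ∃ m' c0, Runs κ [] ∅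
        (W.seq (.const 1 (Encodable.encode c)) wP) (mem0 n) [] m' [] c0 ∧
          co = c0 + (Instr.jz 0 0).cost κ m' := by
    intro n t ht
    obtain ⟨m', co, h1, h2⟩ := hP κ (Encodable.encode c) n t (by
      unfold clf
      simp only [Nat.unpair_pair, Denumerable.ofNat_encode]
      exact ht)
    refine ⟨co + (Instr.jz 0 0).cost κ m', decide (m' 0 ≠ 0), by omega, fun x hx => ?_,
      m', co, h2 [] ∅, rfl⟩
    rw [show toProg (RP c) = _ from toProg_paramR _ _ _]
    have h3 := h2 x ∅
    rw [← hx, ← init_mem] at h3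
    exact h3.halts
  -- totality
  have htot : ∀ n, ∃ t, t ∈ Code.eval c n ∧ 2 ^ n ≤ t ∧ (∀ k, n = k + 1 →
      (∀ (z : Str) b co, z.length = k + 1 → Halts κ (toProg (RK c)) ∅ z b co → co ≤ t) ∧
      (∀ (z : Str) b co, z.length = k → Halts κ (toProg (RP c)) ∅ z b co → co ≤ t)) := by
    intro n
    induction n with
    | zero => exact ⟨1, by rw [e0]; exact Part.mem_some _, by simp, by intro k hk; omega⟩
    | succ n ih =>
      obtain ⟨t, ht, -, -⟩ := ih
      have hz : ∀ z : Str, z.length = n + 1 → ∃ co b, Halts κ (toProg (RK c)) ∅ z b co := by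
        intro z hz
        obtain ⟨b, co, h, -⟩ := hRK z t (by rw [hz]; exact ht)
        exact ⟨co, b, h⟩
      choose! co hco using hz
      obtain ⟨a, ha, ha'⟩ := totP_spec (κ := κ) (r := RK c) (n := n + 1) (cost := co) hco
      obtain ⟨cp, bp, hcp, hcp', -⟩ := hRP n t ht
      obtain ⟨b, hb, hb'⟩ := totP_spec (κ := κ) (r := RP c) (n := n) (cost := fun _ => cp)
        (fun z hz => ⟨bp, hcp' z hz⟩)
      refine ⟨2 ^ (n + 1) + a + b, ?_, by omega, ?_⟩
      · rw [hc]
        exact Part.mem_bind ha (Part.mem_map (fun b => 2 ^ (n + 1) + a + b) hb)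
      · intro k hk
        have : k = n := by omega
        subst this
        constructor
        · intro z b' c' hz hh
          obtain ⟨b'', hb''⟩ := hco z hz
          have h1 := (hh.unique hb'').2
          have h2 := ha' z hz
          have h3 := Nat.zero_le (2 ^ (k + 1))
          generalize 2 ^ (k + 1) = P at *
          omega
        · intro z b' c' hz hh
          have h1 := (hh.unique (hcp' z hz)).2
          have h2 := hb' z hz
          have h3 := Nat.zero_le (2 ^ (k + 1))
          generalize 2 ^ (k + 1) = P at *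
          omega
  choose φ hφ using htot
  have hh := fun n => hRP n (φ n) (hφ n).1
  choose h bh hh1 hh2 hm hc0 hh3 hh4 using hh
  refine ⟨φ, h, W.seq (.const 8 (Encodable.encode c)) wK,
    W.seq (.const 1 (Encodable.encode c)) wP, ⟨trivial, hwK⟩, ?_, ?_, hh1, ?_,
    fun n => (hφ n).2.1⟩
  · intro z
    obtain ⟨b, co, h1, h2⟩ := hRK z _ (hφ _).1
    refine ⟨b, co, by rw [← toProg_paramR]; exact h1, h2, fun hz => ?_⟩
    have hl : z.length = (z.length - 1) + 1 := by
      have := List.length_pos_iff.2 hz
      omega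
    exact ((hφ z.length).2.2 _ hl).1 z b co hl h1
  · exact ⟨⟨trivial, hwP⟩, fun n => ⟨hm n, hc0 n, hh3 n, hh4 n⟩⟩
  · intro n
    exact ((hφ (n + 1)).2.2 n rfl).2 (List.replicate n false) _ _ (by simp)
      (hh2 n _ (by simp))

end Pool.Agent.CTypes
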