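import Pool.Agent.CTypes.Sets

/-! Two complexity types with non-isomorphic degree structures. -/

namespace Pool.Agent.CTypes

theorem bound_le {C S v c : ℕ} (h : c ≤ C * v + C + 21200 * v + 21200 + S) :
    c ≤ (C + 20000 + 1200 + S) * v + (C + 20000 + 1200 + S) := by
  have e : (C + 20000 + 1200 + S) * v + (C + 20000 + 1200 + S) =
      C * v + C + 21200 * v + 21200 + S + S * v := by ring
  rw [e]
  exact h.trans (Nat.le_add_right _ _)

theorem typeB (κ : Criterion) (T : Set (ℕ → ℕ)) (hT1 : ∀ f ∈ T, ∀ n, n ≤ f n)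
    (hT2 : ∀ f : ℕ → ℕ, (∀ n, n ≤ f n) → ExactlyConstructible κ f →
      (κ = .uniform → ValueConstructible κ f) → f ∈ T) :
    ∃ Z ∈ ComputableSets κ, Z ∉ PTIME κ ∧ ∃ V : ℕ → Set Str,
      (∀ j < 8, V j ∈ ComputableSets κ ∧ LeC κ T Z (V j) ∧ LeC κ T (V j) Z) ∧
      ∀ X, LeC κ T X Z → ¬ ∀ j < 8, ∃ A B, LeTp κ (V j) A ∧ LeTp κ A B ∧ LeTp κ B X := by
  obtain ⟨wA, pA, hA⟩ := exists_wA
  have hG := fun j => exists_total (machA_halts hA κ j)
  choose G hGc hG using hG
  obtain ⟨g, hg⟩ : ∃ g : ℕ → ℕ, g = fun n => 2 ^ n + ∑ j ∈ Finset.range 8, G j n := ⟨_, rfl⟩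
  have hgc : Computable g := by
    rw [hg]
    exact Primrec.nat_add.to_comp.comp computable_two_pow (computable_sum hGc 8)
  have hg1 : ∀ n, 2 ^ n ≤ g n := fun n => by rw [hg]; exact Nat.le_add_right _ _
  have hg2 : ∀ j < 8, ∀ n, G j n ≤ g n := by
    intro j hj n
    have := Finset.single_le_sum (f := fun j => G j n) (s := Finset.range 8)
      (fun _ _ => Nat.zero_le _) (Finset.mem_range.2 hj)
    rw [hg]
    exact this.trans (Nat.le_add_left _ _)
  obtain ⟨PZ, hPZ, hZ⟩ := machZ hgc κ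
  obtain ⟨u, huc, hu⟩ := exists_total (κ := κ) (P := PZ)
    (fun x => by obtain ⟨b, c, h, -⟩ := hZ x; exact ⟨c, b, h⟩)
  obtain ⟨f, ⟨wf, hf1⟩, hf2, hf3, Cf, hf4⟩ := exists_clockD (u := fun n => n + u n)
    (Primrec.nat_add.to_comp.comp Computable.id huc) (fun n => Nat.le_add_right _ _) κ
  have hfT : f ∈ T := hT2 f hf2 hf1.exact (by rintro rfl; exact hf1.value)
  have hZf : setZ g ∈ DTIME κ f := by
    refine ⟨PZ, hPZ, 20000 + 1200, fun x => ?_⟩
    obtain ⟨b, c, h1, h2, h3⟩ := hZ x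
    refine ⟨b, c, h1, h2, ?_⟩
    by_cases hD : x.length ∈ D
    · have e1 := hu x b c h1
      have e2 := hf3 _ hD
      nlinarith
    · have e1 := h3 hD
      have e2 := hf2 x.length
      nlinarith
  have hZc : setZ g ∈ ComputableSets κ := by
    refine ⟨PZ, hPZ, fun x => ?_⟩
    obtain ⟨b, c, h1, h2, -⟩ := hZ x
    exact ⟨b, c, h1, h2⟩
  -- the sets `V j` are not harder than `Z`
  have hVZ : ∀ j < 8, ∀ F : ℕ → ℕ, (∀ n, n ≤ F n) → setZ g ∈ DTIME κ F →
      setA j ∪ setZ g ∈ DTIME κ F := by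
    rintro j hj F hF ⟨M, hM, C, hC⟩
    obtain ⟨q, rfl⟩ := exists_prog M
    refine ⟨comb (decD j wA) (toProg (prog q)), comb_plain (decD_plain pA) hM,
      C + 20000 + 1200 + ∑ n ∈ Finset.range (q + 2), g n, fun x => ?_⟩
    by_cases hx : x.headI = true
    · have hb : bitAt x 0 = 1 := by rw [bitAt_zero, if_pos hx]
      have hxZ : x ∉ setZ g := fun h => by
        have := h.2.1
        rw [hx] at this
        exact absurd this (by decide)
      have hm : (Function.update (mem0 x.length) 1 1) 0 = x.length := by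
        rw [upd_ne (by omega), mem0_zero]
      by_cases hD : x.length ∈ D
      · obtain ⟨m', c, r, e⟩ := decD_in (j := j) (hA j x) κ ∅ [] hm (by rw [hm]; exact hD)
        obtain ⟨c', -, h⟩ := comb_one hb r
        refine ⟨_, _, h _, ?_, ?_⟩
        · rw [decide_eq_true_iff, e, afun_iff hD]
          exact ⟨fun h => Or.inl h, fun h => h.resolve_right hxZ⟩
        · have e1 := hG j x _ _ (h [])
          have e2 := hg2 j hj x.length
          rcases Nat.lt_or_ge x.length (q + 2) with hlt | hge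
          · have e3 := Finset.single_le_sum (f := g) (s := Finset.range (q + 2))
              (fun _ _ => Nat.zero_le _) (Finset.mem_range.2 hlt)
            exact bound_le (by omega)
          · have e3 := hardZ (B := fun n => C * F n + C) hC hD hge
            beta_reduce at e3
            exact bound_le (by omega)
      · obtain ⟨m', c, r, e, hc⟩ := decD_out (j := j) (w := wA) κ x ∅ []
          (m := Function.update (mem0 x.length) 1 1) (by rw [hm]; exact hD)
        obtain ⟨c', hc', h⟩ := comb_one hb r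
        refine ⟨_, _, h _, ?_, ?_⟩
        · rw [decide_eq_true_iff, e]
          refine iff_of_false (not_not_intro rfl) ?_
          rintro (h | h)
          · exact hD h.1
          · exact hxZ h
        · have e1 : κ.len (m' 0) ≤ 0 := len_le_of_lt κ (by rw [e]; norm_num)
          have e2 := hF x.length
          rw [hm] at hc
          exact bound_le (by omega)
    · have hb : bitAt x 0 = 0 := by rw [bitAt_zero, if_neg hx]
      obtain ⟨b, c, h1, h2, h3⟩ := hC x
      obtain ⟨c', h, hc'⟩ := comb_zero (w := decD j wA) hb h1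
      refine ⟨_, _, h, ?_, ?_⟩
      · rw [h2]
        exact ⟨fun h => Or.inr h, fun h => h.resolve_left fun h' => hx h'.2.1⟩
      · exact bound_le (by omega)
  have hZV : ∀ (j : ℕ) (F : ℕ → ℕ), setA j ∪ setZ g ∈ DTIME κ F → setZ g ∈ DTIME κ F := by
    rintro j F ⟨M, hM, C, hC⟩
    refine ⟨comb (.const 0 0) M, comb_plain trivial hM, C + 100, fun x => ?_⟩
    by_cases hx : x.headI = true
    · have hb : bitAt x 0 = 1 := by rw [bitAt_zero, if_pos hx]
      have hxZ : x ∉ setZ g := fun h => by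
        have := h.2.1
        rw [hx] at this
        exact absurd this (by decide)
      obtain ⟨c', hc', h⟩ := comb_one hb (Runs.const (κ := κ) (x := x) (O := ∅) 0 0
        (Function.update (mem0 x.length) 1 1) [])
      refine ⟨_, _, h M, ?_, ?_⟩
      · rw [decide_eq_true_iff, upd_eq]
        exact iff_of_false (not_not_intro rfl) hxZ
      · rw [upd_eq] at hc'
        have c1 := cost_const_le κ (i := 0) (c := 0) (S := 0)
          (m := Function.update (mem0 x.length) 1 1) (by norm_num) (by simp)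
        have e1 : κ.len 0 ≤ 0 := len_le_of_lt κ (by norm_num)
        nlinarith [Nat.zero_le ((C + 100) * F x.length)]
    · have hb : bitAt x 0 = 0 := by rw [bitAt_zero, if_neg hx]
      obtain ⟨b, c, h1, h2, h3⟩ := hC x
      obtain ⟨c', h, hc'⟩ := comb_zero (w := .const 0 0) hb h1
      refine ⟨_, _, h, ?_, ?_⟩
      · rw [h2]
        exact ⟨fun h => h.resolve_left fun h' => hx h'.2.1, fun h => Or.inr h⟩
      · nlinarith [Nat.zero_le (F x.length)]
  refine ⟨setZ g, hZc, ?_, fun j => setA j ∪ setZ g, ?_, ?_⟩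
  · rintro ⟨k, M, hM, C, hC⟩
    obtain ⟨q, rfl⟩ := exists_prog M
    obtain ⟨N, hN⟩ := exp_bound C k
    obtain ⟨s, hs⟩ : ∃ s, s = max N (q + 2) := ⟨_, rfl⟩
    have h1 := le_tow s
    have h2 := hardZ (B := fun n => C * n ^ k + C) hC (n := tow s) ⟨s, rfl⟩ (by omega)
    have h3 := hN (tow s) (by omega)
    have h4 := hg1 (tow s)
    beta_reduce at h2
    omega
  · intro j hj
    refine ⟨?_, fun F _ h => hZV j F h, fun F hF h => hVZ j hj F (hT1 F hF) h⟩
    obtain ⟨P, hP, C, hC⟩ := hVZ j hj f hf2 hZf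
    refine ⟨P, hP, fun x => ?_⟩
    obtain ⟨b, c, h1, h2, -⟩ := hC x
    exact ⟨b, c, h1, h2⟩
  · intro X hX
    obtain ⟨Q, -, C, hC⟩ := hX f hfT hZf
    obtain ⟨k, hk⟩ := poly_bound (C * Cf + C) 2
    refine no_bound (κ := κ) (Q := Q) (KX := k) (fun x hx => ?_) (fun j _ s y hy => ?_)
    · obtain ⟨b, c, h1, h2, h3⟩ := hC x
      refine ⟨b, c, h1, h2, h3.trans (le_trans ?_ (hk x.length))⟩
      have e1 := hf4 x.length hx
      have e2 : C * f x.length ≤ C * (Cf * x.length ^ 2 + Cf) := Nat.mul_le_mul_left C e1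
      nlinarith [Nat.zero_le (C * x.length ^ 2)]
    · have hyZ : true :: y ∉ setZ g := fun h => by
        have := h.2.1
        exact absurd this (by simp)
      rw [← setA_spec j s y hy]
      exact ⟨fun h => h.resolve_right hyZ, fun h => Or.inl h⟩

/-- For both cost criteria there are two complexity types, neither contained in `P`, such that
the polynomial time Turing degrees of the members of the first one have a greatest element and
those of the second one do not. -/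
theorem main (κ : Criterion) (T : Set (ℕ → ℕ)) (hT1 : ∀ f ∈ T, ∀ n, n ≤ f n)
    (hT2 : ∀ f : ℕ → ℕ, (∀ n, n ≤ f n) → ExactlyConstructible κ f →
      (κ = .uniform → ValueConstructible κ f) → f ∈ T) :
    ∃ C C' : Set (Set Str), IsComplexityType κ T C ∧ IsComplexityType κ T C' ∧
      ¬ C ⊆ PTIME κ ∧ ¬ C' ⊆ PTIME κ ∧
      (∃ d ∈ Dp κ C, ∀ e ∈ Dp κ C, DegLe κ e d) ∧
      ¬ ∃ d ∈ Dp κ C', ∀ e ∈ Dp κ C', DegLe κ e d := by
  obtain ⟨K, hK, hKP, hKtop⟩ := typeA κ T hT2
  obtain ⟨Z, hZ, hZP, V, hV, hVtop⟩ := typeB κ T hT1 hT2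
  have hself : ∀ A : Set Str, A ∈ degp κ A := fun A => ⟨LeTp.refl κ A, LeTp.refl κ A⟩
  refine ⟨{B | B ∈ ComputableSets κ ∧ LeC κ T K B ∧ LeC κ T B K},
    {B | B ∈ ComputableSets κ ∧ LeC κ T Z B ∧ LeC κ T B Z}, ⟨K, hK, rfl⟩, ⟨Z, hZ, rfl⟩,
    fun h => hKP (h ⟨hK, fun _ _ h => h, fun _ _ h => h⟩),
    fun h => hZP (h ⟨hZ, fun _ _ h => h, fun _ _ h => h⟩),
    ⟨degp κ K, ⟨K, ⟨hK, fun _ _ h => h, fun _ _ h => h⟩, rfl⟩, ?_⟩, ?_⟩
  · rintro e ⟨A, ⟨hAc, hA1, hA2⟩, rfl⟩
    exact ⟨A, hself A, K, hself K, hKtop A hA2⟩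
  · rintro ⟨d, ⟨X, ⟨hXc, hX1, hX2⟩, rfl⟩, htop⟩
    refine hVtop X hX2 fun j hj => ?_
    obtain ⟨A', hA', B', hB', hAB⟩ := htop (degp κ (V j)) ⟨V j, hV j hj, rfl⟩
    exact ⟨A', B', hA'.1, hAB, hB'.2⟩

/-- An isomorphism preserves the existence of a greatest element. -/
theorem not_iso {κ : Criterion} {C C' : Set (Set Str)}
    (h : ∃ d ∈ Dp κ C, ∀ e ∈ Dp κ C, DegLe κ e d)
    (h' : ¬ ∃ d ∈ Dp κ C', ∀ e ∈ Dp κ C', DegLe κ e d) : ¬ DpIso κ C C' := by
  rintro ⟨F, hF⟩
  obtain ⟨d, hd, hd'⟩ := h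
  refine h' ⟨(F ⟨d, hd⟩ : Dp κ C'), (F ⟨d, hd⟩).2, fun e he => ?_⟩
  have h1 := (hF (F.symm ⟨e, he⟩) ⟨d, hd⟩).1 (hd' _ (F.symm ⟨e, he⟩).2)
  rw [Equiv.apply_symm_apply] at h1
  exact h1

end Pool.Agent.CTypes
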