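import Mathlib

/-!
Random access machines with a read-only input and an oracle, their running times under the
uniform and the logarithmic cost criterion, time classes, complexity types and polynomial time
Turing degrees.
-/

namespace Pool.Agent.CTypes

/-- Binary strings. -/
abbrev Str : Type := List Bool

/-- The two cost criteria for random access machines. -/
inductive Criterion
  | uniform
  | logarithmic

/-- The length function of a cost criterion: `0` for the uniform criterion and the binary
length of `n` for the logarithmic criterion. -/
def Criterion.len : Criterion → ℕ → ℕ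
  | .uniform, _ => 0
  | .logarithmic, n => Nat.size n

/-- The instructions of a (oracle) random access machine with registers `R_0, R_1, ...`
holding natural numbers, a read-only input `x` and a query string:
`const i c` is `R_i := c`; `add i j k` is `R_i := R_j + R_k`; `sub i j k` is
`R_i := R_j - R_k` (truncated subtraction); `load i j` is `R_i := R_{R_j}`; `store i j` is
`R_{R_i} := R_j`; `read i j` is `R_i := x_{R_j}` (the bit number `R_j` of the input, `0` if
there is none); `jz i l` jumps to instruction `l` if `R_i = 0`; `jmp l` jumps to instruction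
`l`; `write b` appends the bit `b` to the query string; `query i` sets `R_i` to `1` if the query
string is in the oracle and to `0` otherwise, and empties the query string; `halt b` halts with
answer `b`. -/
inductive Instr
  | const (i c : ℕ)
  | add (i j k : ℕ)
  | sub (i j k : ℕ)
  | load (i j : ℕ)
  | store (i j : ℕ)
  | read (i j : ℕ)
  | jz (i l : ℕ)
  | jmp (l : ℕ)
  | write (b : Bool)
  | query (i : ℕ)
  | halt (b : Bool)

/-- Programs are finite lists of instructions. -/
abbrev Prog : Type := List Instr

/-- The configuration of a machine: program counter, contents of the registers, query string. -/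
structure State where
  pc : ℕ
  mem : ℕ → ℕ
  q : Str

/-- Instruction number `n` of a program (outside the program: halt with answer `false`). -/
def fetch (P : Prog) (n : ℕ) : Instr := P.getD n (.halt false)

/-- Bit number `n` of the string `x`, as a number (`0` outside the string). -/
def bitAt (x : Str) (n : ℕ) : ℕ := if x.getD n false = true then 1 else 0

open Classical in
/-- The effect of an instruction, for the oracle `O` and the input `x`. -/
noncomputable def exec (O : Set Str) (x : Str) (s : State) : Instr → State
  | .const i c => ⟨s.pc + 1, Function.update s.mem i c, s.q⟩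
  | .add i j k => ⟨s.pc + 1, Function.update s.mem i (s.mem j + s.mem k), s.q⟩
  | .sub i j k => ⟨s.pc + 1, Function.update s.mem i (s.mem j - s.mem k), s.q⟩
  | .load i j => ⟨s.pc + 1, Function.update s.mem i (s.mem (s.mem j)), s.q⟩
  | .store i j => ⟨s.pc + 1, Function.update s.mem (s.mem i) (s.mem j), s.q⟩
  | .read i j => ⟨s.pc + 1, Function.update s.mem i (bitAt x (s.mem j)), s.q⟩
  | .jz i l => ⟨if s.mem i = 0 then l else s.pc + 1, s.mem, s.q⟩
  | .jmp l => ⟨l, s.mem, s.q⟩
  | .write b => ⟨s.pc + 1, s.mem, s.q ++ [b]⟩
  | .query i => ⟨s.pc + 1, Function.update s.mem i (if s.q ∈ O then 1 else 0), []⟩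
  | .halt _ => s

/-- The cost of executing an instruction when the contents of the registers are `m`: one plus
the sum of the lengths of the numbers involved (which are not counted under the uniform
criterion). -/
def Instr.cost (κ : Criterion) (m : ℕ → ℕ) : Instr → ℕ
  | .const i c => 1 + κ.len i + κ.len c
  | .add i j k => 1 + κ.len i + κ.len j + κ.len k + κ.len (m j) + κ.len (m k)
  | .sub i j k => 1 + κ.len i + κ.len j + κ.len k + κ.len (m j) + κ.len (m k)
  | .load i j => 1 + κ.len i + κ.len j + κ.len (m j) + κ.len (m (m j))
  | .store i j => 1 + κ.len i + κ.len j + κ.len (m i) + κ.len (m j)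
  | .read i j => 1 + κ.len i + κ.len j + κ.len (m j)
  | .jz i _ => 1 + κ.len i + κ.len (m i)
  | .jmp _ => 1
  | .write _ => 1
  | .query i => 1 + κ.len i
  | .halt _ => 0

/-- The initial configuration on input `x`: `R_0` holds the length of `x`, all other registers
hold `0`. -/
def init (x : Str) : State := ⟨0, fun i => if i = 0 then x.length else 0, []⟩

/-- One step of the machine. -/
noncomputable def step (P : Prog) (O : Set Str) (x : Str) (s : State) : State :=
  exec O x s (fetch P s.pc)

/-- The configuration after `t` steps of the machine `P` with oracle `O` on input `x`. -/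
noncomputable def stateAt (P : Prog) (O : Set Str) (x : Str) (t : ℕ) : State :=
  (step P O x)^[t] (init x)

/-- The total cost of the first `t` steps. -/
noncomputable def costUpTo (κ : Criterion) (P : Prog) (O : Set Str) (x : Str) (t : ℕ) : ℕ :=
  ∑ k ∈ Finset.range t, (fetch P (stateAt P O x k).pc).cost κ (stateAt P O x k).mem

/-- The machine `P` with oracle `O` on input `x` halts with answer `b`, and its running time
(under the cost criterion `κ`) is `c`. -/
def Halts (κ : Criterion) (P : Prog) (O : Set Str) (x : Str) (b : Bool) (c : ℕ) : Prop :=
  ∃ t, fetch P (stateAt P O x t).pc = .halt b ∧ costUpTo κ P O x t = c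

/-- The instruction does not refer to the oracle. -/
def Instr.Plain : Instr → Prop
  | .const _ _ => True
  | .add _ _ _ => True
  | .sub _ _ _ => True
  | .load _ _ => True
  | .store _ _ => True
  | .read _ _ => True
  | .jz _ _ => True
  | .jmp _ => True
  | .write _ => False
  | .query _ => False
  | .halt _ => True

/-- A (plain) random access machine: a program without oracle instructions. -/
def Plain (P : Prog) : Prop := ∀ I ∈ P, I.Plain

/-- The machine `P` (with empty oracle) decides the set `A`. -/
def Decides (κ : Criterion) (P : Prog) (A : Set Str) : Prop :=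
  ∀ x, ∃ b c, Halts κ P ∅ x b c ∧ (b = true ↔ x ∈ A)

/-- The class of computable sets: the sets decided by some random access machine. -/
def ComputableSets (κ : Criterion) : Set (Set Str) := {A | ∃ P, Plain P ∧ Decides κ P A}

/-- The class `DTIME(f)` of the sets decided by some random access machine in time
`O(f(n))`. -/
def DTIME (κ : Criterion) (f : ℕ → ℕ) : Set (Set Str) :=
  {A | ∃ P, Plain P ∧ ∃ C : ℕ, ∀ x, ∃ b c, Halts κ P ∅ x b c ∧ (b = true ↔ x ∈ A) ∧
    c ≤ C * f x.length + C}

/-- The class `P` of the sets decidable in polynomial time. -/
def PTIME (κ : Criterion) : Set (Set Str) := {A | ∃ k : ℕ, A ∈ DTIME κ fun n => n ^ k}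

/-- `f` is exactly time-constructible: some random access machine halts on every input of
length `n` after time exactly `f n`. -/
def ExactlyConstructible (κ : Criterion) (f : ℕ → ℕ) : Prop :=
  ∃ P, Plain P ∧ ∀ x, ∃ b, Halts κ P ∅ x b (f x.length)

/-- `f` is time-constructible in the sense that some random access machine computes, on every
input of length `n`, the value `f n` (which is in register `R_0` when the machine halts) in time
`O(f n)`. -/
def ValueConstructible (κ : Criterion) (f : ℕ → ℕ) : Prop :=
  ∃ P, Plain P ∧ ∃ C : ℕ, ∀ x, ∃ t b, fetch P (stateAt P ∅ x t).pc = .halt b ∧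
    (stateAt P ∅ x t).mem 0 = f x.length ∧ costUpTo κ P ∅ x t ≤ C * f x.length + C

/-- `M` is a polynomial time Turing reduction: for some polynomial, `M` halts within that time
for every oracle and every input. -/
def PolyReduction (κ : Criterion) (M : Prog) : Prop :=
  ∃ k : ℕ, ∀ O x, ∃ b c, Halts κ M O x b c ∧ c ≤ x.length ^ k + k

/-- `A ≤_T^p B`: polynomial time Turing reducibility. -/
def LeTp (κ : Criterion) (A B : Set Str) : Prop :=
  ∃ M, PolyReduction κ M ∧ ∀ x, ∃ b c, Halts κ M B x b c ∧ (b = true ↔ x ∈ A)

/-- `A ≤_C B`, where `T` is the set of the time bounds considered. -/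
def LeC (κ : Criterion) (T : Set (ℕ → ℕ)) (A B : Set Str) : Prop :=
  ∀ f ∈ T, B ∈ DTIME κ f → A ∈ DTIME κ f

/-- `C` is a complexity type: an equivalence class of computable sets for `=_C`. -/
def IsComplexityType (κ : Criterion) (T : Set (ℕ → ℕ)) (C : Set (Set Str)) : Prop :=
  ∃ A ∈ ComputableSets κ, C = {B | B ∈ ComputableSets κ ∧ LeC κ T A B ∧ LeC κ T B A}

/-- The polynomial time Turing degree of `A`. -/
def degp (κ : Criterion) (A : Set Str) : Set (Set Str) := {B | LeTp κ A B ∧ LeTp κ B A}

/-- The set `D_p(C)` of the polynomial time Turing degrees of the members of `C`. -/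
def Dp (κ : Criterion) (C : Set (Set Str)) : Set (Set (Set Str)) := {d | ∃ A ∈ C, d = degp κ A}

/-- The order on polynomial time Turing degrees induced from `≤_T^p`. -/
def DegLe (κ : Criterion) (d e : Set (Set Str)) : Prop := ∃ A ∈ d, ∃ B ∈ e, LeTp κ A B

/-- The orders `D_p(C)` and `D_p(C')` are isomorphic. -/
def DpIso (κ : Criterion) (C C' : Set (Set Str)) : Prop :=
  ∃ F : Dp κ C ≃ Dp κ C', ∀ d e : Dp κ C,
    DegLe κ (d : Set (Set Str)) (e : Set (Set Str)) ↔
      DegLe κ (F d : Set (Set Str)) (F e : Set (Set Str))

end Pool.Agent.CTypes
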