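import Pool.Agent.CTypes.Vec

/-! Sets without a common upper bound that is easy off the towers. -/

namespace Pool.Agent.CTypes

theorem LeTp.index {κ : Criterion} {A B : Set Str} (h : LeTp κ A B) :
    ∃ q k : ℕ, ∀ x : Str, ∃ b c, Halts κ (toProg (prog q)) B x b c ∧ (b = true ↔ x ∈ A) ∧
      c ≤ x.length ^ k + k := by
  obtain ⟨M, ⟨k, hk⟩, hM⟩ := h
  obtain ⟨q, rfl⟩ := exists_prog M
  refine ⟨q, k, fun x => ?_⟩
  obtain ⟨b, c, h1, h2⟩ := hk B x
  obtain ⟨b', c', h1', h2'⟩ := hM x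
  obtain ⟨rfl, rfl⟩ := h1.unique h1'
  exact ⟨_, _, h1, h2', h2⟩

theorem pow_mono' {k K x L : ℕ} (hk : k ≤ K) (hx : x ≤ L) (hL : 1 ≤ L) :
    x ^ k + k ≤ L ^ K + K :=
  Nat.add_le_add ((Nat.pow_le_pow_left hx k).trans (Nat.pow_le_pow_right hL hk)) hk

theorem step_pow {K L : ℕ} (hL : K + 2 ≤ L) : L ^ K + K ≤ L ^ (K + 2) := by
  have h1 : 1 ≤ L ^ K := Nat.one_le_pow _ _ (by omega)
  rw [pow_add]
  nlinarith [Nat.mul_le_mul_left (L ^ K) (show 2 * L ≤ L ^ 2 by nlinarith)]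

theorem lev_eq {κ : Criterion} {A B : Set Str} {q k t L : ℕ}
    (h : ∀ x : Str, ∃ b c, Halts κ (toProg (prog q)) B x b c ∧ (b = true ↔ x ∈ A) ∧
      c ≤ x.length ^ k + k) {O : Str → Bool}
    (hO : ∀ y : Str, y.length < L → (O y = true ↔ y ∈ B)) (x : Str)
    (h1 : x.length ^ k + k ≤ L) (h2 : x.length ^ k + k ≤ t) :
    lev (prog q) t O x = true ↔ x ∈ A := by
  obtain ⟨b, c, hb, hb', hc⟩ := h x
  have e1 := hb.fetch_of_le le_rfl
  have e2 := stateAt_congr (P := toProg (prog q)) (x := x) (O := B)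
    (O' := {y | O y = true}) (T := c) (fun y hy => (hO y (by omega)).symm) c le_rfl
  rw [e2] at e1
  obtain ⟨d, rfl⟩ := Nat.exists_eq_add_of_le (hc.trans h2)
  have e3 := stateAt_of_halt e1 d
  have e4 : answer O x (prog q) (c + d) = some b := by
    rw [answer_eq_some, e3, e1]
  unfold lev
  rw [e4, decide_eq_true_iff, ← hb']
  simp

theorem not_D_of_between {s n : ℕ} (h1 : tow s < n) (h2 : n < 2 ^ tow s) : n ∉ D := by
  rintro ⟨t, rfl⟩
  have h3 : s < t := tow_strictMono.lt_iff_lt.1 h1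
  have h4 : tow (s + 1) ≤ tow t := tow_strictMono.monotone h3
  simp only [tow] at h4
  omega

theorem no_bound {κ : Criterion} {X : Set Str} {Q : Prog} {KX : ℕ}
    (hX : ∀ x : Str, x.length ∉ D → ∃ b c, Halts κ Q ∅ x b c ∧ (b = true ↔ x ∈ X) ∧
      c ≤ x.length ^ KX + KX) {A : ℕ → Set Str}
    (hA : ∀ j < 8, ∀ s, ∀ y : Str, y.length + 1 = tow s →
      (true :: y ∈ A j ↔ bitN (vec s) (8 * valS y + j) = true)) :
    ¬ ∀ j < 8, ∃ A' B', LeTp κ (A j) A' ∧ LeTp κ A' B' ∧ LeTp κ B' X := by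
  intro hall
  choose! A' B' hr3 hr2 hr1 using hall
  have hr3' := fun j hj => (hr3 j hj).index
  have hr2' := fun j hj => (hr2 j hj).index
  have hr1' := fun j hj => (hr1 j hj).index
  choose! q3 k3 h3 using hr3'
  choose! q2 k2 h2 using hr2'
  choose! q1 k1 h1 using hr1'
  obtain ⟨qX, rfl⟩ := exists_prog Q
  obtain ⟨K, hK⟩ : ∃ K, K = KX + ∑ j ∈ Finset.range 8, (k1 j + k2 j + k3 j) := ⟨_, rfl⟩
  have hKj : ∀ j < 8, k1 j ≤ K ∧ k2 j ≤ K ∧ k3 j ≤ K := by
    intro j hj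
    have := Finset.single_le_sum (f := fun j => k1 j + k2 j + k3 j) (s := Finset.range 8)
      (fun _ _ => Nat.zero_le _) (Finset.mem_range.2 hj)
    omega
  have hKX : KX ≤ K := by omega
  obtain ⟨N, hN⟩ := exp_bound 1 ((K + 2) * ((K + 2) * ((K + 2) * (K + 2))))
  obtain ⟨s, hs, hpar⟩ := exists_stage (fun i => if i = 24 then qX else if i % 3 = 0 then
    q1 (i / 3) else if i % 3 = 1 then q2 (i / 3) else q3 (i / 3)) 25 (max N (K + 2))
  have hsn := le_tow s
  obtain ⟨n, hn⟩ : ∃ n, n = tow s := ⟨_, rfl⟩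
  have hnN : N ≤ n := by omega
  have hnK : K + 2 ≤ n := by omega
  obtain ⟨t, ht⟩ : ∃ t, t = 2 ^ n - 1 := ⟨_, rfl⟩
  obtain ⟨L2, hL2⟩ : ∃ L, L = n ^ (K + 2) := ⟨_, rfl⟩
  obtain ⟨L1, hL1⟩ : ∃ L, L = L2 ^ (K + 2) := ⟨_, rfl⟩
  obtain ⟨L0, hL0⟩ : ∃ L, L = L1 ^ (K + 2) := ⟨_, rfl⟩
  have g2 : n ≤ L2 := hL2 ▸ Nat.le_self_pow (by omega) n
  have g1 : L2 ≤ L1 := hL1 ▸ Nat.le_self_pow (by omega) L2
  have g0 : L1 ≤ L0 := hL0 ▸ Nat.le_self_pow (by omega) L1
  have gt : L0 ^ (K + 2) ≤ t := by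
    have := hN n hnN
    rw [hL0, hL1, hL2, ← pow_mul, ← pow_mul, ← pow_mul, ht]
    omega
  have g0t : L0 ≤ t := (Nat.le_self_pow (by omega) L0).trans gt
  -- the code of `X` on short strings
  obtain ⟨u, hu, hu'⟩ : ∃ u < 2 ^ 2 ^ (n + 1), ∀ q : Str, q.length ≤ n →
      (bitN u (num q) = true ↔ q ∈ X) := by
    classical
    obtain ⟨u, hu, hu'⟩ := exists_bits (fun i => decide (∃ q ∈ X, num q = i)) (2 ^ (n + 1))
    refine ⟨u, hu, fun q hq => ?_⟩
    rw [hu' _ ((num_lt q).trans_le (Nat.pow_le_pow_right (by norm_num) (by omega))),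
      decide_eq_true_iff]
    constructor
    · rintro ⟨q', hq', he⟩
      rwa [num_injective he] at hq'
    · intro h
      exact ⟨q, h, rfl⟩
  -- the base level
  have base : ∀ q : Str, q.length < L0 → (baseO s u q = true ↔ q ∈ X) := by
    intro q hq
    unfold baseO
    split_ifs with hle
    · exact hu' q (by omega)
    · have hnd : q.length ∉ D := not_D_of_between (s := s) (by omega) (by
        rw [← hn]; omega)
      obtain ⟨b, c, hb, hb', hc⟩ := hX q hnd
      have h24 : par s 24 = qX := by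
        rw [hpar 24 (by omega)]; rfl
      have hct : c ≤ 2 ^ tow s - 1 := by
        rw [← hn, ← ht]
        refine hc.trans ((pow_mono' hKX hq.le (by omega)).trans ((step_pow (by omega)).trans gt))
      rw [h24, hb.U hct, decide_eq_true_iff, ← hb']
      simp
  obtain ⟨y, hy, j, hj, hne⟩ := good_vec s u (List.mem_range.2 (by rw [← hn]; exact hu))
  have hj8 : j < 8 := List.mem_range.1 hj
  have hyl : y.length + 1 = tow s := by
    have h0 := mem_strs.1 hy
    have := tow_pos s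
    omega
  obtain ⟨kk1, kk2, kk3⟩ := hKj j hj8
  have p0 : par s (3 * j) = q1 j := by
    rw [hpar _ (by omega), if_neg (by omega), if_pos (by omega)]
    congr 1; omega
  have p1 : par s (3 * j + 1) = q2 j := by
    rw [hpar _ (by omega), if_neg (by omega), if_neg (by omega), if_pos (by omega)]
    congr 1; omega
  have p2 : par s (3 * j + 2) = q3 j := by
    rw [hpar _ (by omega), if_neg (by omega), if_neg (by omega), if_neg (by omega)]
    congr 1; omega
  have lev1 : ∀ x : Str, x.length < L1 →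
      (lev (prog (q1 j)) t (baseO s u) x = true ↔ x ∈ B' j) := by
    intro x hx
    have e : x.length ^ k1 j + k1 j ≤ L0 :=
      (pow_mono' kk1 hx.le (by omega)).trans (hL0 ▸ step_pow (by omega))
    exact lev_eq (h1 j hj8) base x e (e.trans g0t)
  have lev2 : ∀ x : Str, x.length < L2 →
      (lev (prog (q2 j)) t (lev (prog (q1 j)) t (baseO s u)) x = true ↔ x ∈ A' j) := by
    intro x hx
    have e : x.length ^ k2 j + k2 j ≤ L1 :=
      (pow_mono' kk2 hx.le (by omega)).trans (hL1 ▸ step_pow (by omega))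
    exact lev_eq (h2 j hj8) lev1 x e (by omega)
  have lev3 : lev (prog (q3 j)) t (lev (prog (q2 j)) t (lev (prog (q1 j)) t (baseO s u)))
      (true :: y) = true ↔ true :: y ∈ A j := by
    have e : (true :: y).length ^ k3 j + k3 j ≤ L2 := by
      refine (pow_mono' (L := n) kk3 ?_ (by omega)).trans (hL2 ▸ step_pow (by omega))
      rw [List.length_cons]; omega
    exact lev_eq (h3 j hj8) lev2 _ e (by omega)
  refine hne (Bool.eq_iff_iff.2 ?_)
  rw [← hA j hj8 s y hyl, ← lev3]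
  unfold predO
  rw [p0, p1, p2, ← hn, ← ht]

end Pool.Agent.CTypes
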