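import Pool.Agent.CTypes.Arith

/-! Every partial recursive function is computed by a structured program. -/

namespace Pool.Agent.CTypes

/-- `f` is computed by a structured program: the argument and the value are in `R_0`, and only
finitely many registers are changed. -/
def Cmp (f : ℕ →. ℕ) : Prop :=
  ∃ w : W, w.Pure ∧ ∃ N > 0, ∀ m y, y ∈ f (m 0) →
    ∃ m', R w m m' ∧ m' 0 = y ∧ ∀ i ≥ N, m' i = m i

theorem Cmp.zero : Cmp (pure 0) := by
  refine ⟨.const 0 0, trivial, 1, one_pos, fun m y hy => ⟨_, R.const rfl, ?_, ?_⟩⟩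
  · rw [upd_eq]; exact (Part.mem_some_iff.1 hy).symm
  · intro i hi; exact upd_ne (by omega)

theorem Cmp.succ : Cmp Nat.succ := by
  refine ⟨.seq (.const 1 1) (.add 0 0 1), ⟨trivial, trivial⟩, 2, two_pos, fun m y hy =>
    ⟨_, R.seq (R.const rfl) (R.add rfl), ?_, ?_⟩⟩
  · have : y = m 0 + 1 := Part.mem_some_iff.1 hy
    simp (disch := omega) only [upd_eq, upd_ne]
    exact this.symm
  · intro i hi
    simp (disch := omega) only [upd_ne]

theorem Cmp.left : Cmp fun n : ℕ => n.unpair.1 := by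
  refine ⟨.seq (unpairW 0 1) (mov 0 1), ⟨unpairW_pure _ _, mov_pure _ _⟩, 6, by norm_num,
    fun m y hy => ?_⟩
  obtain ⟨m', h1, h2, h3, h4⟩ := unpairW_spec (a := 0) (p := 1) m (by omega)
  refine ⟨_, R.seq h1 (R.mov (by omega) rfl), ?_, ?_⟩
  · rw [upd_eq, h2]; exact (Part.mem_some_iff.1 hy).symm
  · intro i hi
    rw [upd_ne (by omega), h4 i (by omega)]

theorem Cmp.right : Cmp fun n : ℕ => n.unpair.2 := by
  refine ⟨.seq (unpairW 0 1) (mov 0 2), ⟨unpairW_pure _ _, mov_pure _ _⟩, 6, by norm_num,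
    fun m y hy => ?_⟩
  obtain ⟨m', h1, h2, h3, h4⟩ := unpairW_spec (a := 0) (p := 1) m (by omega)
  refine ⟨_, R.seq h1 (R.mov (by omega) rfl), ?_, ?_⟩
  · rw [upd_eq, h3]; exact (Part.mem_some_iff.1 hy).symm
  · intro i hi
    rw [upd_ne (by omega), h4 i (by omega)]

theorem Cmp.comp {f g : ℕ →. ℕ} (hf : Cmp f) (hg : Cmp g) : Cmp fun n => g n >>= f := by
  obtain ⟨wf, pf, Nf, -, hf⟩ := hf
  obtain ⟨wg, pg, Ng, hNg, hg⟩ := hg
  refine ⟨.seq wg wf, ⟨pg, pf⟩, max Nf Ng, lt_max_of_lt_right hNg, fun m y hy => ?_⟩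
  obtain ⟨z, hz, hy⟩ := Part.mem_bind_iff.1 hy
  obtain ⟨m1, h1, h2, h3⟩ := hg m z hz
  obtain ⟨m2, h4, h5, h6⟩ := hf m1 y (by rw [h2]; exact hy)
  refine ⟨m2, R.seq h1 h4, h5, fun i hi => ?_⟩
  rw [h6 i (by omega), h3 i (by omega)]

theorem Cmp.pair {f g : ℕ →. ℕ} (hf : Cmp f) (hg : Cmp g) :
    Cmp fun n => Nat.pair <$> f n <*> g n := by
  obtain ⟨wf, pf, Nf, hNf, hf⟩ := hf
  obtain ⟨wg, pg, Ng, hNg, hg⟩ := hg
  obtain ⟨N, hN⟩ : ∃ N, N = max Nf Ng := ⟨_, rfl⟩
  refine ⟨.seq (mov N 0) (.seq wf (.seq (mov (N + 1) 0) (.seq (mov 0 N) (.seq wg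
    (.seq (pairW (N + 2) (N + 1) 0 (N + 3)) (mov 0 (N + 2))))))),
    ⟨mov_pure _ _, pf, mov_pure _ _, mov_pure _ _, pg, pairW_pure _ _ _ _, mov_pure _ _⟩,
    N + 6, by omega, fun m y hy => ?_⟩
  obtain ⟨a, ha, b, hb, rfl⟩ : ∃ a ∈ f (m 0), ∃ b ∈ g (m 0), Nat.pair a b = y := by
    simpa [Seq.seq] using hy
  -- save the argument
  let m1 := Function.update m N (m 0)
  obtain ⟨m2, r2, v2, u2⟩ := hf m1 a (by
    have : m1 0 = m 0 := upd_ne (by omega)
    rw [this]; exact ha)
  let m3 := Function.update m2 (N + 1) (m2 0)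
  let m4 := Function.update m3 0 (m3 N)
  have e4 : m4 0 = m 0 := by
    simp only [m4, m3]
    rw [upd_eq, upd_ne (by omega), u2 N (by omega)]
    exact upd_eq
  obtain ⟨m5, r5, v5, u5⟩ := hg m4 b (by rw [e4]; exact hb)
  have e5 : m5 (N + 1) = a := by
    rw [u5 (N + 1) (by omega)]
    simp only [m4, m3]
    rw [upd_ne (by omega), upd_eq, v2]
  obtain ⟨m6, r6, v6, u6⟩ := pairW_spec (r := N + 2) (a := N + 1) (b := 0) (t := N + 3) m5
    (by omega) (by omega) (by omega) (by omega) (by omega)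
  refine ⟨_, R.seq (R.mov (by omega) rfl) (R.seq r2 (R.seq (R.mov (by omega) rfl)
    (R.seq (R.mov (by omega) rfl) (R.seq r5 (R.seq r6 (R.mov (by omega) rfl)))))), ?_, ?_⟩
  · rw [upd_eq, v6, e5, v5]
  · intro i hi
    rw [upd_ne (by omega), u6 i (by omega) (by omega), u5 i (by omega)]
    simp only [m4, m3]
    rw [upd_ne (by omega), upd_ne (by omega), u2 i (by omega)]
    exact upd_ne (by omega)

theorem Cmp.prec {f g : ℕ →. ℕ} (hf : Cmp f) (hg : Cmp g) :
    Cmp (Nat.unpaired fun a n =>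
      n.rec (f a) fun y IH => do let i ← IH; g (Nat.pair a (Nat.pair y i))) := by
  obtain ⟨wf, pf, Nf, hNf, hf⟩ := hf
  obtain ⟨wg, pg, Ng, hNg, hg⟩ := hg
  obtain ⟨N, hN⟩ : ∃ N, N = max Nf Ng := ⟨_, rfl⟩
  -- registers: `N + 1` holds `a`, `N + 2` the counter, `N + 6` holds `y`, `N + 7` holds `1`
  refine ⟨.seq (unpairW 0 (N + 1)) (.seq (.const (N + 6) 0) (.seq (.const (N + 7) 1)
    (.seq (mov 0 (N + 1)) (.seq wf (.loop (N + 2)
      (.seq (pairW (N + 8) (N + 6) 0 (N + 10)) (.seq (pairW (N + 9) (N + 1) (N + 8) (N + 10))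
        (.seq (mov 0 (N + 9)) (.seq wg (.seq (.add (N + 6) (N + 6) (N + 7))
          (.sub (N + 2) (N + 2) (N + 7)))))))))))),
    ⟨unpairW_pure _ _, trivial, trivial, mov_pure _ _, pf, pairW_pure _ _ _ _, pairW_pure _ _ _ _,
      mov_pure _ _, pg, trivial, trivial⟩, N + 13, by omega, fun m y hy => ?_⟩
  obtain ⟨m1, r1, v1, v1', u1⟩ := unpairW_spec (a := 0) (p := N + 1) m (by omega)
  rw [Nat.unpaired] at hy
  generalize (m 0).unpair.1 = a at *
  generalize (m 0).unpair.2 = n at *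
  -- values of the recursion
  have hex : ∀ k ≤ n, ∃ v, v ∈ (Nat.rec (f a) (fun y IH => do
      let i ← IH; g (Nat.pair a (Nat.pair y i))) k : Part ℕ) := by
    intro k hk
    obtain ⟨d, rfl⟩ := Nat.exists_eq_add_of_le hk
    clear hk r1 v1 v1' u1
    induction d generalizing y with
    | zero => exact ⟨y, hy⟩
    | succ d ih =>
      obtain ⟨z, hz, -⟩ := Part.mem_bind_iff.1 hy
      exact ih z hz
  choose! v hv using hex
  have hv0 : v 0 ∈ f a := hv 0 (Nat.zero_le _)
  have hvs : ∀ k < n, v (k + 1) ∈ g (Nat.pair a (Nat.pair k (v k))) := by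
    intro k hk
    obtain ⟨z, hz, hz'⟩ := Part.mem_bind_iff.1 (hv (k + 1) hk)
    rwa [Part.mem_unique hz (hv k hk.le)] at hz'
  have hvn : y = v n := Part.mem_unique hy (hv n le_rfl)
  let m2 := Function.update m1 (N + 6) 0
  let m3 := Function.update m2 (N + 7) 1
  let m4 := Function.update m3 0 (m3 (N + 1))
  have e4 : m4 0 = a := by
    simp only [m4, m3, m2]
    simp (disch := omega) only [upd_eq, upd_ne, v1]
  obtain ⟨m5, r5, v5, u5⟩ := hf m4 (v 0) (by rw [e4]; exact hv0)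
  obtain ⟨m6, r6, i6⟩ := R.loop_inv (i := N + 2)
    (body := (.seq (pairW (N + 8) (N + 6) 0 (N + 10)) (.seq (pairW (N + 9) (N + 1) (N + 8) (N + 10))
        (.seq (mov 0 (N + 9)) (.seq wg (.seq (.add (N + 6) (N + 6) (N + 7))
          (.sub (N + 2) (N + 2) (N + 7))))))))
    (fun k μ => μ 0 = v k ∧ μ (N + 1) = a ∧ μ (N + 2) = n - k ∧ μ (N + 6) = k ∧ μ (N + 7) = 1 ∧
      ∀ i ≥ N + 13, μ i = m i) n
    (by
      rintro k hk μ ⟨e0, e1, e2, e6, e7, e8⟩
      refine ⟨by omega, ?_⟩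
      obtain ⟨μ1, s1, w1, t1⟩ := pairW_spec (r := N + 8) (a := N + 6) (b := 0) (t := N + 10) μ
        (by omega) (by omega) (by omega) (by omega) (by omega)
      obtain ⟨μ2, s2, w2, t2⟩ := pairW_spec (r := N + 9) (a := N + 1) (b := N + 8) (t := N + 10) μ1
        (by omega) (by omega) (by omega) (by omega) (by omega)
      rw [e6, e0] at w1
      rw [w1, t1 (N + 1) (by omega) (by omega), e1] at w2
      obtain ⟨μ4, s4, w4, t4⟩ := hg (Function.update μ2 0 (μ2 (N + 9))) (v (k + 1)) (by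
        rw [upd_eq, w2]; exact hvs k hk)
      refine ⟨_, R.seq s1 (R.seq s2 (R.seq (R.mov (by omega) rfl) (R.seq s4
        (R.seq (R.add rfl) (R.sub rfl))))), ?_, ?_, ?_, ?_, ?_, ?_⟩
      · rw [upd_ne (by omega), upd_ne (by omega), w4]
      · rw [upd_ne (by omega), upd_ne (by omega), t4 _ (by omega), upd_ne (by omega),
          t2 _ (by omega) (by omega), t1 _ (by omega) (by omega), e1]
      · rw [upd_eq, upd_ne (by omega), upd_ne (by omega), t4 _ (by omega), t4 _ (by omega),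
          upd_ne (by omega), upd_ne (by omega), t2 _ (by omega) (by omega),
          t2 _ (by omega) (by omega), t1 _ (by omega) (by omega), t1 _ (by omega) (by omega),
          e2, e7]
        omega
      · rw [upd_ne (by omega), upd_eq, t4 _ (by omega), t4 _ (by omega),
          upd_ne (by omega), upd_ne (by omega), t2 _ (by omega) (by omega),
          t2 _ (by omega) (by omega), t1 _ (by omega) (by omega), t1 _ (by omega) (by omega),
          e6, e7]
      · rw [upd_ne (by omega), upd_ne (by omega), t4 _ (by omega),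
          upd_ne (by omega), t2 _ (by omega) (by omega), t1 _ (by omega) (by omega), e7]
      · intro i hi
        rw [upd_ne (by omega), upd_ne (by omega), t4 _ (by omega),
          upd_ne (by omega), t2 _ (by omega) (by omega), t1 _ (by omega) (by omega), e8 i hi])
    (by
      rintro μ ⟨-, -, e2, -⟩
      omega)
    m5 (by
      refine ⟨v5, ?_, ?_, ?_, ?_, ?_⟩
      · rw [u5 _ (by omega)]
        simp only [m4, m3, m2]
        simp (disch := omega) only [upd_ne, v1]
      · rw [u5 _ (by omega)]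
        simp only [m4, m3, m2]
        simp (disch := omega) only [upd_ne]
        exact v1'
      · rw [u5 _ (by omega)]
        simp only [m4, m3, m2]
        simp (disch := omega) only [upd_ne, upd_eq]
      · rw [u5 _ (by omega)]
        simp only [m4, m3, m2]
        simp (disch := omega) only [upd_ne, upd_eq]
      · intro i hi
        rw [u5 _ (by omega)]
        simp only [m4, m3, m2]
        simp (disch := omega) only [upd_ne, u1])
  refine ⟨m6, R.seq r1 (R.seq (R.const rfl) (R.seq (R.const rfl) (R.seq (R.mov (by omega) rfl)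
    (R.seq r5 r6)))), ?_, i6.2.2.2.2.2⟩
  rw [i6.1, hvn]

theorem Cmp.rfind {f : ℕ →. ℕ} (hf : Cmp f) :
    Cmp fun a => Nat.rfind fun n => (fun m => m = 0) <$> f (Nat.pair a n) := by
  obtain ⟨wf, pf, N, hN, hf⟩ := hf
  -- registers: `N` holds `a`, `N + 1` holds `n`, `N + 2` the flag, `N + 3` holds `1`
  refine ⟨.seq (mov N 0) (.seq (.const (N + 1) 0) (.seq (.const (N + 3) 1)
    (.seq (.const (N + 2) 1) (.seq (.loop (N + 2)
      (.seq (pairW (N + 4) N (N + 1) (N + 5)) (.seq (mov 0 (N + 4)) (.seq wf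
        (.seq (mov (N + 2) 0) (.ite (N + 2) .skip (.add (N + 1) (N + 1) (N + 3))))))))
      (mov 0 (N + 1)))))),
    ⟨mov_pure _ _, trivial, trivial, trivial, ⟨pairW_pure _ _ _ _, mov_pure _ _, pf, mov_pure _ _,
      trivial, trivial⟩, mov_pure _ _⟩, N + 8, by omega, fun m y hy => ?_⟩
  obtain ⟨a, ha⟩ : ∃ a, a = m 0 := ⟨_, rfl⟩
  rw [← ha] at hy
  obtain ⟨hy1, hy2⟩ := Nat.mem_rfind.1 hy
  have hy1' : 0 ∈ f (Nat.pair a y) := by
    obtain ⟨z, hz, hz'⟩ := (Part.mem_map_iff _).1 hy1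
    have : z = 0 := by simpa using hz'
    rwa [this] at hz
  have hex : ∀ k < y, ∃ v, v ≠ 0 ∧ v ∈ f (Nat.pair a k) := by
    intro k hk
    obtain ⟨z, hz, hz'⟩ := (Part.mem_map_iff _).1 (hy2 hk)
    exact ⟨z, by simpa using hz', hz⟩
  choose! v hv0 hv using hex
  let m1 := Function.update m N (m 0)
  let m2 := Function.update m1 (N + 1) 0
  let m3 := Function.update m2 (N + 3) 1
  let m4 := Function.update m3 (N + 2) 1
  -- one round of the body
  have body : ∀ k z μ, z ∈ f (Nat.pair a k) → μ N = a → μ (N + 1) = k → μ (N + 3) = 1 →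
      ∃ μ', R (.seq (pairW (N + 4) N (N + 1) (N + 5)) (.seq (mov 0 (N + 4)) (.seq wf
        (.seq (mov (N + 2) 0) (.ite (N + 2) .skip (.add (N + 1) (N + 1) (N + 3))))))) μ μ' ∧
        μ' N = a ∧ μ' (N + 1) = (if z = 0 then k else k + 1) ∧ μ' (N + 2) = z ∧ μ' (N + 3) = 1 ∧
        ∀ i ≥ N + 8, μ' i = μ i := by
    intro k z μ hz e0 e1 e3
    obtain ⟨μ1, s1, w1, t1⟩ := pairW_spec (r := N + 4) (a := N) (b := N + 1) (t := N + 5) μ
        (by omega) (by omega) (by omega) (by omega) (by omega)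
    rw [e0, e1] at w1
    obtain ⟨μ3, s3, w3, t3⟩ := hf (Function.update μ1 0 (μ1 (N + 4))) z (by
      rw [upd_eq, w1]; exact hz)
    by_cases hz0 : z = 0
    · rw [if_pos hz0]
      refine ⟨_, R.seq s1 (R.seq (R.mov (by omega) rfl) (R.seq s3 (R.seq (R.mov (by omega) rfl)
        (R.ite_zero (by rw [upd_eq, w3, hz0]) (R.skip _))))), ?_, ?_, ?_, ?_, ?_⟩
      · rw [upd_ne (by omega), t3 _ (by omega), upd_ne (by omega), t1 _ (by omega) (by omega), e0]
      · rw [upd_ne (by omega), t3 _ (by omega), upd_ne (by omega), t1 _ (by omega) (by omega), e1]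
      · rw [upd_eq, w3]
      · rw [upd_ne (by omega), t3 _ (by omega), upd_ne (by omega), t1 _ (by omega) (by omega), e3]
      · intro i hi
        rw [upd_ne (by omega), t3 _ (by omega), upd_ne (by omega), t1 _ (by omega) (by omega)]
    · rw [if_neg hz0]
      refine ⟨_, R.seq s1 (R.seq (R.mov (by omega) rfl) (R.seq s3 (R.seq (R.mov (by omega) rfl)
        (R.ite_pos (by rw [upd_eq, w3]; exact hz0) (R.add rfl))))), ?_, ?_, ?_, ?_, ?_⟩
      · rw [upd_ne (by omega), upd_ne (by omega), t3 _ (by omega), upd_ne (by omega),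
          t1 _ (by omega) (by omega), e0]
      · rw [upd_eq, upd_ne (by omega), upd_ne (by omega), t3 _ (by omega), t3 _ (by omega),
          upd_ne (by omega), upd_ne (by omega), t1 _ (by omega) (by omega),
          t1 _ (by omega) (by omega), e1, e3]
      · rw [upd_ne (by omega), upd_eq, w3]
      · rw [upd_ne (by omega), upd_ne (by omega), t3 _ (by omega), upd_ne (by omega),
          t1 _ (by omega) (by omega), e3]
      · intro i hi
        rw [upd_ne (by omega), upd_ne (by omega), t3 _ (by omega), upd_ne (by omega),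
          t1 _ (by omega) (by omega)]
  obtain ⟨m5, r5, i5⟩ := R.loop_inv (i := N + 2)
    (body := .seq (pairW (N + 4) N (N + 1) (N + 5)) (.seq (mov 0 (N + 4)) (.seq wf
        (.seq (mov (N + 2) 0) (.ite (N + 2) .skip (.add (N + 1) (N + 1) (N + 3)))))))
    (fun k μ => μ N = a ∧ μ (N + 1) = min k y ∧ (μ (N + 2) = 0 ↔ k = y + 1) ∧ μ (N + 3) = 1 ∧
      ∀ i ≥ N + 8, μ i = m i) (y + 1)
    (by
      rintro k hk μ ⟨e0, e1, e2, e3, e4⟩
      refine ⟨fun h => by have := e2.1 h; omega, ?_⟩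
      rcases Nat.lt_succ_iff_lt_or_eq.1 hk with hk' | rfl
      · obtain ⟨μ', g0, g1, g2, g3, g4, g5⟩ := body k (v k) μ (hv k hk') e0
          (by rw [e1]; omega) e3
        refine ⟨μ', g0, g1, ?_, ?_, g4, fun i hi => by rw [g5 i hi, e4 i hi]⟩
        · rw [g2, if_neg (hv0 k hk')]; omega
        · rw [g3]
          exact iff_of_false (hv0 k hk') (by omega)
      · obtain ⟨μ', g0, g1, g2, g3, g4, g5⟩ := body k 0 μ hy1' e0
          (by rw [e1]; omega) e3
        refine ⟨μ', g0, g1, ?_, ?_, g4, fun i hi => by rw [g5 i hi, e4 i hi]⟩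
        · rw [g2, if_pos rfl]; omega
        · rw [g3]; simp)
    (by
      rintro μ ⟨-, -, e2, -⟩
      exact e2.2 rfl)
    m4 (by
      refine ⟨?_, ?_, ?_, ?_, ?_⟩
      · simp only [m4, m3, m2, m1]
        simp (disch := omega) only [upd_ne, upd_eq, ha]
      · simp only [m4, m3, m2, m1]
        simp (disch := omega) only [upd_ne, upd_eq]
        omega
      · simp only [m4]
        rw [upd_eq]
        omega
      · simp only [m4, m3, m2, m1]
        simp (disch := omega) only [upd_ne, upd_eq]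
      · intro i hi
        simp only [m4, m3, m2, m1]
        simp (disch := omega) only [upd_ne])
  refine ⟨_, R.seq (R.mov (by omega) rfl) (R.seq (R.const rfl) (R.seq (R.const rfl)
    (R.seq (R.const rfl) (R.seq r5 (R.mov (by omega) rfl))))), ?_, ?_⟩
  · rw [upd_eq, i5.2.1]; omega
  · intro i hi
    rw [upd_ne (by omega), i5.2.2.2.2 i (by omega)]

/-- Every partial recursive function is computed by a structured program. -/
theorem cmp_of_partrec {f : ℕ →. ℕ} (hf : Nat.Partrec f) : Cmp f := by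
  induction hf with
  | zero => exact Cmp.zero
  | succ => exact Cmp.succ
  | left => exact Cmp.left
  | right => exact Cmp.right
  | pair _ _ hf hg => exact hf.pair hg
  | comp _ _ hf hg => exact hf.comp hg
  | prec _ _ hf hg => exact hf.prec hg
  | rfind _ hf => exact hf.rfind

end Pool.Agent.CTypes
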