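import Pool.Agent.CTypes.Basic

/-! Reading the input, and deciders for computable sets. -/

namespace Pool.Agent.CTypes

/-- `w` leads from memory `m` to memory `m'` on input `x`, whatever the cost criterion and the
oracle. -/
def Rx (x : Str) (w : W) (m m' : ℕ → ℕ) : Prop := ∀ κ O q, ∃ c, Runs κ x O w m q m' q c

theorem R.rx {w m m'} (h : R w m m') (x : Str) : Rx x w m m' := fun κ O q => h κ x O q

theorem Rx.seq {x a b m m₁ m₂} (h : Rx x a m m₁) (h' : Rx x b m₁ m₂) :
    Rx x (.seq a b) m m₂ := by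
  intro κ O q
  obtain ⟨c, hc⟩ := h κ O q
  obtain ⟨c', hc'⟩ := h' κ O q
  exact ⟨_, hc.seq hc'⟩

theorem Rx.read {x i j m m'} (h : m' = Function.update m i (bitAt x (m j))) :
    Rx x (.read i j) m m' := by
  subst h; exact fun κ O q => ⟨_, Runs.read i j m q⟩

theorem Rx.ite_zero {x i a b m m'} (hm : m i = 0) (h : Rx x a m m') : Rx x (.ite i a b) m m' := by
  intro κ O q
  obtain ⟨c, hc⟩ := h κ O q
  exact ⟨_, Runs.ite_zero hm hc⟩

theorem Rx.ite_pos {x i a b m m'} (hm : m i ≠ 0) (h : Rx x b m m') : Rx x (.ite i a b) m m' := by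
  intro κ O q
  obtain ⟨c, hc⟩ := h κ O q
  exact ⟨_, Runs.ite_pos hm hc⟩

theorem Rx.loop_inv {x : Str} {i : ℕ} {body : W} (Inv : ℕ → (ℕ → ℕ) → Prop) (n : ℕ)
    (h : ∀ k < n, ∀ m, Inv k m → m i ≠ 0 ∧ ∃ m', Rx x body m m' ∧ Inv (k + 1) m')
    (hn : ∀ m, Inv n m → m i = 0) :
    ∀ m, Inv 0 m → ∃ m', Rx x (.loop i body) m m' ∧ Inv n m' := by
  have key : ∀ d k, k + d = n → ∀ m, Inv k m → ∃ m', Rx x (.loop i body) m m' ∧ Inv n m' := by
    intro d
    induction d with
    | zero =>
      intro k hk m hm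
      have : k = n := by omega
      subst this
      exact ⟨m, fun κ O q => ⟨_, Runs.loop_zero (hn m hm)⟩, hm⟩
    | succ d ih =>
      intro k hk m hm
      obtain ⟨h1, m', h2, h3⟩ := h k (by omega) m hm
      obtain ⟨m'', h4, h5⟩ := ih (k + 1) (by omega) m' h3
      refine ⟨m'', fun κ O q => ?_, h5⟩
      obtain ⟨c, hc⟩ := h2 κ O q
      obtain ⟨c', hc'⟩ := h4 κ O q
      exact ⟨_, Runs.loop_pos h1 hc hc'⟩
  exact fun m hm => key n 0 (by omega) m hm

/-- With `R_0` the length of the input, set `R_0` to the code of the input. -/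
def readW : W :=
  .seq (.const 1 0) (.seq (.const 3 1) (.seq
    (.loop 0 (.seq (.sub 0 0 3) (.seq (.read 2 0) (.seq (pairW 4 2 1 5) (.add 1 4 3)))))
    (mov 0 1)))

theorem readW_plain : readW.Plain :=
  ⟨trivial, trivial, ⟨trivial, trivial, (pairW_pure _ _ _ _).plain, trivial⟩,
    (mov_pure _ _).plain⟩

theorem encode_bool (b : Bool) : Encodable.encode b = if b = true then 1 else 0 := by
  cases b <;> rfl

theorem readW_spec (x : Str) (m : ℕ → ℕ) (h0 : m 0 = x.length) :
    ∃ m', Rx x readW m m' ∧ m' 0 = Encodable.encode x ∧ ∀ i ≥ 8, m' i = m i := by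
  obtain ⟨m', h1, h2⟩ := Rx.loop_inv (x := x) (i := 0)
    (body := .seq (.sub 0 0 3) (.seq (.read 2 0) (.seq (pairW 4 2 1 5) (.add 1 4 3))))
    (fun k μ => μ 0 = x.length - k ∧ μ 1 = Encodable.encode (x.drop (x.length - k)) ∧ μ 3 = 1 ∧
      ∀ i ≥ 8, μ i = m i) x.length
    (by
      rintro k hk μ ⟨e0, e1, e3, e4⟩
      refine ⟨by omega, ?_⟩
      let μ1 := Function.update μ 0 (μ 0 - μ 3)
      let μ2 := Function.update μ1 2 (bitAt x (μ1 0))
      obtain ⟨μ3, s3, v3, u3⟩ := pairW_spec (r := 4) (a := 2) (b := 1) (t := 5) μ2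
        (by omega) (by omega) (by omega) (by omega) (by omega)
      have f0 : μ1 0 = x.length - (k + 1) := by
        simp only [μ1]; rw [upd_eq, e0, e3]; omega
      have f2 : μ2 2 = bitAt x (x.length - (k + 1)) := by
        simp only [μ2]; rw [upd_eq, f0]
      have f1 : μ2 1 = Encodable.encode (x.drop (x.length - k)) := by
        simp only [μ2, μ1]; rw [upd_ne (by omega), upd_ne (by omega), e1]
      refine ⟨_, (R.sub rfl).rx x |>.seq ((Rx.read rfl).seq ((s3.rx x).seq ((R.add rfl).rx x))),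
        ?_, ?_, ?_, ?_⟩
      · rw [upd_ne (by omega), u3 0 (by omega) (by omega)]
        simp only [μ2]
        rw [upd_ne (by omega), f0]
      · rw [upd_eq, v3, u3 3 (by omega) (by omega), f1, f2]
        simp only [μ2, μ1]
        rw [upd_ne (by omega), upd_ne (by omega), e3]
        have hlt : x.length - (k + 1) < x.length := by omega
        have hd : x.drop (x.length - (k + 1)) =
            x[x.length - (k + 1)] :: x.drop (x.length - k) := by
          rw [List.drop_eq_getElem_cons hlt]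
          congr 2
          omega
        rw [hd, Encodable.encode_list_cons, encode_bool, bitAt, List.getD_eq_getElem _ _ hlt]
      · rw [upd_ne (by omega), u3 3 (by omega) (by omega)]
        simp only [μ2, μ1]
        rw [upd_ne (by omega), upd_ne (by omega), e3]
      · intro i hi
        rw [upd_ne (by omega), u3 i (by omega) (by omega)]
        simp only [μ2, μ1]
        rw [upd_ne (by omega), upd_ne (by omega), e4 i hi])
    (by
      rintro μ ⟨e0, -⟩
      omega)
    (Function.update (Function.update m 1 0) 3 1) (by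
      refine ⟨?_, ?_, ?_, ?_⟩
      · rw [upd_ne (by omega), upd_ne (by omega), h0]; rfl
      · rw [upd_ne (by omega), upd_eq]
        simp
      · rw [upd_eq]
      · intro i hi
        rw [upd_ne (by omega), upd_ne (by omega)])
  refine ⟨_, (R.const rfl).rx x |>.seq (((R.const rfl).rx x).seq (h1.seq
    ((R.mov (by omega) rfl).rx x))), ?_, ?_⟩
  · rw [upd_eq, h2.2.1]
    simp
  · intro i hi
    rw [upd_ne (by omega), h2.2.2.2 i hi]

end Pool.Agent.CTypes
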