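import Pool.Agent.CTypes.TypeB

/-! The sets generating the second complexity type. -/

namespace Pool.Agent.CTypes

open Primrec

/-- The sets whose members start with a one. -/
def setA (j : ℕ) : Set Str :=
  {x | x.length ∈ D ∧ x.headI = true ∧
    bitN (vec (tinv x.length)) (8 * valS x.tail + j) = true}

/-- The function deciding `setA j` on lengths that are towers. -/
noncomputable def afun (p : ℕ) : ℕ :=
  if (strOf p.unpair.2).headI = true ∧ bitN (vec (tinv (strOf p.unpair.2).length))
    (8 * valS (strOf p.unpair.2).tail + p.unpair.1) = true then 1 else 0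

theorem prim_afun : Primrec afun := by
  have h1 : Primrec fun p : ℕ => p.unpair.1 := fst.comp Primrec.unpair
  have h2 : Primrec fun p : ℕ => strOf p.unpair.2 := prim_strOf.comp (snd.comp Primrec.unpair)
  unfold afun
  refine Primrec.ite (PrimrecPred.and (Primrec.eq.comp (Primrec.list_headI.comp h2)
    (const true)) (Primrec.eq.comp (prim_bitN (prim_vec.comp (prim_tinv.comp
      (Primrec.list_length.comp h2))) (prim_add (prim_mul (const 8) (prim_valS.comp
        (Primrec.list_tail.comp h2))) h1)) (const true))) (const 1) (const 0)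

theorem exists_wA : ∃ w : W, w.Plain ∧ ∀ (j : ℕ) (x : Str) (m : ℕ → ℕ), m 0 = x.length →
    ∃ m', Rx x (.seq (.const 8 j) w) m m' ∧
      m' 0 = afun (Nat.pair j (Encodable.encode x)) := by
  obtain ⟨w, h1, h2⟩ := exists_decider (Partrec.nat_iff.1 prim_afun.to_comp.partrec)
  exact ⟨w, h1, fun j x m hm => h2 j x _ (Part.mem_some _) m hm⟩

theorem afun_iff {j : ℕ} {x : Str} (hx : x.length ∈ D) :
    afun (Nat.pair j (Encodable.encode x)) ≠ 0 ↔ x ∈ setA j := by
  unfold afun setA
  rw [Nat.unpair_pair, strOf_encode]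
  simp only [Set.mem_ofPred_eq]
  split_ifs with h
  · exact iff_of_true one_ne_zero ⟨hx, h⟩
  · exact iff_of_false (not_not_intro rfl) fun h' => h h'.2

theorem setA_spec (j s : ℕ) (y : Str) (hy : y.length + 1 = tow s) :
    true :: y ∈ setA j ↔ bitN (vec s) (8 * valS y + j) = true := by
  unfold setA
  have h : (true :: y).length = tow s := by rw [List.length_cons, hy]
  simp only [Set.mem_ofPred_eq]
  rw [h, tinv_tow]
  constructor
  · rintro ⟨-, -, h3⟩
    exact h3
  · intro h3
    exact ⟨⟨s, rfl⟩, rfl, h3⟩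

theorem bitAt_zero (x : Str) : bitAt x 0 = if x.headI = true then 1 else 0 := by
  cases x <;> rfl

theorem halts_nil (κ : Criterion) (O : Set Str) (x : Str) : Halts κ [] O x false 0 :=
  ⟨0, rfl, rfl⟩

/-- The machine deciding `setA j`. -/
def machA (w : W) (j : ℕ) : Prog := comb (decD j w) []

theorem machA_halts {w : W} (hw : ∀ (j : ℕ) (x : Str) (m : ℕ → ℕ), m 0 = x.length →
    ∃ m', Rx x (.seq (.const 8 j) w) m m' ∧ m' 0 = afun (Nat.pair j (Encodable.encode x)))
    (κ : Criterion) (j : ℕ) (x : Str) : ∃ c, ∃ b, Halts κ (machA w j) ∅ x b c := by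
  by_cases hx : x.headI = true
  · have hb : bitAt x 0 = 1 := by rw [bitAt_zero, if_pos hx]
    have hm : (Function.update (mem0 x.length) 1 1) 0 = x.length := by
      rw [upd_ne (by omega), mem0_zero]
    by_cases hD : x.length ∈ D
    · obtain ⟨m', c, r, -⟩ := decD_in (j := j) (hw j x) κ ∅ [] hm (by rw [hm]; exact hD)
      obtain ⟨c', -, h⟩ := comb_one hb r
      exact ⟨_, _, h []⟩
    · obtain ⟨m', c, r, -⟩ := decD_out (j := j) (w := w) κ x ∅ []
        (m := Function.update (mem0 x.length) 1 1) (by rw [hm]; exact hD)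
      obtain ⟨c', -, h⟩ := comb_one hb r
      exact ⟨_, _, h []⟩
  · have hb : bitAt x 0 = 0 := by rw [bitAt_zero, if_neg hx]
    obtain ⟨c', h, -⟩ := comb_zero (w := decD j w) hb (halts_nil κ ∅ x)
    exact ⟨_, _, h⟩

/-- Computable bounds for the total costs of a machine. -/
theorem exists_total {κ : Criterion} {P : Prog} (hP : ∀ x, ∃ c, ∃ b, Halts κ P ∅ x b c) :
    ∃ G : ℕ → ℕ, Computable G ∧ ∀ x b c, Halts κ P ∅ x b c → c ≤ G x.length := by
  choose cost hcost using hP
  have hP' : toProg (fromProg P) = P := toProg_fromProg P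
  have key : ∀ n, ∃ y ∈ totP κ (fromProg P) n, ∀ z : Str, z.length = n → cost z ≤ y := fun n =>
    totP_spec (fun z _ => by rw [hP']; exact hcost z)
  choose G hG hG' using key
  refine ⟨G, ?_, fun x b c h => ?_⟩
  · have h : Partrec fun n => totP κ (fromProg P) n := partrec_totP κ (const _) Primrec.id
    exact h.of_eq fun n => Part.eq_some_iff.2 (hG n)
  · obtain ⟨b', hb'⟩ := hcost x
    rw [(h.unique hb').2]
    exact hG' _ x rfl

theorem computable_sum {G : ℕ → ℕ → ℕ} (hG : ∀ j, Computable (G j)) (k : ℕ) :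
    Computable fun n => ∑ j ∈ Finset.range k, G j n := by
  induction k with
  | zero => exact (Computable.const 0).of_eq fun n => by simp
  | succ k ih =>
    have h : Computable fun n => (∑ j ∈ Finset.range k, G j n) + G k n :=
      Primrec.nat_add.to_comp.comp ih (hG k)
    exact h.of_eq fun n => by rw [Finset.sum_range_succ]

theorem computable_two_pow : Computable fun n : ℕ => 2 ^ n :=
  (prim_pow (const 2) Primrec.id).to_comp

/-- The set `Z`, for the bound `g`. -/
def setZ (g : ℕ → ℕ) : Set Str :=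
  {x | x.length ∈ D ∧ x.headI = false ∧
    U (prog (lead x.tail)) x (g x.length) ≠ some true}

/-- The function deciding `setZ g` on lengths that are towers. -/
def zaux (x : Str) (t : ℕ) : ℕ :=
  if x.headI = true then 0 else if U (prog (lead x.tail)) x t = some true then 0 else 1

theorem prim_zaux : Primrec fun p : Str × ℕ => zaux p.1 p.2 := by
  unfold zaux
  exact Primrec.ite (Primrec.eq.comp (Primrec.list_headI.comp fst) (const true)) (const 0)
    (Primrec.ite (Primrec.eq.comp (prim_U fst (prim_prog.comp (prim_lead.comp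
      (Primrec.list_tail.comp fst))) snd) (const (some true))) (const 0) (const 1))

theorem zaux_iff {g : ℕ → ℕ} {x : Str} (hx : x.length ∈ D) :
    zaux x (g x.length) ≠ 0 ↔ x ∈ setZ g := by
  unfold zaux setZ
  simp only [Set.mem_ofPred_eq]
  split_ifs with h h'
  · exact iff_of_false (not_not_intro rfl) fun h2 => by simp [h] at h2
  · exact iff_of_false (not_not_intro rfl) fun h2 => h2.2.2 h'
  · exact iff_of_true one_ne_zero ⟨hx, by simpa using h, h'⟩

theorem exists_wZ {g : ℕ → ℕ} (hg : Computable g) :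
    ∃ w : W, w.Plain ∧ ∀ (x : Str) (m : ℕ → ℕ), m 0 = x.length →
    ∃ m', Rx x (.seq (.const 8 0) w) m m' ∧ m' 0 = zaux x (g x.length) := by
  have h2 : Computable fun p : ℕ => strOf p.unpair.2 :=
    (prim_strOf.comp (snd.comp Primrec.unpair)).to_comp
  have h3 : Computable fun p : ℕ => zaux (strOf p.unpair.2) (g (strOf p.unpair.2).length) :=
    prim_zaux.to_comp.comp (h2.pair (hg.comp (Primrec.list_length.to_comp.comp h2)))
  obtain ⟨w, h4, h5⟩ := exists_decider (Partrec.nat_iff.1 h3.partrec)
  refine ⟨w, h4, fun x m hm => h5 0 x _ (Part.mem_some_iff.2 ?_) m hm⟩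
  beta_reduce
  rw [Nat.unpair_pair, strOf_encode]

/-- The decider of `setZ g`. -/
theorem machZ {g : ℕ → ℕ} (hg : Computable g) (κ : Criterion) :
    ∃ P : Prog, Plain P ∧ (∀ x : Str, ∃ b c, Halts κ P ∅ x b c ∧ (b = true ↔ x ∈ setZ g) ∧
      (x.length ∉ D → c ≤ 20000 * x.length + 1200)) := by
  obtain ⟨w, hw, hw'⟩ := exists_wZ hg
  refine ⟨(decD 0 w).toProg, (decD_plain hw).toProg, fun x => ?_⟩
  have hm : (init x).mem 0 = x.length := rfl
  by_cases hD : x.length ∈ D
  · obtain ⟨m', c, r, e⟩ := decD_in (j := 0) (hw' x) κ ∅ [] hm hD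
    -- the query string is unchanged
    refine ⟨_, _, r.halts, ?_, fun h => absurd hD h⟩
    rw [decide_eq_true_iff, e, zaux_iff hD]
  · obtain ⟨m', c, r, e, hc⟩ := decD_out (j := 0) (w := w) κ x ∅ [] (m := (init x).mem) hD
    refine ⟨_, _, r.halts, ?_, fun _ => ?_⟩
    · rw [decide_eq_true_iff, e]
      exact iff_of_false (not_not_intro rfl) fun h => hD h.1
    · have c1 := cost_jz_le κ (i := 0) (m := m') (S := 0) (by norm_num) (by rw [e]; simp)
      rw [hm] at hc
      omega

/-- Deciding `setZ g` is hard on every large tower. -/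
theorem hardZ {g : ℕ → ℕ} {κ : Criterion} {q : ℕ} {B : ℕ → ℕ}
    (h : ∀ x : Str, ∃ b c, Halts κ (toProg (prog q)) ∅ x b c ∧ (b = true ↔ x ∈ setZ g) ∧
      c ≤ B x.length) {n : ℕ} (hn : n ∈ D) (hq : q + 2 ≤ n) : g n < B n := by
  obtain ⟨x, hx⟩ : ∃ x : Str, x = false :: (List.replicate q true ++
    false :: List.replicate (n - q - 2) false) := ⟨_, rfl⟩
  have hxl : x.length = n := by
    rw [hx]
    simp only [List.length_cons, List.length_append, List.length_replicate]
    omega
  obtain ⟨b, c, h1, h2, h3⟩ := h x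
  by_contra hc
  have h4 : c ≤ g x.length := by rw [hxl] at h3 ⊢; omega
  have h5 := h1.U h4
  have hl : lead x.tail = q := by rw [hx]; exact lead_eq q _
  have h6 : x ∈ setZ g ↔ U (prog q) x (g x.length) ≠ some true := by
    unfold setZ
    simp only [Set.mem_ofPred_eq, hl]
    constructor
    · exact fun h => h.2.2
    · exact fun h => ⟨by rw [hxl]; exact hn, by rw [hx]; rfl, h⟩
  rw [h6, h5] at h2
  cases b <;> simp at h2

end Pool.Agent.CTypes
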