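import Pool.Agent.CTypes.PartrecW

/-! Effective simulation of random access machines. -/

namespace Pool.Agent.CTypes

/-- Instructions coded by four numbers. -/
abbrev Raw : Type := ℕ × ℕ × ℕ × ℕ

/-- Decoding of instructions. -/
def toInstr : Raw → Instr
  | (0, a, b, _) => .const a b
  | (1, a, b, c) => .add a b c
  | (2, a, b, c) => .sub a b c
  | (3, a, b, _) => .load a b
  | (4, a, b, _) => .store a b
  | (5, a, b, _) => .read a b
  | (6, a, b, _) => .jz a b
  | (7, a, _, _) => .jmp a
  | (8, a, _, _) => .write (decide (a ≠ 0))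
  | (9, a, _, _) => .query a
  | (_ + 10, a, _, _) => .halt (decide (a ≠ 0))

theorem toInstr_surjective : Function.Surjective toInstr := by
  intro I
  cases I with
  | const i c => exact ⟨(0, i, c, 0), rfl⟩
  | add i j k => exact ⟨(1, i, j, k), rfl⟩
  | sub i j k => exact ⟨(2, i, j, k), rfl⟩
  | load i j => exact ⟨(3, i, j, 0), rfl⟩
  | store i j => exact ⟨(4, i, j, 0), rfl⟩
  | read i j => exact ⟨(5, i, j, 0), rfl⟩
  | jz i l => exact ⟨(6, i, l, 0), rfl⟩
  | jmp l => exact ⟨(7, l, 0, 0), rfl⟩
  | write b => exact ⟨(8, if b then 1 else 0, 0, 0), by cases b <;> rfl⟩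
  | query i => exact ⟨(9, i, 0, 0), rfl⟩
  | halt b => exact ⟨(10, if b then 1 else 0, 0, 0), by cases b <;> rfl⟩

/-- Decoding of programs. -/
def toProg (r : List Raw) : Prog := r.map toInstr

theorem toProg_surjective : Function.Surjective toProg :=
  List.map_surjective_iff.2 toInstr_surjective

/-- The code of the instruction with number `n`. -/
def fetchR (r : List Raw) (n : ℕ) : Raw := r.getD n (10, 0, 0, 0)

theorem fetch_toProg (r : List Raw) (n : ℕ) : fetch (toProg r) n = toInstr (fetchR r n) := by
  unfold fetch toProg fetchR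
  rw [List.getD_eq_getElem?_getD, List.getD_eq_getElem?_getD, List.getElem?_map]
  cases r[n]? <;> rfl

/-- Configurations with a finite list of register contents. -/
abbrev SimState : Type := ℕ × List ℕ × Str

/-- The configuration represented by a `SimState`. -/
def abs (s : SimState) : State := ⟨s.1, fun i => s.2.1.getD i 0, s.2.2⟩

/-- Setting a register. -/
def setL (l : List ℕ) (i v : ℕ) : List ℕ := (l ++ (List.range (i + 1)).map fun _ => 0).set i v

theorem getD_setL (l : List ℕ) (i v : ℕ) :
    (fun j => (setL l i v).getD j 0) = Function.update (fun j => l.getD j 0) i v := by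
  funext j
  unfold setL
  rw [Function.update_apply, List.getD_eq_getElem?_getD, List.getElem?_set,
    List.getD_eq_getElem?_getD]
  by_cases hj : j = i
  · subst hj
    have : j < (l ++ (List.range (j + 1)).map fun _ => 0).length := by
      simp only [List.length_append, List.length_map, List.length_range]; omega
    rw [if_pos rfl, if_pos this, if_pos rfl]
    rfl
  · rw [if_neg (Ne.symm hj), if_neg hj, List.getElem?_append]
    split_ifs with h
    · rfl
    · rw [List.getElem?_eq_none (not_lt.1 h)]
      rcases Nat.lt_or_ge (j - l.length) (i + 1) with h' | h'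
      · rw [List.getElem?_eq_getElem (by simpa using h')]
        simp
      · rw [List.getElem?_eq_none (by simpa using h')]

/-- The register changed by an instruction. -/
def tgt (m : List ℕ) (I : Raw) : ℕ := if I.1 = 4 then m.getD I.2.1 0 else I.2.1

/-- The value written by an instruction. -/
def val (O : Str → Bool) (x : Str) (s : SimState) (I : Raw) : ℕ :=
  if I.1 = 0 then I.2.2.1
  else if I.1 = 1 then s.2.1.getD I.2.2.1 0 + s.2.1.getD I.2.2.2 0
  else if I.1 = 2 then s.2.1.getD I.2.2.1 0 - s.2.1.getD I.2.2.2 0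
  else if I.1 = 3 then s.2.1.getD (s.2.1.getD I.2.2.1 0) 0
  else if I.1 = 4 then s.2.1.getD I.2.2.1 0
  else if I.1 = 5 then bitAt x (s.2.1.getD I.2.2.1 0)
  else if O s.2.2 = true then 1 else 0

/-- The new program counter. -/
def newpc (s : SimState) (I : Raw) : ℕ :=
  if I.1 = 6 then (if s.2.1.getD I.2.1 0 = 0 then I.2.2.1 else s.1 + 1)
  else if I.1 = 7 then I.2.1
  else if 10 ≤ I.1 then s.1
  else s.1 + 1

/-- The new query string. -/
def newq (s : SimState) (I : Raw) : Str :=
  if I.1 = 8 then s.2.2 ++ [decide (I.2.1 ≠ 0)] else if I.1 = 9 then [] else s.2.2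

/-- The new register contents. -/
def newmem (O : Str → Bool) (x : Str) (s : SimState) (I : Raw) : List ℕ :=
  if I.1 ≤ 5 ∨ I.1 = 9 then setL s.2.1 (tgt s.2.1 I) (val O x s I) else s.2.1

/-- Effect of a coded instruction. -/
def execR (O : Str → Bool) (x : Str) (s : SimState) (I : Raw) : SimState :=
  (newpc s I, newmem O x s I, newq s I)

theorem abs_execR (O : Str → Bool) (x : Str) (s : SimState) (I : Raw) :
    abs (execR O x s I) = exec {q | O q = true} x (abs s) (toInstr I) := by
  obtain ⟨op, a, b, c⟩ := I
  obtain ⟨pc, m, q⟩ := s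
  rcases op with _ | _ | _ | _ | _ | _ | _ | _ | _ | _ | op
  all_goals
    try (simp [-List.getD_eq_getElem?_getD, toInstr, exec, abs, execR, newpc, newmem, newq, tgt,
      val, getD_setL]; done)
  · simp only [toInstr, exec, abs, execR, newpc, newmem, newq, tgt, val]
    norm_num
    simp only [← List.getD_eq_getElem?_getD, getD_setL]
    congr 1
    by_cases h : O q = true
    · simp [h]
    · simp [h]
  · have h1 : ¬ (op + 1 + 1 + 1 + 1 + 1 + 1 + 1 + 1 + 1 + 1 ≤ 5 ∨
        op + 1 + 1 + 1 + 1 + 1 + 1 + 1 + 1 + 1 + 1 = 9) := by omega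
    simp only [toInstr, exec, abs, execR, newpc, newmem, newq, if_neg h1]
    simp

/-- One step of the simulation. -/
def stepR (O : Str → Bool) (x : Str) (r : List Raw) (s : SimState) : SimState :=
  execR O x s (fetchR r s.1)

theorem abs_stepR (O : Str → Bool) (x : Str) (r : List Raw) (s : SimState) :
    abs (stepR O x r s) = step (toProg r) {q | O q = true} x (abs s) := by
  unfold stepR step
  rw [abs_execR, fetch_toProg]
  rfl

/-- The simulated configuration after `t` steps. -/
def simR (O : Str → Bool) (x : Str) (r : List Raw) (t : ℕ) : SimState :=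
  (stepR O x r)^[t] (0, [x.length], [])

theorem abs_init (x : Str) : abs (0, [x.length], []) = init x := by
  unfold abs init
  congr 1
  funext i
  rcases i with _ | i
  · rfl
  · simp

theorem abs_simR (O : Str → Bool) (x : Str) (r : List Raw) (t : ℕ) :
    abs (simR O x r t) = stateAt (toProg r) {q | O q = true} x t := by
  unfold simR stateAt
  induction t with
  | zero => exact abs_init x
  | succ t ih => rw [Function.iterate_succ_apply', Function.iterate_succ_apply', abs_stepR, ih]

/-- Cost of a coded instruction. -/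
def costR (κ : Criterion) (m : List ℕ) (I : Raw) : ℕ :=
  if I.1 = 0 then 1 + κ.len I.2.1 + κ.len I.2.2.1
  else if I.1 = 1 ∨ I.1 = 2 then
    1 + κ.len I.2.1 + κ.len I.2.2.1 + κ.len I.2.2.2 + κ.len (m.getD I.2.2.1 0) +
      κ.len (m.getD I.2.2.2 0)
  else if I.1 = 3 then
    1 + κ.len I.2.1 + κ.len I.2.2.1 + κ.len (m.getD I.2.2.1 0) +
      κ.len (m.getD (m.getD I.2.2.1 0) 0)
  else if I.1 = 4 then
    1 + κ.len I.2.1 + κ.len I.2.2.1 + κ.len (m.getD I.2.1 0) + κ.len (m.getD I.2.2.1 0)
  else if I.1 = 5 then 1 + κ.len I.2.1 + κ.len I.2.2.1 + κ.len (m.getD I.2.2.1 0)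
  else if I.1 = 6 then 1 + κ.len I.2.1 + κ.len (m.getD I.2.1 0)
  else if I.1 = 7 ∨ I.1 = 8 then 1
  else if I.1 = 9 then 1 + κ.len I.2.1
  else 0

theorem cost_toInstr (κ : Criterion) (m : List ℕ) (I : Raw) :
    (toInstr I).cost κ (fun i => m.getD i 0) = costR κ m I := by
  obtain ⟨op, a, b, c⟩ := I
  rcases op with _ | _ | _ | _ | _ | _ | _ | _ | _ | _ | op
  all_goals simp [-List.getD_eq_getElem?_getD, toInstr, Instr.cost, costR]

/-- The total cost of the first `t` simulated steps. -/
def costSum (κ : Criterion) (O : Str → Bool) (x : Str) (r : List Raw) (t : ℕ) : ℕ :=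
  ((List.range t).map fun k => costR κ (simR O x r k).2.1 (fetchR r (simR O x r k).1)).sum

theorem costUpTo_eq (κ : Criterion) (O : Str → Bool) (x : Str) (r : List Raw) (t : ℕ) :
    costUpTo κ (toProg r) {q | O q = true} x t = costSum κ O x r t := by
  induction t with
  | zero => rfl
  | succ t ih =>
    unfold costUpTo costSum at ih ⊢
    rw [Finset.sum_range_succ, ih, List.range_succ, List.map_append, List.sum_append]
    congr 1
    simp only [List.map_cons, List.map_nil, List.sum_cons, List.sum_nil, add_zero]
    rw [← abs_simR, ← cost_toInstr, ← fetch_toProg]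
    rfl

/-- The answer given after at most `t` steps: `none` if the machine has not halted. -/
def answer (O : Str → Bool) (x : Str) (r : List Raw) (t : ℕ) : Option Bool :=
  let I := fetchR r (simR O x r t).1
  if 10 ≤ I.1 then some (decide (I.2.1 ≠ 0)) else none

theorem answer_eq_some {O : Str → Bool} {x : Str} {r : List Raw} {t : ℕ} {b : Bool} :
    answer O x r t = some b ↔
      fetch (toProg r) (stateAt (toProg r) {q | O q = true} x t).pc = .halt b := by
  rw [← abs_simR]
  unfold answer abs
  simp only
  rw [fetch_toProg]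
  obtain ⟨op, a, b', c⟩ := fetchR r (simR O x r t).1
  rcases op with _ | _ | _ | _ | _ | _ | _ | _ | _ | _ | op
  all_goals simp [toInstr]

end Pool.Agent.CTypes
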