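import Pool.Agent.CTypes.Sim

/-! The simulation is primitive recursive. -/

namespace Pool.Agent.CTypes

open Primrec

section

variable {α : Type} [Primcodable α]

theorem prim_getD {l : α → List ℕ} {n : α → ℕ} (hl : Primrec l) (hn : Primrec n) :
    Primrec fun a => (l a).getD (n a) 0 :=
  (Primrec.list_getD 0).comp hl hn

theorem prim_bitAt {x : α → Str} {n : α → ℕ} (hx : Primrec x) (hn : Primrec n) :
    Primrec fun a => bitAt (x a) (n a) := by
  unfold bitAt
  exact Primrec.ite (Primrec.eq.comp ((Primrec.list_getD false).comp hx hn) (const true))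
    (const 1) (const 0)

theorem prim_eqc {f : α → ℕ} (hf : Primrec f) (c : ℕ) : PrimrecPred fun a => f a = c :=
  Primrec.eq.comp hf (const c)

theorem prim_add {f g : α → ℕ} (hf : Primrec f) (hg : Primrec g) :
    Primrec fun a => f a + g a := Primrec.nat_add.comp hf hg

theorem prim_sub {f g : α → ℕ} (hf : Primrec f) (hg : Primrec g) :
    Primrec fun a => f a - g a := Primrec.nat_sub.comp hf hg

theorem prim_mul {f g : α → ℕ} (hf : Primrec f) (hg : Primrec g) :
    Primrec fun a => f a * g a := Primrec.nat_mul.comp hf hg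

theorem prim_pow {f g : α → ℕ} (hf : Primrec f) (hg : Primrec g) :
    Primrec fun a => f a ^ g a :=
  (Primrec₂.unpaired'.1 Nat.Primrec.pow).comp hf hg

theorem prim_fetchR {r : α → List Raw} {n : α → ℕ} (hr : Primrec r) (hn : Primrec n) :
    Primrec fun a => fetchR (r a) (n a) :=
  (Primrec.list_getD (10, 0, 0, 0)).comp hr hn

theorem prim_setL {l : α → List ℕ} {i v : α → ℕ} (hl : Primrec l) (hi : Primrec i)
    (hv : Primrec v) : Primrec fun a => setL (l a) (i a) (v a) := by
  unfold setL
  exact Primrec.list_set.comp (Primrec.list_append.comp hl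
    (Primrec.list_map (Primrec.list_range.comp (Primrec.succ.comp hi)) (const 0).to₂))
    (hi.pair hv)

/-- The projections of a coded instruction and of a configuration are primitive recursive. -/
theorem prim_val {O : α → Str → Bool} (hO : Primrec₂ O) {x : α → Str} (hx : Primrec x)
    {s : α → SimState} (hs : Primrec s) {I : α → Raw} (hI : Primrec I) :
    Primrec fun a => val (O a) (x a) (s a) (I a) := by
  have h0 : Primrec fun a => (I a).1 := fst.comp hI
  have h2 : Primrec fun a => (I a).2.2.1 := fst.comp (snd.comp (snd.comp hI))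
  have h3 : Primrec fun a => (I a).2.2.2 := snd.comp (snd.comp (snd.comp hI))
  have hm : Primrec fun a => (s a).2.1 := fst.comp (snd.comp hs)
  have hq : Primrec fun a => (s a).2.2 := snd.comp (snd.comp hs)
  unfold val
  refine Primrec.ite (prim_eqc h0 0) h2 (Primrec.ite (prim_eqc h0 1)
    (prim_add (prim_getD hm h2) (prim_getD hm h3)) (Primrec.ite (prim_eqc h0 2)
    (prim_sub (prim_getD hm h2) (prim_getD hm h3)) (Primrec.ite (prim_eqc h0 3)
    (prim_getD hm (prim_getD hm h2)) (Primrec.ite (prim_eqc h0 4) (prim_getD hm h2)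
    (Primrec.ite (prim_eqc h0 5) (prim_bitAt hx (prim_getD hm h2))
    (Primrec.ite (Primrec.eq.comp (hO.comp Primrec.id hq) (const true)) (const 1)
      (const 0)))))))

theorem prim_newpc {s : α → SimState} (hs : Primrec s) {I : α → Raw} (hI : Primrec I) :
    Primrec fun a => newpc (s a) (I a) := by
  have h0 : Primrec fun a => (I a).1 := fst.comp hI
  have h1 : Primrec fun a => (I a).2.1 := fst.comp (snd.comp hI)
  have h2 : Primrec fun a => (I a).2.2.1 := fst.comp (snd.comp (snd.comp hI))
  have hm : Primrec fun a => (s a).2.1 := fst.comp (snd.comp hs)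
  have hp : Primrec fun a => (s a).1 := fst.comp hs
  unfold newpc
  exact Primrec.ite (prim_eqc h0 6) (Primrec.ite (prim_eqc (prim_getD hm h1) 0) h2
    (Primrec.succ.comp hp)) (Primrec.ite (prim_eqc h0 7) h1
    (Primrec.ite (Primrec.nat_le.comp (const 10) h0) hp (Primrec.succ.comp hp)))

theorem prim_newq {s : α → SimState} (hs : Primrec s) {I : α → Raw} (hI : Primrec I) :
    Primrec fun a => newq (s a) (I a) := by
  have h0 : Primrec fun a => (I a).1 := fst.comp hI
  have h1 : Primrec fun a => (I a).2.1 := fst.comp (snd.comp hI)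
  have hq : Primrec fun a => (s a).2.2 := snd.comp (snd.comp hs)
  unfold newq
  refine Primrec.ite (prim_eqc h0 8) (Primrec.list_concat.comp hq ?_)
    (Primrec.ite (prim_eqc h0 9) (const []) hq)
  exact (prim_eqc h1 0).not.decide

theorem prim_tgt {m : α → List ℕ} (hm : Primrec m) {I : α → Raw} (hI : Primrec I) :
    Primrec fun a => tgt (m a) (I a) := by
  have h0 : Primrec fun a => (I a).1 := fst.comp hI
  have h1 : Primrec fun a => (I a).2.1 := fst.comp (snd.comp hI)
  unfold tgt
  exact Primrec.ite (prim_eqc h0 4) (prim_getD hm h1) h1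

theorem prim_newmem {O : α → Str → Bool} (hO : Primrec₂ O) {x : α → Str} (hx : Primrec x)
    {s : α → SimState} (hs : Primrec s) {I : α → Raw} (hI : Primrec I) :
    Primrec fun a => newmem (O a) (x a) (s a) (I a) := by
  have h0 : Primrec fun a => (I a).1 := fst.comp hI
  have hm : Primrec fun a => (s a).2.1 := fst.comp (snd.comp hs)
  unfold newmem
  exact Primrec.ite ((Primrec.nat_le.comp h0 (const 5)).or (prim_eqc h0 9))
    (prim_setL hm (prim_tgt hm hI) (prim_val hO hx hs hI)) hm

theorem prim_execR {O : α → Str → Bool} (hO : Primrec₂ O) {x : α → Str} (hx : Primrec x)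
    {s : α → SimState} (hs : Primrec s) {I : α → Raw} (hI : Primrec I) :
    Primrec fun a => execR (O a) (x a) (s a) (I a) :=
  (prim_newpc hs hI).pair ((prim_newmem hO hx hs hI).pair (prim_newq hs hI))

theorem prim_simR {O : α → Str → Bool} (hO : Primrec₂ O) {x : α → Str} (hx : Primrec x)
    {r : α → List Raw} (hr : Primrec r) {t : α → ℕ} (ht : Primrec t) :
    Primrec fun a => simR (O a) (x a) (r a) (t a) := by
  unfold simR
  refine Primrec.nat_iterate ht ?_ ?_
  · exact (const 0).pair (((Primrec.list_cons.comp (Primrec.list_length.comp hx)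
      (const []))).pair (const []))
  · have hO' : Primrec₂ fun (p : α × SimState) (q : Str) => O p.1 q :=
      hO.comp (fst.comp fst) snd
    have h := prim_execR (α := α × SimState) (O := fun p q => O p.1 q) hO' (x := fun p => x p.1)
      (hx.comp fst) (s := fun p => p.2) snd (I := fun p => fetchR (r p.1) p.2.1)
      (prim_fetchR (hr.comp fst) (fst.comp snd))
    exact h.to₂

theorem prim_size : Primrec Nat.size := by
  refine Primrec.of_graph ⟨id, Primrec.id, fun n => ?_⟩ ?_
  · exact Nat.size_le.2 Nat.lt_two_pow_self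
  · have h : PrimrecRel fun (n k : ℕ) => n < 2 ^ k ∧ (k = 0 ∨ 2 ^ (k - 1) ≤ n) := by
      refine PrimrecPred.and (Primrec.nat_lt.comp fst (prim_pow (const 2) snd)) ?_
      refine PrimrecPred.or (prim_eqc snd 0) (Primrec.nat_le.comp
        (prim_pow (const 2) (Primrec.pred.comp snd)) fst)
    refine PrimrecRel.of_eq h fun n k => ?_
    constructor
    · rintro ⟨h1, h2⟩
      refine le_antisymm (Nat.size_le.2 h1) ?_
      rcases h2 with rfl | h2
      · exact Nat.zero_le _
      · rcases k with _ | k
        · exact Nat.zero_le _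
        · exact Nat.lt_size.2 h2
    · rintro rfl
      refine ⟨Nat.lt_size_self n, ?_⟩
      rcases hk : n.size with _ | k
      · exact Or.inl rfl
      · right
        exact Nat.lt_size.1 (by omega)

theorem prim_len (κ : Criterion) : Primrec κ.len := by
  cases κ with
  | uniform => exact const 0
  | logarithmic => exact prim_size

theorem prim_costR (κ : Criterion) {m : α → List ℕ} (hm : Primrec m) {I : α → Raw}
    (hI : Primrec I) : Primrec fun a => costR κ (m a) (I a) := by
  have h0 : Primrec fun a => (I a).1 := fst.comp hI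
  have h1 : Primrec fun a => (I a).2.1 := fst.comp (snd.comp hI)
  have h2 : Primrec fun a => (I a).2.2.1 := fst.comp (snd.comp (snd.comp hI))
  have h3 : Primrec fun a => (I a).2.2.2 := snd.comp (snd.comp (snd.comp hI))
  have l1 := (prim_len κ).comp h1
  have l2 := (prim_len κ).comp h2
  have l3 := (prim_len κ).comp h3
  have g1 := (prim_len κ).comp (prim_getD hm h1)
  have g2 := (prim_len κ).comp (prim_getD hm h2)
  have g3 := (prim_len κ).comp (prim_getD hm h3)
  have g22 := (prim_len κ).comp (prim_getD hm (prim_getD hm h2))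
  have c1 : Primrec fun _ : α => (1 : ℕ) := const 1
  unfold costR
  exact Primrec.ite (prim_eqc h0 0) (prim_add (prim_add c1 l1) l2)
    (Primrec.ite ((prim_eqc h0 1).or (prim_eqc h0 2))
      (prim_add (prim_add (prim_add (prim_add (prim_add c1 l1) l2) l3) g2) g3)
    (Primrec.ite (prim_eqc h0 3) (prim_add (prim_add (prim_add (prim_add c1 l1) l2) g2) g22)
    (Primrec.ite (prim_eqc h0 4) (prim_add (prim_add (prim_add (prim_add c1 l1) l2) g1) g2)
    (Primrec.ite (prim_eqc h0 5) (prim_add (prim_add (prim_add c1 l1) l2) g2)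
    (Primrec.ite (prim_eqc h0 6) (prim_add (prim_add c1 l1) g1)
    (Primrec.ite ((prim_eqc h0 7).or (prim_eqc h0 8)) c1
    (Primrec.ite (prim_eqc h0 9) (prim_add c1 l1) (const 0))))))))

theorem prim_listSum {l : α → List ℕ} (hl : Primrec l) : Primrec fun a => (l a).sum := by
  have h := Primrec.list_foldr (h := fun (_ : α) (p : ℕ × ℕ) => p.1 + p.2) hl (const 0)
    (prim_add (fst.comp snd) (snd.comp snd)).to₂
  refine h.of_eq fun a => ?_
  induction l a with
  | nil => rfl
  | cons b l ih => simp [ih]

theorem prim_costSum (κ : Criterion) {O : α → Str → Bool} (hO : Primrec₂ O) {x : α → Str}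
    (hx : Primrec x) {r : α → List Raw} (hr : Primrec r) {t : α → ℕ} (ht : Primrec t) :
    Primrec fun a => costSum κ (O a) (x a) (r a) (t a) := by
  unfold costSum
  refine prim_listSum (Primrec.list_map (Primrec.list_range.comp ht) ?_)
  have hO' : Primrec₂ fun (p : α × ℕ) (q : Str) => O p.1 q := hO.comp (fst.comp fst) snd
  have hsim := prim_simR (α := α × ℕ) (O := fun p q => O p.1 q) hO' (x := fun p => x p.1)
    (hx.comp fst) (r := fun p => r p.1) (hr.comp fst) (t := fun p => p.2) snd
  exact (prim_costR κ (fst.comp (snd.comp hsim)) (prim_fetchR (hr.comp fst) (fst.comp hsim))).to₂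

theorem prim_answer {O : α → Str → Bool} (hO : Primrec₂ O) {x : α → Str}
    (hx : Primrec x) {r : α → List Raw} (hr : Primrec r) {t : α → ℕ} (ht : Primrec t) :
    Primrec fun a => answer (O a) (x a) (r a) (t a) := by
  unfold answer
  have hsim := prim_simR hO hx hr ht
  have hI := prim_fetchR hr (fst.comp hsim)
  exact Primrec.ite (Primrec.nat_le.comp (const 10) (fst.comp hI))
    (Primrec.option_some.comp (prim_eqc (fst.comp (snd.comp hI)) 0).not.decide) (const none)

end

end Pool.Agent.CTypes
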