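import Pool.Agent.CTypes.Value

/-! Lists of strings and sums of costs. -/

namespace Pool.Agent.CTypes

open Primrec

/-- All strings of length `n`. -/
def strs : ℕ → List Str
  | 0 => [[]]
  | n + 1 => (strs n).flatMap fun l => [false :: l, true :: l]

theorem mem_strs {n : ℕ} {x : Str} : x ∈ strs n ↔ x.length = n := by
  induction n generalizing x with
  | zero => simp [strs]
  | succ n ih =>
    simp only [strs, List.mem_flatMap, ih, List.mem_cons, List.not_mem_nil, or_false]
    constructor
    · rintro ⟨l, rfl, rfl | rfl⟩ <;> rfl
    · intro h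
      rcases x with _ | ⟨b, l⟩
      · simp at h
      · refine ⟨l, by simpa using h, ?_⟩
        cases b <;> simp

theorem prim_strs : Primrec strs := by
  have h : Primrec₂ fun (_ : ℕ) (L : List Str) =>
      L.flatMap fun l => [false :: l, true :: l] := by
    refine Primrec.list_flatMap snd ?_
    exact (Primrec.list_cons.comp (Primrec.list_cons.comp (const false) snd)
      (Primrec.list_cons.comp (Primrec.list_cons.comp (const true) snd) (const []))).to₂
  refine (Primrec.nat_rec₁ [[]] (f := fun (_ : ℕ) (L : List Str) =>
      L.flatMap fun l => [false :: l, true :: l]) h).of_eq fun n => ?_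
  induction n with
  | zero => rfl
  | succ n ih => simp only [strs, ← ih]

theorem prim_lsum {α β : Type} [Primcodable α] [Primcodable β] {L : α → List β}
    (hL : Primrec L) {g : α → β → ℕ} (hg : Primrec₂ g) :
    Primrec fun a => ((L a).map (g a)).sum :=
  prim_listSum (Primrec.list_map hL hg)

theorem le_lsum {β : Type} {L : List β} {g : β → ℕ} {b : β} (hb : b ∈ L) :
    g b ≤ (L.map g).sum :=
  List.single_le_sum (fun _ _ => Nat.zero_le _) _ (List.mem_map_of_mem hb)

/-- `B n` is the total cost of the machines `r c z` for `z` of length `n`: a partial recursive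
function of `(c, n)`. -/
def tot (κ : Criterion) (r : List Raw) (n t : ℕ) : ℕ := ((strs n).map fun z => costU κ r z t).sum

theorem prim_tot (κ : Criterion) {α : Type} [Primcodable α] {r : α → List Raw} (hr : Primrec r)
    {n t : α → ℕ} (hn : Primrec n) (ht : Primrec t) : Primrec fun a => tot κ (r a) (n a) (t a) :=
  prim_lsum (prim_strs.comp hn) (prim_costU κ (α := α × Str) snd (hr.comp fst) (ht.comp fst)).to₂

/-- All machines have halted. -/
def allHalt (r : List Raw) (n t : ℕ) : Bool :=
  decide (((strs n).map fun z => if (U r z t).isSome = true then 0 else 1).sum = 0)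

theorem prim_allHalt {α : Type} [Primcodable α] {r : α → List Raw} (hr : Primrec r)
    {n t : α → ℕ} (hn : Primrec n) (ht : Primrec t) :
    Primrec fun a => allHalt (r a) (n a) (t a) := by
  unfold allHalt
  refine (prim_eqc (prim_lsum (prim_strs.comp hn) ?_) 0).decide
  exact (Primrec.ite (Primrec.eq.comp (Primrec.option_isSome.comp
    (prim_U (α := α × Str) snd (hr.comp fst) (ht.comp fst))) (const true)) (const 0)
      (const 1)).to₂

theorem allHalt_iff {r : List Raw} {n t : ℕ} :
    allHalt r n t = true ↔ ∀ z : Str, z.length = n → ∃ b, U r z t = some b := by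
  unfold allHalt
  rw [decide_eq_true_iff, List.sum_eq_zero_iff]
  constructor
  · intro h z hz
    have h1 := h _ (List.mem_map_of_mem (f := fun z => if (U r z t).isSome = true then 0 else 1)
      (mem_strs.2 hz))
    by_contra hc
    have : (U r z t).isSome ≠ true := fun h2 => hc (Option.isSome_iff_exists.1 h2)
    simp [this] at h1
  · intro h v hv
    obtain ⟨z, hz, rfl⟩ := List.mem_map.1 hv
    obtain ⟨b, hb⟩ := h z (mem_strs.1 hz)
    simp [hb]

theorem tot_ge {κ : Criterion} {r : List Raw} {n t : ℕ} {z : Str} (hz : z.length = n) :
    costU κ r z t ≤ tot κ r n t := le_lsum (g := fun z => costU κ r z t) (mem_strs.2 hz)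

/-- If machines with running times `c z` have all halted by time `t`, the total cost is the
sum of the `c z`. -/
theorem costU_of_halts {κ : Criterion} {r : List Raw} {z : Str} {b b' : Bool} {c t : ℕ}
    (h : Halts κ (toProg r) ∅ z b c) (ht : U r z t = some b') : costU κ r z t = c := by
  rw [costU_eq]
  exact ((halts_of_U (κ := κ) ht).unique h).2

end Pool.Agent.CTypes
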