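import Pool.Agent.CTypes.TypeA

/-! Testing in linear time whether a number is a tower. -/

namespace Pool.Agent.CTypes

/-- The tower function. -/
def tow : ℕ → ℕ
  | 0 => 1
  | s + 1 => 2 ^ tow s

/-- The set of towers. -/
def D : Set ℕ := {n | ∃ s, tow s = n}

theorem tow_pos (s : ℕ) : 0 < tow s := by
  cases s with
  | zero => exact one_pos
  | succ s => exact Nat.two_pow_pos _

theorem tow_strictMono : StrictMono tow :=
  strictMono_nat_of_lt_succ fun _ => Nat.lt_two_pow_self

theorem le_tow (s : ℕ) : s ≤ tow s := tow_strictMono.le_apply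

theorem zero_not_D : 0 ∉ D := fun ⟨s, hs⟩ => (tow_pos s).ne' hs

theorem one_D : 1 ∈ D := ⟨0, rfl⟩

/-- The exact logarithm. -/
def lg (n : ℕ) : ℕ := if 2 ^ Nat.clog 2 n = n then Nat.clog 2 n else 0

theorem lg_mem_D {n : ℕ} (hn : 2 ≤ n) : lg n ∈ D ↔ n ∈ D := by
  unfold lg
  constructor
  · rintro ⟨s, hs⟩
    split_ifs at hs with h
    · exact ⟨s + 1, by rw [tow, hs, h]⟩
    · exact absurd hs (tow_pos s).ne'
  · rintro ⟨s, hs⟩
    rcases s with _ | s
    · simp only [tow] at hs; omega
    · subst hs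
      have h : Nat.clog 2 (tow (s + 1)) = tow s := Nat.clog_pow 2 _ (by norm_num)
      rw [h, if_pos (show 2 ^ tow s = tow (s + 1) from rfl)]
      exact ⟨s, rfl⟩

theorem lg_le {n : ℕ} (hn : 2 ≤ n) : 2 * lg n ≤ n := by
  unfold lg
  split_ifs with h
  · obtain ⟨e, he⟩ : ∃ e, e = Nat.clog 2 n := ⟨_, rfl⟩
    rw [← he] at h ⊢
    rcases e with _ | e
    · omega
    · have := Nat.lt_two_pow_self (n := e)
      rw [pow_succ] at h
      omega
  · omega

theorem sq_le_two_pow (k : ℕ) : k ^ 2 ≤ 2 ^ (k + 1) := by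
  induction k with
  | zero => norm_num
  | succ k ih =>
    rcases Nat.lt_or_ge k 3 with h | h
    · interval_cases k <;> norm_num
    · have e : 2 ^ (k + 1 + 1) = 2 * 2 ^ (k + 1) := by ring
      rw [e]
      nlinarith

theorem size_sq_le {n : ℕ} (hn : 1 ≤ n) : Nat.size n ^ 2 ≤ 4 * n := by
  obtain ⟨k, hk⟩ : ∃ k, Nat.size n = k + 1 := by
    have := Nat.size_pos.2 hn
    exact ⟨Nat.size n - 1, by omega⟩
  have h1 : 2 ^ k ≤ n := Nat.lt_size.1 (by omega)
  have h2 := sq_le_two_pow (k + 1)
  have h3 : 2 ^ (k + 1 + 1) = 4 * 2 ^ k := by ring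
  rw [hk]
  omega

/-! ### Costs of instructions -/

theorem cost_add_le (κ : Criterion) {i j k S : ℕ} {m : ℕ → ℕ} (hi : i < 32) (hj : j < 32)
    (hk : k < 32) (h1 : Nat.size (m j) ≤ S) (h2 : Nat.size (m k) ≤ S) :
    (Instr.add i j k).cost κ m ≤ 16 + 2 * S := by
  have a1 : κ.len i ≤ 5 := len_le_of_lt κ hi
  have a2 : κ.len j ≤ 5 := len_le_of_lt κ hj
  have a3 : κ.len k ≤ 5 := len_le_of_lt κ hk
  have a4 := len_le_size κ (m j)
  have a5 := len_le_size κ (m k)
  simp only [Instr.cost]
  omega

theorem cost_sub_le (κ : Criterion) {i j k S : ℕ} {m : ℕ → ℕ} (hi : i < 32) (hj : j < 32)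
    (hk : k < 32) (h1 : Nat.size (m j) ≤ S) (h2 : Nat.size (m k) ≤ S) :
    (Instr.sub i j k).cost κ m ≤ 16 + 2 * S := cost_add_le κ hi hj hk h1 h2

theorem cost_const_le (κ : Criterion) {i c S : ℕ} {m : ℕ → ℕ} (hi : i < 32)
    (h1 : Nat.size c ≤ S) : (Instr.const i c).cost κ m ≤ 16 + 2 * S := by
  have a1 : κ.len i ≤ 5 := len_le_of_lt κ hi
  have a4 := len_le_size κ c
  simp only [Instr.cost]
  omega

theorem cost_jz_le (κ : Criterion) {i S : ℕ} {m : ℕ → ℕ} (hi : i < 32)
    (h1 : Nat.size (m i) ≤ S) : (Instr.jz i 0).cost κ m ≤ 16 + 2 * S := by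
  have a1 : κ.len i ≤ 5 := len_le_of_lt κ hi
  have a4 := len_le_size κ (m i)
  simp only [Instr.cost]
  omega

/-- `R_i := R_j` in bounded cost. -/
theorem mov_cost (κ x O q) {i j S : ℕ} {m : ℕ → ℕ} (hi : i < 32) (hj : j < 32) (hij : i ≠ j)
    (h1 : Nat.size (m j) ≤ S) :
    ∃ c, Runs κ x O (mov i j) m q (Function.update m i (m j)) q c ∧ c ≤ 32 + 4 * S := by
  have r1 := Runs.const (κ := κ) (x := x) (O := O) i 0 m q
  have r2 := Runs.add (κ := κ) (x := x) (O := O) i i j (Function.update m i 0) q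
  rw [upd_eq, upd_ne hij.symm, zero_add] at r2
  have e : Function.update (Function.update m i 0) i (m j) = Function.update m i (m j) := by
    simp
  rw [e] at r2
  refine ⟨_, r1.seq r2, ?_⟩
  have c1 := cost_const_le κ (m := m) (c := 0) (S := S) hi (by simp)
  have c2 : (Instr.add i i j).cost κ (Function.update m i 0) ≤ 16 + 2 * S :=
    cost_add_le κ hi hi hj (by rw [upd_eq]; simp) (by rw [upd_ne hij.symm]; exact h1)
  omega

/-! ### The logarithm loop -/

/-- Body of the inner loop. -/
def lgBody : W := .seq (.add 16 16 16) (.seq (.add 17 17 13) (.sub 18 10 16))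

theorem size_two_mul_le (n : ℕ) : Nat.size (2 * n) ≤ Nat.size n + 1 := by
  rw [Nat.size_le, pow_succ]
  have := Nat.lt_size_self n
  omega

theorem lgLoop_spec (κ x O q) (n : ℕ) (d : ℕ) : ∀ (m : ℕ → ℕ) (e : ℕ),
    e + d = Nat.clog 2 n → m 16 = 2 ^ e → m 17 = e → m 18 = n - 2 ^ e → m 10 = n → m 13 = 1 →
    ∃ m' c, Runs κ x O (.loop 18 lgBody) m q m' q c ∧ m' 16 = 2 ^ Nat.clog 2 n ∧
      m' 17 = Nat.clog 2 n ∧ (∀ i, i ≠ 16 → i ≠ 17 → i ≠ 18 → m' i = m i) ∧
      c ≤ (d + 1) * (80 + 8 * Nat.size n) := by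
  induction d with
  | zero =>
    intro m e he h16 h17 h18 h10 h13
    have he' : e = Nat.clog 2 n := by omega
    subst he'
    have h0 : m 18 = 0 := by
      rw [h18]
      have := Nat.le_pow_clog (b := 2) (by norm_num) n
      omega
    refine ⟨m, _, Runs.loop_zero h0, h16, h17, fun i _ _ _ => rfl, ?_⟩
    have c1 := cost_jz_le κ (i := 18) (m := m) (S := Nat.size n) (by norm_num)
      (by rw [h0]; simp)
    omega
  | succ d ih =>
    intro m e he h16 h17 h18 h10 h13
    have hlt : 2 ^ e < n := by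
      by_contra hc
      have := (Nat.clog_le_iff_le_pow (b := 2) (by norm_num)).2 (not_lt.1 hc)
      omega
    have hen : e < n := Nat.lt_two_pow_self.trans hlt
    have h0 : m 18 ≠ 0 := by rw [h18]; omega
    let m1 := Function.update m 16 (m 16 + m 16)
    let m2 := Function.update m1 17 (m1 17 + m1 13)
    let m3 := Function.update m2 18 (m2 10 - m2 16)
    have r1 : Runs κ x O (.add 16 16 16) m q m1 q _ := Runs.add 16 16 16 m q
    have r2 : Runs κ x O (.add 17 17 13) m1 q m2 q _ := Runs.add 17 17 13 m1 q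
    have r3 : Runs κ x O (.sub 18 10 16) m2 q m3 q _ := Runs.sub 18 10 16 m2 q
    have e16 : m3 16 = 2 ^ (e + 1) := by
      simp only [m3, m2, m1]
      simp (disch := omega) only [upd_eq, upd_ne, h16]
      ring
    have e17 : m3 17 = e + 1 := by
      simp only [m3, m2, m1]
      simp (disch := omega) only [upd_eq, upd_ne, h17, h13]
    have e18 : m3 18 = n - 2 ^ (e + 1) := by
      simp only [m3, m2, m1]
      simp (disch := omega) only [upd_eq, upd_ne, h10, h16]
      congr 1
      ring
    have e10 : m3 10 = n := by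
      simp only [m3, m2, m1]
      simp (disch := omega) only [upd_ne, h10]
    have e13 : m3 13 = 1 := by
      simp only [m3, m2, m1]
      simp (disch := omega) only [upd_ne, h13]
    obtain ⟨m', c, r4, g16, g17, gi, hc⟩ := ih m3 (e + 1) (by omega) e16 e17 e18 e10 e13
    refine ⟨m', _, Runs.loop_pos h0 (r1.seq (r2.seq r3)) r4, g16, g17, ?_, ?_⟩
    · intro i h1 h2 h3
      rw [gi i h1 h2 h3]
      simp only [m3, m2, m1]
      simp (disch := omega) only [upd_ne]
    · have hs1 : 1 ≤ Nat.size n := Nat.size_pos.2 (by omega)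
      have c0 := cost_jz_le κ (i := 18) (m := m) (S := Nat.size n) (by norm_num)
        (by rw [h18]; exact size_mono (Nat.sub_le _ _))
      have c1 := cost_add_le κ (i := 16) (j := 16) (k := 16) (m := m) (S := Nat.size n)
        (by norm_num) (by norm_num) (by norm_num) (by rw [h16]; exact size_mono hlt.le)
        (by rw [h16]; exact size_mono hlt.le)
      have c2 := cost_add_le κ (i := 17) (j := 17) (k := 13) (m := m1) (S := Nat.size n)
        (by norm_num) (by norm_num) (by norm_num)
        (by simp only [m1]; rw [upd_ne (by omega), h17]; exact size_mono hen.le)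
        (by simp only [m1]; rw [upd_ne (by omega), h13]; simpa using hs1)
      have c3 := cost_sub_le κ (i := 18) (j := 10) (k := 16) (m := m2) (S := Nat.size n + 1)
        (by norm_num) (by norm_num) (by norm_num)
        (by simp only [m2, m1]; rw [upd_ne (by omega), upd_ne (by omega), h10]; omega)
        (by
          simp only [m2, m1]; rw [upd_ne (by omega), upd_eq, h16]
          have : 2 ^ e + 2 ^ e = 2 * 2 ^ e := by ring
          rw [this]
          exact (size_two_mul_le _).trans (Nat.add_le_add_right (size_mono hlt.le) 1))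
      nlinarith

theorem clog_le_size (n : ℕ) : Nat.clog 2 n ≤ Nat.size n :=
  (Nat.clog_le_iff_le_pow (by norm_num)).2 (Nat.lt_size_self n).le

/-- Body of the outer loop: replace `R_10` by its exact logarithm. -/
def towBody : W :=
  .seq (.const 16 1) (.seq (.const 17 0) (.seq (.sub 18 10 16) (.seq (.loop 18 lgBody)
    (.seq (.sub 18 16 10) (.seq (.ite 18 (mov 10 17) (.const 10 0)) (.sub 11 10 13))))))

theorem towBody_spec (κ x O q) (n : ℕ) (hn : 2 ≤ n) (m : ℕ → ℕ) (h10 : m 10 = n)
    (h13 : m 13 = 1) :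
    ∃ m' c, Runs κ x O towBody m q m' q c ∧ m' 10 = lg n ∧ m' 11 = lg n - 1 ∧ m' 13 = 1 ∧
      (∀ i, i < 10 → m' i = m i) ∧ c ≤ 1000 * (Nat.size n) ^ 2 := by
  have hs1 : 1 ≤ Nat.size n := Nat.size_pos.2 (by omega)
  let m1 := Function.update m 16 1
  let m2 := Function.update m1 17 0
  let m3 := Function.update m2 18 (m2 10 - m2 16)
  have r1 : Runs κ x O (.const 16 1) m q m1 q _ := Runs.const 16 1 m q
  have r2 : Runs κ x O (.const 17 0) m1 q m2 q _ := Runs.const 17 0 m1 q
  have r3 : Runs κ x O (.sub 18 10 16) m2 q m3 q _ := Runs.sub 18 10 16 m2 q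
  have e10 : m3 10 = n := by
    simp only [m3, m2, m1]
    simp (disch := omega) only [upd_ne, h10]
  have e13 : m3 13 = 1 := by
    simp only [m3, m2, m1]
    simp (disch := omega) only [upd_ne, h13]
  have e16 : m3 16 = 2 ^ 0 := by
    simp only [m3, m2, m1]
    simp (disch := omega) only [upd_ne, upd_eq, pow_zero]
  have e17 : m3 17 = 0 := by
    simp only [m3, m2, m1]
    simp (disch := omega) only [upd_ne, upd_eq]
  have e18 : m3 18 = n - 2 ^ 0 := by
    simp only [m3, m2, m1]
    simp (disch := omega) only [upd_ne, upd_eq, h10, pow_zero]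
  obtain ⟨m4, c4, r4, g16, g17, gi, hc4⟩ := lgLoop_spec κ x O q n (Nat.clog 2 n) m3 0
    (by omega) e16 e17 e18 e10 e13
  have g10 : m4 10 = n := by rw [gi 10 (by omega) (by omega) (by omega), e10]
  have g13 : m4 13 = 1 := by rw [gi 13 (by omega) (by omega) (by omega), e13]
  have glow : ∀ i < 10, m4 i = m i := by
    intro i hi
    rw [gi i (by omega) (by omega) (by omega)]
    simp only [m3, m2, m1]
    simp (disch := omega) only [upd_ne]
  let m5 := Function.update m4 18 (m4 16 - m4 10)
  have r5 : Runs κ x O (.sub 18 16 10) m4 q m5 q _ := Runs.sub 18 16 10 m4 q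
  have hclog : 2 ^ Nat.clog 2 n ≤ 2 * n := by
    have h1 : Nat.clog 2 n ≠ 0 := (Nat.clog_pos (by norm_num) hn).ne'
    obtain ⟨e, he⟩ := Nat.exists_eq_succ_of_ne_zero h1
    have h2 : 2 ^ e < n := by
      by_contra hc
      have := (Nat.clog_le_iff_le_pow (b := 2) (by norm_num)).2 (not_lt.1 hc)
      omega
    rw [he, Nat.succ_eq_add_one, pow_succ]
    omega
  have hszc : Nat.size (2 ^ Nat.clog 2 n) ≤ Nat.size n + 1 :=
    (size_mono hclog).trans (size_two_mul_le n)
  have hsz2 : Nat.size (Nat.clog 2 n) ≤ Nat.size n :=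
    size_mono ((clog_le_size n).trans (size_le_self n))
  have r6 : ∃ c, Runs κ x O (.ite 18 (mov 10 17) (.const 10 0)) m5 q
      (Function.update m5 10 (lg n)) q c ∧ c ≤ 100 + 8 * Nat.size n := by
    have h18 : m5 18 = 2 ^ Nat.clog 2 n - n := by
      simp only [m5]; rw [upd_eq, g16, g10]
    have cj := cost_jz_le κ (i := 18) (m := m5) (S := Nat.size n + 1) (by norm_num)
      (by rw [h18]; exact (size_mono (Nat.sub_le _ _)).trans hszc)
    have h17 : m5 17 = Nat.clog 2 n := by simp only [m5]; rw [upd_ne (by omega), g17]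
    by_cases hp : 2 ^ Nat.clog 2 n = n
    · obtain ⟨c, hr, hc⟩ := mov_cost κ x O q (i := 10) (j := 17) (S := Nat.size n) (m := m5)
        (by norm_num) (by norm_num) (by norm_num) (by rw [h17]; exact hsz2)
      have hlg : lg n = m5 17 := by rw [h17, lg, if_pos hp]
      rw [hlg]
      exact ⟨_, Runs.ite_zero (by rw [h18, hp]; exact Nat.sub_self n) hr, by omega⟩
    · have hlg : lg n = 0 := by rw [lg, if_neg hp]
      rw [hlg]
      have hlt : n < 2 ^ Nat.clog 2 n :=
        lt_of_le_of_ne (Nat.le_pow_clog (by norm_num) n) (Ne.symm hp)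
      have cc := cost_const_le κ (i := 10) (c := 0) (m := m5) (S := Nat.size n) (by norm_num)
        (by simp)
      exact ⟨_, Runs.ite_pos (by rw [h18]; omega) (Runs.const 10 0 m5 q), by omega⟩
  obtain ⟨c6, r6, hc6⟩ := r6
  let m6 := Function.update m5 10 (lg n)
  have r7 : Runs κ x O (.sub 11 10 13) m6 q (Function.update m6 11 (m6 10 - m6 13)) q _ :=
    Runs.sub 11 10 13 m6 q
  have f10 : m6 10 = lg n := upd_eq
  have f13 : m6 13 = 1 := by
    simp only [m6, m5]; rw [upd_ne (by omega), upd_ne (by omega), g13]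
  have hlgn : lg n ≤ n := by have := lg_le hn; omega
  refine ⟨_, _, r1.seq (r2.seq (r3.seq (r4.seq (r5.seq (r6.seq r7))))), ?_, ?_, ?_, ?_, ?_⟩
  · rw [upd_ne (by omega), f10]
  · rw [upd_eq, f10, f13]
  · rw [upd_ne (by omega), f13]
  · intro i hi
    simp only [m6, m5]
    rw [upd_ne (by omega), upd_ne (by omega), upd_ne (by omega), glow i hi]
  · have c1 := cost_const_le κ (i := 16) (c := 1) (m := m) (S := Nat.size n) (by norm_num)
      (by simpa using hs1)
    have c2 := cost_const_le κ (i := 17) (c := 0) (m := m1) (S := Nat.size n) (by norm_num)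
      (by simp)
    have c3 := cost_sub_le κ (i := 18) (j := 10) (k := 16) (m := m2) (S := Nat.size n)
        (by norm_num) (by norm_num) (by norm_num)
        (by simp only [m2, m1]; rw [upd_ne (by omega), upd_ne (by omega), h10])
        (by simp only [m2, m1]; rw [upd_ne (by omega), upd_eq]; simpa using hs1)
    have c5 := cost_sub_le κ (i := 18) (j := 16) (k := 10) (m := m4) (S := Nat.size n + 1)
        (by norm_num) (by norm_num) (by norm_num) (by rw [g16]; exact hszc)
        (by rw [g10]; omega)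
    have c7 := cost_sub_le κ (i := 11) (j := 10) (k := 13) (m := m6) (S := Nat.size n)
        (by norm_num) (by norm_num) (by norm_num) (by rw [f10]; exact size_mono hlgn)
        (by rw [f13]; simpa using hs1)
    have hcl := clog_le_size n
    have h4 : (Nat.clog 2 n + 1) * (80 + 8 * Nat.size n) ≤
        (Nat.size n + 1) * (80 + 8 * Nat.size n) := Nat.mul_le_mul_right _ (by omega)
    nlinarith

/-- The outer loop. -/
theorem towLoop_spec (κ x O q) (n : ℕ) : ∀ (m : ℕ → ℕ), m 10 = n → m 11 = n - 1 → m 13 = 1 →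
    ∃ m' c, Runs κ x O (.loop 11 towBody) m q m' q c ∧ (m' 10 = 1 ↔ n ∈ D) ∧ m' 10 ≤ 1 ∧
      (∀ i, i < 10 → m' i = m i) ∧ c ≤ 10000 * n + 100 := by
  induction n using Nat.strong_induction_on with
  | _ n ih =>
    intro m h10 h11 h13
    rcases Nat.lt_or_ge n 2 with hn | hn
    · have h0 : m 11 = 0 := by omega
      refine ⟨m, _, Runs.loop_zero h0, ?_, by omega, fun i _ => rfl, ?_⟩
      · rw [h10]
        rcases Nat.lt_or_ge n 1 with h | h
        · have : n = 0 := by omega
          subst this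
          exact iff_of_false (by omega) zero_not_D
        · have : n = 1 := by omega
          subst this
          exact iff_of_true rfl one_D
      · have := cost_jz_le κ (i := 11) (m := m) (S := 0) (by norm_num) (by rw [h0]; simp)
        omega
    · obtain ⟨m1, c1, r1, e10, e11, e13, elow, hc1⟩ := towBody_spec κ x O q n hn m h10 h13
      have hlt := lg_le hn
      obtain ⟨m2, c2, r2, g10, g10', glow, hc2⟩ := ih (lg n) (by omega) m1 e10 e11 e13
      refine ⟨m2, _, Runs.loop_pos (by omega) r1 r2, g10.trans (lg_mem_D hn), g10',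
        fun i hi => by rw [glow i hi, elow i hi], ?_⟩
      have c0 := cost_jz_le κ (i := 11) (m := m) (S := Nat.size n) (by norm_num)
        (by rw [h11]; exact size_mono (Nat.sub_le _ _))
      have hsq := size_sq_le (n := n) (by omega)
      have hs1 : 1 ≤ Nat.size n := Nat.size_pos.2 (by omega)
      nlinarith

/-- Test whether `R_0` is a tower; the answer is in `R_10`. -/
def dtestW : W :=
  .seq (.const 13 1) (.seq (mov 10 0) (.seq (.sub 11 10 13) (.loop 11 towBody)))

theorem dtestW_pure : dtestW.Pure := by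
  simp [dtestW, towBody, lgBody, mov, W.Pure]

theorem dtestW_spec (κ x O q) (m : ℕ → ℕ) :
    ∃ m' c, Runs κ x O dtestW m q m' q c ∧ (m' 10 = 1 ↔ m 0 ∈ D) ∧ m' 10 ≤ 1 ∧
      (∀ i, i < 10 → m' i = m i) ∧ c ≤ 20000 * m 0 + 1000 := by
  let m1 := Function.update m 13 1
  have r1 : Runs κ x O (.const 13 1) m q m1 q _ := Runs.const 13 1 m q
  obtain ⟨c2, r2, hc2⟩ := mov_cost κ x O q (i := 10) (j := 0) (S := Nat.size (m 0)) (m := m1)
    (by norm_num) (by norm_num) (by norm_num) (by simp only [m1]; rw [upd_ne (by omega)])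
  let m2 := Function.update m1 10 (m1 0)
  let m3 := Function.update m2 11 (m2 10 - m2 13)
  have r3 : Runs κ x O (.sub 11 10 13) m2 q m3 q _ := Runs.sub 11 10 13 m2 q
  have e10 : m3 10 = m 0 := by
    simp only [m3, m2, m1]
    simp (disch := omega) only [upd_ne, upd_eq]
  have e13 : m3 13 = 1 := by
    simp only [m3, m2, m1]
    simp (disch := omega) only [upd_ne, upd_eq]
  have e11 : m3 11 = m 0 - 1 := by
    simp only [m3, m2, m1]
    simp (disch := omega) only [upd_ne, upd_eq]
  obtain ⟨m4, c4, r4, g10, g10', glow, hc4⟩ := towLoop_spec κ x O q (m 0) m3 e10 e11 e13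
  refine ⟨m4, _, r1.seq (r2.seq (r3.seq r4)), g10, g10', ?_, ?_⟩
  · intro i hi
    rw [glow i hi]
    simp only [m3, m2, m1]
    simp (disch := omega) only [upd_ne]
  · have c1 := cost_const_le κ (i := 13) (c := 1) (m := m) (S := 1) (by norm_num) (by simp)
    have c3 := cost_sub_le κ (i := 11) (j := 10) (k := 13) (m := m2) (S := Nat.size (m 0) + 1)
        (by norm_num) (by norm_num) (by norm_num)
        (by simp only [m2, m1]; rw [upd_eq, upd_ne (by omega)]; omega)
        (by simp only [m2, m1]; rw [upd_ne (by omega), upd_eq]; simp)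
    have := size_le_self (m 0)
    omega

end Pool.Agent.CTypes
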