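import Pool.Agent.CTypes.Copy

/-! A complexity type with a greatest degree. -/

namespace Pool.Agent.CTypes

theorem exp_bound (C k : ℕ) : ∃ N, ∀ n ≥ N, C * n ^ k + C ≤ 2 ^ n := by
  have h := tendsto_pow_const_div_const_pow_of_one_lt k (r := (2 : ℝ)) (by norm_num)
  have h2 : ∀ᶠ n : ℕ in Filter.atTop, (n : ℝ) ^ k / 2 ^ n < 1 / (2 * C + 1) :=
    h.eventually_lt_const (by positivity)
  obtain ⟨N, hN⟩ := Filter.eventually_atTop.1 h2
  refine ⟨max N 1, fun n hn => ?_⟩
  have h3 := hN n ((le_max_left _ _).trans hn)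
  have hn1 : 1 ≤ n := (le_max_right _ _).trans hn
  rw [div_lt_div_iff₀ (by positivity) (by positivity), one_mul] at h3
  have h4 : n ^ k * (2 * C + 1) < 2 ^ n := by exact_mod_cast h3
  have h5 : 1 ≤ n ^ k := Nat.one_le_pow _ _ hn1
  nlinarith

theorem exists_prog (P : Prog) : ∃ q, toProg (prog q) = P := prog_surjective P

/-- The complexity type of `K` has a greatest degree. -/
theorem typeA (κ : Criterion) (T : Set (ℕ → ℕ))
    (hT : ∀ f : ℕ → ℕ, (∀ n, n ≤ f n) → ExactlyConstructible κ f →
      (κ = .uniform → ValueConstructible κ f) → f ∈ T) :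
    ∃ K ∈ ComputableSets κ, K ∉ PTIME κ ∧ ∀ B, LeC κ T B K → LeTp κ B K := by
  obtain ⟨φ, h, wK, wP, pK, hK, hP, h1, h2, h3⟩ := exists_phi κ
  have hmono : Monotone φ := monotone_nat_of_le_succ fun n => (h1 n).trans (h2 n)
  have hdec : ∀ z : Str, ∃ b c, Halts κ wK.toProg ∅ z b c ∧
      (b = true ↔ z ∈ {z : Str | accK z (φ (z.length - 1)) = true}) ∧
        (z ≠ [] → c ≤ φ z.length) := hK
  refine ⟨{z | accK z (φ (z.length - 1)) = true}, ⟨wK.toProg, pK.toProg, fun z => ?_⟩, ?_, ?_⟩
  · obtain ⟨b, c, hb, hb', -⟩ := hdec z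
    exact ⟨b, c, hb, hb'⟩
  · rintro ⟨k, Q, hQ, C, hC⟩
    obtain ⟨q, rfl⟩ := exists_prog Q
    obtain ⟨N, hN⟩ := exp_bound (2 * C) k
    obtain ⟨m, hm⟩ : ∃ m, m = Nat.pair q N := ⟨_, rfl⟩
    have hmN : N ≤ m := hm ▸ Nat.right_le_pair q N
    have hm1 : m.unpair.1 = q := by rw [hm, Nat.unpair_pair]
    obtain ⟨z, hz⟩ : ∃ z : Str, z = true :: (List.replicate m true ++ false :: []) := ⟨_, rfl⟩
    have hzl : z.length = m + 2 := by rw [hz]; simp
    obtain ⟨b, c, hb, hb', hc⟩ := hC z
    have hc2 : c ≤ φ (z.length - 1) := by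
      have e1 := hN (m + 2) (by omega)
      have e2 := h3 (m + 1)
      rw [hzl] at hc ⊢
      have e3 : m + 2 - 1 = m + 1 := by omega
      rw [e3]
      have e4 : 2 ^ (m + 2) = 2 * 2 ^ (m + 1) := by ring
      rw [e4] at e1
      nlinarith
    have hU := hb.U hc2
    have hacc : accK z (φ (z.length - 1)) =
        decide (U (prog q) z (φ (z.length - 1)) ≠ some true) := by
      unfold accK
      have e1 : z.headI = true := by rw [hz]; rfl
      have e2 : lead z.tail = m := by rw [hz]; exact lead_eq m []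
      rw [if_pos e1, e2, hm1]
    rw [Set.mem_ofPred_eq, hacc, hU] at hb'
    cases b <;> simp at hb'
  · intro B hB
    have hh : h ∈ T := hT h (fun n => (Nat.lt_two_pow_self.le.trans (h3 n)).trans (h1 n))
      hP.exact (by rintro rfl; exact hP.value)
    have hKh : {z : Str | accK z (φ (z.length - 1)) = true} ∈ DTIME κ h := by
      obtain ⟨b0, c0, hb0, hb0', -⟩ := hdec []
      refine ⟨wK.toProg, pK.toProg, 1 + c0, fun z => ?_⟩
      obtain ⟨b, c, hb, hb', hc⟩ := hdec z
      refine ⟨b, c, hb, hb', ?_⟩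
      rcases eq_or_ne z [] with rfl | hz
      · have := (hb.unique hb0).2
        nlinarith [Nat.zero_le ((1 + c0) * h (List.length ([] : Str)))]
      · have e1 := hc hz
        have e2 := h1 z.length
        nlinarith [Nat.zero_le (c0 * h z.length)]
    obtain ⟨Q, hQ, C, hC⟩ := hB h hh hKh
    obtain ⟨q, rfl⟩ := exists_prog Q
    obtain ⟨m, hm⟩ : ∃ m, m = Nat.pair q (2 * C) := ⟨_, rfl⟩
    have hmN : 2 * C ≤ m := hm ▸ Nat.right_le_pair q (2 * C)
    have hm1 : m.unpair.1 = q := by rw [hm, Nat.unpair_pair]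
    refine leTp_of_prefix (false :: (List.replicate m true ++ [false])) fun x => ?_
    obtain ⟨z, hz⟩ : ∃ z : Str, z = false :: (List.replicate m true ++ false :: x) := ⟨_, rfl⟩
    have hz' : false :: (List.replicate m true ++ [false]) ++ x = z := by
      rw [hz]; simp
    rw [hz']
    have hzl : z.length = x.length + m + 2 := by
      rw [hz]
      simp only [List.length_cons, List.length_append, List.length_replicate]
      omega
    obtain ⟨b, c, hb, hb', hc⟩ := hC x
    have hc2 : c ≤ z.length * φ (z.length - 1) := by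
      have e1 : φ (x.length + 1) ≤ φ (z.length - 1) := hmono (by omega)
      have e2 := h2 x.length
      have e3 := h1 x.length
      have e4 := h3 x.length
      have e5 : 1 ≤ 2 ^ x.length := Nat.one_le_two_pow
      have e6 : 2 * C ≤ z.length := by omega
      have e7 : 2 * C * h x.length ≤ z.length * φ (z.length - 1) :=
        Nat.mul_le_mul e6 (by omega)
      nlinarith
    have hU := hb.U hc2
    have hacc : accK z (φ (z.length - 1)) =
        decide (U (prog q) x (z.length * φ (z.length - 1)) = some true) := by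
      unfold accK
      have e1 : z.headI ≠ true := by rw [hz]; simp
      have e2 : lead z.tail = m := by rw [hz]; exact lead_eq m x
      have e3 : z.tail.drop (m + 1) = x := by rw [hz]; exact drop_lead m x
      rw [if_neg e1, e2, hm1, e3]
    rw [Set.mem_ofPred_eq, hacc, hU, ← hb']
    simp

end Pool.Agent.CTypes
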