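import Pool.Agent.CTypes.NoBound

/-! A complexity type without a greatest degree. -/

namespace Pool.Agent.CTypes

open Primrec

/-! ### Deciders testing the length first -/

/-- Decide with `w` if the length of the input is a tower, reject otherwise. -/
def decD (j : ℕ) (w : W) : W :=
  .seq dtestW (.ite 10 (.const 0 0) (.seq (.const 8 j) w))

theorem decD_plain {j : ℕ} {w : W} (hw : w.Plain) : (decD j w).Plain :=
  ⟨dtestW_pure.plain, trivial, trivial, hw⟩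

theorem decD_out {j : ℕ} {w : W} (κ x O q) {m : ℕ → ℕ} (h : m 0 ∉ D) :
    ∃ m' c, Runs κ x O (decD j w) m q m' q c ∧ m' 0 = 0 ∧ c ≤ 20000 * m 0 + 1100 := by
  obtain ⟨m1, c1, r1, g1, g1', -, hc1⟩ := dtestW_spec κ x O q m
  have h10 : m1 10 = 0 := by
    have : m1 10 ≠ 1 := mt g1.1 h
    omega
  refine ⟨_, _, r1.seq (Runs.ite_zero h10 (Runs.const 0 0 m1 q)), upd_eq, ?_⟩
  have c2 := cost_jz_le κ (i := 10) (m := m1) (S := 0) (by norm_num) (by rw [h10]; simp)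
  have c3 := cost_const_le κ (i := 0) (c := 0) (m := m1) (S := 0) (by norm_num) (by simp)
  omega

theorem decD_in {j : ℕ} {w : W} {x : Str} {y : ℕ}
    (hw : ∀ m : ℕ → ℕ, m 0 = x.length → ∃ m', Rx x (.seq (.const 8 j) w) m m' ∧ m' 0 = y)
    (κ O q) {m : ℕ → ℕ} (hm : m 0 = x.length) (h : m 0 ∈ D) :
    ∃ m' c, Runs κ x O (decD j w) m q m' q c ∧ m' 0 = y := by
  obtain ⟨m1, c1, r1, g1, -, g2, -⟩ := dtestW_spec κ x O q m
  obtain ⟨m2, r2, e2⟩ := hw m1 (by rw [g2 0 (by norm_num), hm])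
  obtain ⟨c2, r2⟩ := r2 κ O q
  have h10 : m1 10 ≠ 0 := by rw [g1.2 h]; norm_num
  exact ⟨m2, _, r1.seq (Runs.ite_pos h10 r2), e2⟩

/-! ### The clock -/

theorem countLoop_le (κ x O q) (v : ℕ) : ∀ m : ℕ → ℕ, m 0 = v → m 1 = 1 →
    ∃ m' c, Runs κ x O (.loop 0 (.sub 0 0 1)) m q m' q c ∧ v ≤ c ∧
      c ≤ (v + 1) * (50 + 4 * v) ∧ m' 0 = 0 := by
  induction v with
  | zero =>
    intro m h0 _
    refine ⟨m, _, Runs.loop_zero h0, Nat.zero_le _, ?_, h0⟩
    have := cost_jz_le κ (i := 0) (m := m) (S := 0) (by norm_num) (by rw [h0]; simp)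
    omega
  | succ v ih =>
    intro m h0 h1
    obtain ⟨m', c, hr, hc, hc', hz⟩ := ih (Function.update m 0 (m 0 - m 1))
      (by rw [upd_eq, h0, h1]; omega) (by rw [upd_ne (by omega), h1])
    refine ⟨m', _, Runs.loop_pos (by omega) (Runs.sub 0 0 1 m q) hr, ?_, ?_, hz⟩
    · simp only [Instr.cost]
      omega
    · have c1 := cost_jz_le κ (i := 0) (m := m) (S := v + 1) (by norm_num)
        (by rw [h0]; exact size_le_self _)
      have c2 := cost_sub_le κ (i := 0) (j := 0) (k := 1) (m := m) (S := v + 1) (by norm_num)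
        (by norm_num) (by norm_num) (by rw [h0]; exact size_le_self _) (by rw [h1]; simp)
      nlinarith

theorem countW_le (κ x O q) (m : ℕ → ℕ) :
    ∃ m' c, Runs κ x O countW m q m' q c ∧ m 0 ≤ c ∧ c ≤ (m 0 + 1) * (70 + 4 * m 0) ∧
      m' 0 = 0 := by
  obtain ⟨m', c, hr, hc, hc', hz⟩ := countLoop_le κ x O q (m 0) (Function.update m 1 1)
    (upd_ne (by omega)) upd_eq
  refine ⟨m', _, (Runs.const 1 1 m q).seq hr, by omega, ?_, hz⟩
  have c1 := cost_const_le κ (i := 1) (c := 1) (m := m) (S := 1) (by norm_num) (by simp)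
  nlinarith

/-- The clock counting down from the value of `w` on towers. -/
def clkD (w : W) : W := .seq dtestW (.ite 10 countW (.seq w countW))

theorem clkD_pure {w : W} (hw : w.Pure) : (clkD w).Pure :=
  ⟨dtestW_pure, countW_pure, hw, countW_pure⟩

theorem exists_clockD {u : ℕ → ℕ} (hu : Computable u) (hun : ∀ n, n ≤ u n) (κ : Criterion) :
    ∃ f : ℕ → ℕ, (∃ w, IsClock κ w f) ∧ (∀ n, n ≤ f n) ∧ (∀ n ∈ D, u n ≤ f n) ∧
      ∃ C, ∀ n ∉ D, f n ≤ C * n ^ 2 + C := by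
  obtain ⟨w, pw, N, -, hw⟩ := cmp_of_partrec (Partrec.nat_iff.1 hu.partrec)
  have key : ∀ n : ℕ, ∃ m' c, Runs κ [] ∅ (clkD w) (mem0 n) [] m' [] c ∧ n ≤ c ∧
      (n ∈ D → u n ≤ c) ∧ (n ∉ D → c ≤ 30000 * n ^ 2 + 30000) ∧ m' 0 = 0 := by
    intro n
    obtain ⟨m1, c1, r1, g1, g1', g2, hc1⟩ := dtestW_spec κ [] ∅ [] (mem0 n)
    rw [mem0_zero] at g1 hc1
    have e0 : m1 0 = n := by rw [g2 0 (by norm_num), mem0_zero]
    by_cases hn : n ∈ D
    · obtain ⟨m2, r2, e2, -⟩ := hw m1 (u n) (by rw [e0]; exact Part.mem_some _)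
      obtain ⟨c2, r2⟩ := r2 κ [] ∅ []
      obtain ⟨m3, c3, r3, hc3, -, hz⟩ := countW_le κ [] ∅ [] m2
      rw [e2] at hc3
      have h10 : m1 10 ≠ 0 := by rw [g1.2 hn]; norm_num
      refine ⟨m3, _, r1.seq (Runs.ite_pos h10 (r2.seq r3)), ?_, fun _ => by omega,
        fun h => absurd hn h, hz⟩
      have := hun n
      omega
    · obtain ⟨m3, c3, r3, hc3, hc3', hz⟩ := countW_le κ [] ∅ [] m1
      rw [e0] at hc3 hc3'
      have h10 : m1 10 = 0 := by
        have : m1 10 ≠ 1 := mt g1.1 hn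
        omega
      refine ⟨m3, _, r1.seq (Runs.ite_zero h10 r3), by omega, fun h => absurd h hn,
        fun _ => ?_, hz⟩
      have c2 := cost_jz_le κ (i := 10) (m := m1) (S := 0) (by norm_num) (by rw [h10]; simp)
      have h2 : n ≤ n ^ 2 := Nat.le_self_pow (by norm_num) n
      nlinarith
  choose m' c hr h1 h2 h3 h4 using key
  refine ⟨fun n => c n + (Instr.jz 0 0).cost κ (m' n), ⟨clkD w,
    clkD_pure pw, fun n => ⟨m' n, c n, hr n, rfl⟩⟩, fun n => ?_, fun n hn => ?_, ?_⟩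
  · have := h1 n; simp only; omega
  · have := h2 n hn; simp only; omega
  · refine ⟨30016, fun n hn => ?_⟩
    have h5 := h3 n hn
    have h6 := cost_jz_le κ (i := 0) (m := m' n) (S := 0) (by norm_num) (by rw [h4 n]; simp)
    simp only
    nlinarith [Nat.zero_le (n ^ 2)]

end Pool.Agent.CTypes
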