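import Pool.Agent.CTypes.Dec

/-! The running time of a clock can be computed within a constant factor of that time (uniform
criterion). -/

namespace Pool.Agent.CTypes

/-- All registers used are below `N`. -/
def W.Below (N : ℕ) : W → Prop
  | .skip => True
  | .const i _ => i < N
  | .add i j k => i < N ∧ j < N ∧ k < N
  | .sub i j k => i < N ∧ j < N ∧ k < N
  | .read i j => i < N ∧ j < N
  | .write _ => True
  | .query i => i < N
  | .seq a b => a.Below N ∧ b.Below N
  | .ite i a b => i < N ∧ a.Below N ∧ b.Below N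
  | .loop i a => i < N ∧ a.Below N

theorem W.Below.mono {N N' : ℕ} (h : N ≤ N') {w : W} (hw : w.Below N) : w.Below N' := by
  induction w with
  | skip => trivial
  | const i c => exact lt_of_lt_of_le hw h
  | add i j k => exact ⟨hw.1.trans_le h, hw.2.1.trans_le h, hw.2.2.trans_le h⟩
  | sub i j k => exact ⟨hw.1.trans_le h, hw.2.1.trans_le h, hw.2.2.trans_le h⟩
  | read i j => exact ⟨hw.1.trans_le h, hw.2.trans_le h⟩
  | write b => trivial
  | query i => exact lt_of_lt_of_le hw h
  | seq a b ha hb => exact ⟨ha hw.1, hb hw.2⟩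
  | ite i a b ha hb => exact ⟨hw.1.trans_le h, ha hw.2.1, hb hw.2.2⟩
  | loop i a ha => exact ⟨hw.1.trans_le h, ha hw.2⟩

theorem W.exists_below (w : W) : ∃ N, w.Below N := by
  induction w with
  | skip => exact ⟨0, trivial⟩
  | const i c => exact ⟨i + 1, Nat.lt_succ_self i⟩
  | add i j k => exact ⟨i + j + k + 1, by simp only [W.Below]; omega⟩
  | sub i j k => exact ⟨i + j + k + 1, by simp only [W.Below]; omega⟩
  | read i j => exact ⟨i + j + 1, by simp only [W.Below]; omega⟩
  | write b => exact ⟨0, trivial⟩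
  | query i => exact ⟨i + 1, Nat.lt_succ_self i⟩
  | seq a b ha hb =>
    obtain ⟨N, hN⟩ := ha
    obtain ⟨N', hN'⟩ := hb
    exact ⟨N + N', hN.mono (by omega), hN'.mono (by omega)⟩
  | ite i a b ha hb =>
    obtain ⟨N, hN⟩ := ha
    obtain ⟨N', hN'⟩ := hb
    exact ⟨i + 1 + N + N', by omega, hN.mono (by omega), hN'.mono (by omega)⟩
  | loop i a ha =>
    obtain ⟨N, hN⟩ := ha
    exact ⟨i + 1 + N, by omega, hN.mono (by omega)⟩

/-- Counting one step. -/
def tick (N : ℕ) : W := .add N N (N + 1)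

/-- The program `w`, counting its steps in register `N`; register `N + 1` holds `1`. -/
def W.inst (N : ℕ) : W → W
  | .skip => .skip
  | .seq a b => .seq (a.inst N) (b.inst N)
  | .ite i a b => .seq (tick N) (.ite i (a.inst N) (.seq (tick N) (b.inst N)))
  | .loop i a => .seq (tick N) (.loop i (.seq (a.inst N) (.seq (tick N) (tick N))))
  | w => .seq (tick N) w

theorem W.inst_pure {N : ℕ} {w : W} (h : w.Pure) : (w.inst N).Pure := by
  induction w with
  | skip => trivial
  | const i c => exact ⟨trivial, trivial⟩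
  | add i j k => exact ⟨trivial, trivial⟩
  | sub i j k => exact ⟨trivial, trivial⟩
  | read i j => exact h.elim
  | write b => exact h.elim
  | query i => exact h.elim
  | seq a b ha hb => exact ⟨ha h.1, hb h.2⟩
  | ite i a b ha hb => exact ⟨trivial, ha h.1, trivial, hb h.2⟩
  | loop i a ha => exact ⟨trivial, ha h, trivial, trivial⟩

theorem tick_runs {x O N q} {M : ℕ → ℕ} (h : M (N + 1) = 1) :
    Runs .uniform x O (tick N) M q (Function.update M N (M N + 1)) q 1 := by
  have := Runs.add (κ := .uniform) (x := x) (O := O) N N (N + 1) M q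
  rw [h] at this
  exact this

theorem tick_inv {x O N q q' c} {M M' : ℕ → ℕ} (h : M (N + 1) = 1)
    (hr : Runs .uniform x O (tick N) M q M' q' c) :
    M' = Function.update M N (M N + 1) ∧ q' = q ∧ c = 1 := by
  cases hr
  rw [h]
  exact ⟨rfl, rfl, rfl⟩

/-- Relation between the memories of `w` and of `w.inst N`. -/
def Rel (N v : ℕ) (m M : ℕ → ℕ) : Prop := (∀ i < N, M i = m i) ∧ M (N + 1) = 1 ∧ M N = v

theorem Rel.tick {N v : ℕ} {m M : ℕ → ℕ} (h : Rel N v m M) :
    Rel N (v + 1) m (Function.update M N (M N + 1)) := by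
  refine ⟨fun i hi => ?_, ?_, ?_⟩
  · rw [upd_ne (by omega), h.1 i hi]
  · rw [upd_ne (by omega), h.2.1]
  · rw [upd_eq, h.2.2]

theorem Rel.upd {N v : ℕ} {m M : ℕ → ℕ} (h : Rel N v m M) {i a : ℕ} (hi : i < N) :
    Rel N v (Function.update m i a) (Function.update M i a) := by
  refine ⟨fun j hj => ?_, ?_, ?_⟩
  · by_cases hji : j = i
    · subst hji
      rw [upd_eq, upd_eq]
    · rw [upd_ne hji, upd_ne hji, h.1 j hj]
  · rw [upd_ne (by omega), h.2.1]
  · rw [upd_ne (by omega), h.2.2]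

theorem inst_runs {x O w m q m' q' c} (h : Runs .uniform x O w m q m' q' c) (N : ℕ)
    (hw : w.Pure) (hN : w.Below N) : ∀ (M : ℕ → ℕ) (v : ℕ), Rel N v m M →
    ∃ M' c', Runs .uniform x O (w.inst N) M q M' q' c' ∧ Rel N (v + c) m' M' ∧
      c' ≤ 3 * c := by
  induction h with
  | skip m q => exact fun M v h => ⟨M, 0, Runs.skip M q, h, le_rfl⟩
  | const i a m q =>
    intro M v h
    refine ⟨_, _, (tick_runs h.2.1).seq (Runs.const i a _ q), h.tick.upd hN, ?_⟩
    simp only [Instr.cost, Criterion.len]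
    omega
  | add i j k m q =>
    intro M v h
    have h2 := Runs.add (κ := .uniform) (x := x) (O := O) i j k
      (Function.update M N (M N + 1)) q
    rw [h.tick.1 j hN.2.1, h.tick.1 k hN.2.2] at h2
    refine ⟨_, _, (tick_runs h.2.1).seq h2, h.tick.upd hN.1, ?_⟩
    simp only [Instr.cost, Criterion.len]
    omega
  | sub i j k m q =>
    intro M v h
    have h2 := Runs.sub (κ := .uniform) (x := x) (O := O) i j k
      (Function.update M N (M N + 1)) q
    rw [h.tick.1 j hN.2.1, h.tick.1 k hN.2.2] at h2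
    refine ⟨_, _, (tick_runs h.2.1).seq h2, h.tick.upd hN.1, ?_⟩
    simp only [Instr.cost, Criterion.len]
    omega
  | read i j m q => exact hw.elim
  | write b m q => exact hw.elim
  | query i m q => exact hw.elim
  | @seq a b m q m₁ q₁ m₂ q₂ c₁ c₂ _ _ iha ihb =>
    intro M v h
    obtain ⟨M1, c1, r1, h1, e1⟩ := iha hw.1 hN.1 M v h
    obtain ⟨M2, c2, r2, h2, e2⟩ := ihb hw.2 hN.2 M1 _ h1
    refine ⟨M2, _, r1.seq r2, ?_, by omega⟩
    rw [← add_assoc]
    exact h2
  | @ite_zero i a b m q m₁ q₁ c hm _ ih =>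
    intro M v h
    obtain ⟨M1, c1, r1, h1, e1⟩ := ih hw.1 hN.2.1 _ _ h.tick
    refine ⟨M1, _, (tick_runs h.2.1).seq (Runs.ite_zero (by rw [h.tick.1 i hN.1, hm]) r1),
      ?_, ?_⟩
    · simp only [Instr.cost, Criterion.len]
      rw [show v + (1 + 0 + 0 + c) = v + 1 + c by omega]
      exact h1
    · simp only [Instr.cost, Criterion.len]
      omega
  | @ite_pos i a b m q m₁ q₁ c hm _ ih =>
    intro M v h
    obtain ⟨M1, c1, r1, h1, e1⟩ := ih hw.2 hN.2.2 _ _ h.tick.tick
    refine ⟨M1, _, (tick_runs h.2.1).seq (Runs.ite_pos (by rw [h.tick.1 i hN.1]; exact hm)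
      ((tick_runs h.tick.2.1).seq r1)), ?_, ?_⟩
    · simp only [Instr.cost, Criterion.len]
      rw [show v + (1 + 0 + 0 + (c + 1)) = v + 1 + 1 + c by omega]
      exact h1
    · simp only [Instr.cost, Criterion.len]
      omega
  | @loop_zero i a m q hm =>
    intro M v h
    refine ⟨_, _, (tick_runs h.2.1).seq (Runs.loop_zero (by rw [h.tick.1 i hN.1, hm])),
      h.tick, ?_⟩
    simp only [Instr.cost, Criterion.len]
    omega
  | @loop_pos i a m q m₁ q₁ m₂ q₂ c₁ c₂ hm _ _ iha ihl =>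
    intro M v h
    obtain ⟨M1, c1, r1, h1, e1⟩ := iha hw hN.2 _ _ h.tick
    obtain ⟨M2, c2, r2, h2, e2⟩ := ihl hw hN _ _ h1.tick
    rw [W.inst] at r2
    cases r2 with
    | seq r3 r4 =>
      obtain ⟨rfl, rfl, rfl⟩ := tick_inv h1.tick.2.1 r3
      refine ⟨M2, _, (tick_runs h.2.1).seq (Runs.loop_pos (by rw [h.tick.1 i hN.1]; exact hm)
        (r1.seq ((tick_runs h1.2.1).seq r3)) r4), ?_, ?_⟩
      · simp only [Instr.cost, Criterion.len]
        rw [show v + (1 + 0 + 0 + (c₁ + (1 + c₂))) = v + 1 + c₁ + 1 + c₂ by omega]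
        exact h2
      · simp only [Instr.cost, Criterion.len]
        omega

/-- `w` is a clock for `h`. -/
def IsClock (κ : Criterion) (w : W) (h : ℕ → ℕ) : Prop :=
  w.Pure ∧ ∀ n, ∃ m' c, Runs κ [] ∅ w (mem0 n) [] m' [] c ∧
    h n = c + (Instr.jz 0 0).cost κ m'

theorem IsClock.exact {κ w h} (hw : IsClock κ w h) : ExactlyConstructible κ h := by
  refine ⟨w.toProg, hw.1.plain.toProg, fun x => ?_⟩
  obtain ⟨m', c, hr, hc⟩ := hw.2 x.length
  have := hr.pure hw.1 x ∅
  rw [← init_mem] at this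
  rw [hc]
  exact ⟨_, this.halts⟩

theorem Steps.mem {κ P O x} {s' : State} {c : ℕ} (h : Steps κ P O x (init x) c s') :
    ∃ t, stateAt P O x t = s' ∧ costUpTo κ P O x t = c := by
  obtain ⟨t, ht, hc⟩ := h.iterate
  exact ⟨t, ht, hc⟩

theorem Runs.toProg_mem {κ x O w m' q' c} (h : Runs κ x O w (init x).mem [] m' q' c) :
    ∃ t b, fetch w.toProg (stateAt w.toProg O x t).pc = .halt b ∧
      (stateAt w.toProg O x t).mem = m' ∧
      costUpTo κ w.toProg O x t = c + (Instr.jz 0 0).cost κ m' := by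
  have hs : Seg w.toProg 0 (w.compile 0 ++ [.jz 0 (w.len + 2), .halt true, .halt false]) :=
    Seg.all _
  have h1 := h.steps w.toProg 0 hs.left
  have h2 := hs.right
  rw [W.length_compile] at h2
  have hj : fetch w.toProg (0 + w.len) = .jz 0 (w.len + 2) := h2.fetch
  have h3 : Seg w.toProg (0 + w.len + 1) [.halt true, .halt false] :=
    Seg.right (Q := [.jz 0 (w.len + 2)]) (Q' := [.halt true, .halt false]) h2
  have h4 : Seg w.toProg (0 + w.len + 1 + 1) [.halt false] :=
    Seg.right (Q := [.halt true]) (Q' := [.halt false]) h3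
  by_cases hm : m' 0 = 0
  · have h5 : Steps κ w.toProg O x ⟨0 + w.len, m', q'⟩ ((Instr.jz 0 0).cost κ m')
        ⟨0 + w.len + 1 + 1, m', q'⟩ :=
      steps_one hj (by simp [exec, hm]) rfl
    obtain ⟨t, ht, hc⟩ := (h1.trans h5).mem
    exact ⟨t, false, by rw [ht]; exact h4.fetch, by rw [ht], hc⟩
  · have h5 : Steps κ w.toProg O x ⟨0 + w.len, m', q'⟩ ((Instr.jz 0 0).cost κ m')
        ⟨0 + w.len + 1, m', q'⟩ :=
      steps_one hj (by simp [exec, hm]) rfl
    obtain ⟨t, ht, hc⟩ := (h1.trans h5).mem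
    exact ⟨t, true, by rw [ht]; exact h3.fetch, by rw [ht], hc⟩

theorem IsClock.value {w h} (hw : IsClock .uniform w h) : ValueConstructible .uniform h := by
  obtain ⟨N0, hN0⟩ := w.exists_below
  obtain ⟨N, hN⟩ : ∃ N, N = N0 + 1 := ⟨_, rfl⟩
  have hbel : w.Below N := hN0.mono (by omega)
  have hpure : (W.seq (.const (N + 1) 1) (.seq (w.inst N) (.seq (tick N) (mov 0 N)))).Pure :=
    ⟨trivial, W.inst_pure hw.1, trivial, mov_pure _ _⟩
  refine ⟨(W.seq (.const (N + 1) 1) (.seq (w.inst N) (.seq (tick N) (mov 0 N)))).toProg,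
    hpure.plain.toProg, 10, fun x => ?_⟩
  obtain ⟨m', c, hr, hc⟩ := hw.2 x.length
  have hrel : Rel N 0 (mem0 x.length) (Function.update (mem0 x.length) (N + 1) 1) := by
    refine ⟨fun i hi => upd_ne (by omega), upd_eq, ?_⟩
    rw [upd_ne (by omega), mem0_pos (by omega)]
  obtain ⟨M, c', r, hM, hc'⟩ := inst_runs hr N hw.1 hbel _ 0 hrel
  have r1 := Runs.const (κ := .uniform) (x := []) (O := ∅) (N + 1) 1 (mem0 x.length) []
  have r3 : Runs .uniform [] ∅ (tick N) M [] _ [] 1 := tick_runs hM.2.1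
  have r4 : Runs .uniform [] ∅ (mov 0 N) (Function.update M N (M N + 1)) []
      (Function.update (Function.update (Function.update M N (M N + 1)) 0 0) 0
        (Function.update (Function.update M N (M N + 1)) 0 0 0 +
          Function.update (Function.update M N (M N + 1)) 0 0 N)) [] _ :=
    (Runs.const 0 0 _ []).seq (Runs.add 0 0 N _ [])
  have hrun := (r1.seq (r.seq (r3.seq r4))).pure hpure x ∅
  rw [← init_mem] at hrun
  obtain ⟨t, b, h1, h2, h3⟩ := hrun.toProg_mem
  refine ⟨t, b, h1, ?_, ?_⟩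
  · rw [h2, upd_eq, upd_eq, upd_ne (by omega), upd_eq, hM.2.2, hc]
    simp only [Instr.cost, Criterion.len]
    omega
  · rw [h3, hc]
    simp only [Instr.cost, Criterion.len]
    omega

end Pool.Agent.CTypes
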