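import Pool.Agent.CTypes.Comb

/-! The bit vectors avoiding the predictions of reductions. -/

namespace Pool.Agent.CTypes

open Primrec

/-- Bit number `p` of `v`. -/
def bitN (v p : ℕ) : Bool := decide (v / 2 ^ p % 2 = 1)

theorem bitN_eq (v p : ℕ) : bitN v p = v.testBit p := by
  unfold bitN
  rw [Nat.testBit_eq_decide_div_mod_eq]

theorem prim_bitN {α : Type} [Primcodable α] {v p : α → ℕ} (hv : Primrec v) (hp : Primrec p) :
    Primrec fun a => bitN (v a) (p a) :=
  (prim_eqc (Primrec.nat_mod.comp (Primrec.nat_div.comp hv (prim_pow (const 2) hp))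
    (const 2)) 1).decide

/-- The number with binary digits `l`. -/
def valS : Str → ℕ
  | [] => 0
  | b :: l => 2 * valS l + (if b = true then 1 else 0)

/-- The number with binary digits `l` and a leading one. -/
def num : Str → ℕ
  | [] => 1
  | b :: l => 2 * num l + (if b = true then 1 else 0)

theorem prim_bit {α : Type} [Primcodable α] {f : α → ℕ} {b : α → Bool} (hf : Primrec f)
    (hb : Primrec b) : Primrec fun a => 2 * f a + (if b a = true then 1 else 0) :=
  prim_add (prim_mul (const 2) hf) (Primrec.ite (Primrec.eq.comp hb (const true)) (const 1)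
    (const 0))

theorem prim_valS : Primrec valS := by
  refine (Primrec.list_foldr (f := fun l : Str => l) (g := fun _ => (0 : ℕ))
    (h := fun (_ : Str) (p : Bool × ℕ) => 2 * p.2 + (if p.1 = true then 1 else 0))
    Primrec.id (const 0) (prim_bit (snd.comp snd) (fst.comp snd)).to₂).of_eq fun l => ?_
  induction l with
  | nil => rfl
  | cons b l ih => rw [List.foldr_cons, ih]; rfl

theorem prim_num : Primrec num := by
  refine (Primrec.list_foldr (f := fun l : Str => l) (g := fun _ => (1 : ℕ))
    (h := fun (_ : Str) (p : Bool × ℕ) => 2 * p.2 + (if p.1 = true then 1 else 0))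
    Primrec.id (const 1) (prim_bit (snd.comp snd) (fst.comp snd)).to₂).of_eq fun l => ?_
  induction l with
  | nil => rfl
  | cons b l ih => rw [List.foldr_cons, ih]; rfl

theorem valS_surj (L : ℕ) : ∀ r < 2 ^ L, ∃ y : Str, y.length = L ∧ valS y = r := by
  induction L with
  | zero =>
    intro r hr
    exact ⟨[], rfl, by simp only [pow_zero] at hr; simp only [valS]; omega⟩
  | succ L ih =>
    intro r hr
    obtain ⟨y, h1, h2⟩ := ih (r / 2) (by rw [pow_succ] at hr; omega)
    refine ⟨decide (r % 2 = 1) :: y, by simp [h1], ?_⟩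
    simp only [valS, decide_eq_true_eq]
    split_ifs <;> omega

theorem num_pos (q : Str) : 1 ≤ num q := by
  induction q with
  | nil => exact le_rfl
  | cons b q ih => simp only [num]; omega

theorem num_lt (q : Str) : num q < 2 ^ (q.length + 1) := by
  induction q with
  | nil => simp [num]
  | cons b q ih =>
    simp only [num, List.length_cons]
    rw [pow_succ]
    split_ifs <;> omega

theorem num_injective : Function.Injective num := by
  intro p
  induction p with
  | nil =>
    intro q h
    cases q with
    | nil => rfl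
    | cons b q =>
      simp only [num] at h
      have := num_pos q
      omega
  | cons a p ih =>
    intro q h
    cases q with
    | nil =>
      simp only [num] at h
      have := num_pos p
      omega
    | cons b q =>
      simp only [num] at h
      have h1 : num p = num q := by split_ifs at h <;> omega
      rw [ih h1]
      cases a <;> cases b <;> simp_all

theorem exists_bits (f : ℕ → Bool) (N : ℕ) : ∃ u < 2 ^ N, ∀ i < N, bitN u i = f i := by
  induction N with
  | zero => exact ⟨0, by simp, fun i hi => by omega⟩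
  | succ N ih =>
    obtain ⟨u, h1, h2⟩ := ih
    by_cases hf : f N = true
    · refine ⟨2 ^ N + u, by rw [pow_succ]; omega, fun i hi => ?_⟩
      rw [bitN_eq]
      rcases Nat.lt_succ_iff_lt_or_eq.1 hi with h | rfl
      · rw [Nat.testBit_two_pow_add_gt h, ← bitN_eq, h2 i h]
      · rw [Nat.testBit_two_pow_add_eq, Nat.testBit_lt_two_pow h1, hf]
        rfl
    · refine ⟨u, by rw [pow_succ]; omega, fun i hi => ?_⟩
      rcases Nat.lt_succ_iff_lt_or_eq.1 hi with h | rfl
      · exact h2 i h
      · rw [bitN_eq, Nat.testBit_lt_two_pow h1]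
        simpa using hf

/-! ### Predictions -/

/-- The prediction of the oracle machine `r` with oracle `O` and time bound `t`. -/
def lev (r : List Raw) (t : ℕ) (O : Str → Bool) (q : Str) : Bool :=
  decide (answer O q r t = some true)

theorem prim_lev {α : Type} [Primcodable α] {r : α → List Raw} (hr : Primrec r) {t : α → ℕ}
    (ht : Primrec t) {O : α → Str → Bool} (hO : Primrec₂ O) :
    Primrec₂ fun a q => lev (r a) (t a) (O a) q := by
  have h := prim_answer (α := α × Str) (O := fun p q' => O p.1 q')
    (hO.comp (fst.comp fst) snd).to₂ (x := fun p => p.2) snd (r := fun p => r p.1)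
    (hr.comp fst) (t := fun p => t p.1) (ht.comp fst)
  exact (Primrec.eq.comp h (const (some true))).decide.to₂

/-- The parameters of stage `s`. -/
def par (s i : ℕ) : ℕ := (Denumerable.ofNat (List ℕ) s.unpair.1).getD i 0

theorem prim_par {α : Type} [Primcodable α] {s i : α → ℕ} (hs : Primrec s) (hi : Primrec i) :
    Primrec fun a => par (s a) (i a) :=
  prim_getD ((Primrec.ofNat (List ℕ)).comp (fst.comp (Primrec.unpair.comp hs))) hi

theorem exists_stage (f : ℕ → ℕ) (k N : ℕ) : ∃ s ≥ N, ∀ i < k, par s i = f i := by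
  refine ⟨Nat.pair (Encodable.encode ((List.range k).map f)) N, Nat.right_le_pair _ _,
    fun i hi => ?_⟩
  unfold par
  rw [Nat.unpair_pair, Denumerable.ofNat_encode, List.getD_eq_getElem _ _ (by simpa using hi)]
  simp

theorem prim_tow : Primrec tow := by
  refine (Primrec.nat_rec₁ 1 (f := fun _ n => 2 ^ n)
    (prim_pow (const 2) snd).to₂).of_eq fun n => ?_
  induction n with
  | zero => rfl
  | succ n ih => simp only [tow, ← ih]

/-- The oracle coded by `u` on strings of length at most `tow s`, and by the machine with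
number `k` above. -/
def baseO (s u : ℕ) (q : Str) : Bool :=
  if q.length ≤ tow s then bitN u (num q)
  else decide (U (prog (par s 24)) q (2 ^ tow s - 1) = some true)

theorem prim_baseO {α : Type} [Primcodable α] {s u : α → ℕ} (hs : Primrec s) (hu : Primrec u) :
    Primrec₂ fun a q => baseO (s a) (u a) q := by
  have h1 : Primrec fun p : α × Str => tow (s p.1) := prim_tow.comp (hs.comp fst)
  have h2 : Primrec fun p : α × Str =>
      decide (U (prog (par (s p.1) 24)) p.2 (2 ^ tow (s p.1) - 1) = some true) :=
    (Primrec.eq.comp (prim_U (α := α × Str) snd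
      (prim_prog.comp (prim_par (hs.comp fst) (const 24)))
      (prim_sub (prim_pow (const 2) h1) (const 1))) (const (some true))).decide
  have h3 : Primrec fun p : α × Str => baseO (s p.1) (u p.1) p.2 := by
    unfold baseO
    exact Primrec.ite (Primrec.nat_le.comp (Primrec.list_length.comp snd) h1)
      (prim_bitN (hu.comp fst) (prim_num.comp snd)) h2
  exact h3.to₂

/-- The prediction for the set number `j`. -/
def predO (s u j : ℕ) : Str → Bool :=
  lev (prog (par s (3 * j + 2))) (2 ^ tow s - 1)
    (lev (prog (par s (3 * j + 1))) (2 ^ tow s - 1)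
      (lev (prog (par s (3 * j))) (2 ^ tow s - 1) (baseO s u)))

theorem prim_predO {α : Type} [Primcodable α] {s u j : α → ℕ} (hs : Primrec s)
    (hu : Primrec u) (hj : Primrec j) : Primrec₂ fun a q => predO (s a) (u a) (j a) q := by
  have ht : Primrec fun a => 2 ^ tow (s a) - 1 :=
    prim_sub (prim_pow (const 2) (prim_tow.comp hs)) (const 1)
  have h3 : Primrec fun a => 3 * j a := prim_mul (const 3) hj
  exact prim_lev (prim_prog.comp (prim_par hs (prim_add h3 (const 2)))) ht
    (prim_lev (prim_prog.comp (prim_par hs (prim_add h3 (const 1)))) ht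
      (prim_lev (prim_prog.comp (prim_par hs h3)) ht (prim_baseO hs hu)))

/-- `v` differs from the prediction for each `u`. -/
def Good (s v : ℕ) : Prop :=
  ∀ u ∈ List.range (2 ^ 2 ^ (tow s + 1)), ∃ y ∈ strs (tow s - 1), ∃ j ∈ List.range 8,
    bitN v (8 * valS y + j) ≠ predO s u j (true :: y)

theorem prim_good : PrimrecRel Good := by
  -- the parameters are `(s, v)`, then `u`, then `y`, then `j`
  let R0 : ℕ → Str × ℕ × ℕ × ℕ → Prop := fun j p =>
    bitN p.2.2.2 (8 * valS p.1 + j) ≠ predO p.2.2.1 p.2.1 j (true :: p.1)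
  have h0 : PrimrecRel R0 := by
    refine (Primrec.eq.comp ?_ ?_).not
    · exact prim_bitN (α := ℕ × Str × ℕ × ℕ × ℕ) (snd.comp (snd.comp (snd.comp snd)))
        (prim_add (prim_mul (const 8) (prim_valS.comp (fst.comp snd))) fst)
    · exact (prim_predO (α := ℕ × Str × ℕ × ℕ × ℕ) (fst.comp (snd.comp (snd.comp snd)))
        (fst.comp (snd.comp snd)) fst).comp Primrec.id
        (Primrec.list_cons.comp (const true) (fst.comp snd))
  let R1 : Str → ℕ × ℕ × ℕ → Prop := fun y p => ∃ j ∈ List.range 8, R0 j (y, p)
  have h1 : PrimrecRel R1 :=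
    h0.exists_mem_list.comp (const (List.range 8)) (fst.pair snd)
  let R2 : ℕ → ℕ × ℕ → Prop := fun u p => ∃ y ∈ strs (tow p.1 - 1), R1 y (u, p)
  have h2 : PrimrecRel R2 :=
    h1.exists_mem_list.comp (prim_strs.comp (prim_sub (prim_tow.comp (fst.comp snd))
      (const 1))) (fst.pair snd)
  exact (h2.forall_mem_list.comp (Primrec.list_range.comp (prim_pow (const 2)
    (prim_pow (const 2) (Primrec.succ.comp (prim_tow.comp fst))))) (fst.pair snd) :
      PrimrecPred fun p : ℕ × ℕ => ∀ u ∈ List.range (2 ^ 2 ^ (tow p.1 + 1)), R2 u (p.1, p.2))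

theorem exists_good (s : ℕ) : ∃ v ≤ 2 ^ 2 ^ (tow s + 1), Good s v := by
  by_contra hc
  push Not at hc
  have h1 : ∀ v : Fin (2 ^ 2 ^ (tow s + 1) + 1), ∃ u : Fin (2 ^ 2 ^ (tow s + 1)),
      ∀ y ∈ strs (tow s - 1), ∀ j ∈ List.range 8,
        bitN v (8 * valS y + j) = predO s u j (true :: y) := by
    intro v
    have h2 := hc v (by have := v.2; omega)
    unfold Good at h2
    push Not at h2
    obtain ⟨u, hu, h3⟩ := h2
    exact ⟨⟨u, List.mem_range.1 hu⟩, h3⟩
  choose F hF using h1
  obtain ⟨v, v', hne, heq⟩ := Fintype.exists_ne_map_eq_of_card_lt F (by simp)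
  refine hne (Fin.ext (Nat.eq_of_testBit_eq fun p => ?_))
  have hB : 2 ^ (tow s + 1) + 1 ≤ 2 ^ (tow s + 2) := by
    have : 1 ≤ 2 ^ (tow s + 1) := Nat.one_le_two_pow
    rw [pow_succ 2 (tow s + 1)]
    omega
  have hlt : ∀ v : Fin (2 ^ 2 ^ (tow s + 1) + 1), (v : ℕ) < 2 ^ 2 ^ (tow s + 2) := by
    intro v
    have h2 : 2 ^ (2 ^ (tow s + 1) + 1) ≤ 2 ^ 2 ^ (tow s + 2) :=
      Nat.pow_le_pow_right (by norm_num) hB
    have h3 := Nat.two_pow_pos (2 ^ (tow s + 1))
    rw [pow_succ] at h2
    have := v.2
    omega
  rcases Nat.lt_or_ge p (2 ^ (tow s + 2)) with hp | hp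
  · have ht := tow_pos s
    obtain ⟨y, hy1, hy2⟩ := valS_surj (tow s - 1) (p / 8) (by
      have e : tow s + 2 = tow s - 1 + 3 := by omega
      rw [e, pow_add] at hp
      omega)
    have hj : p % 8 ∈ List.range 8 := List.mem_range.2 (by omega)
    have e1 := hF v y (mem_strs.2 hy1) (p % 8) hj
    have e2 := hF v' y (mem_strs.2 hy1) (p % 8) hj
    rw [hy2, bitN_eq] at e1 e2
    have e3 : 8 * (p / 8) + p % 8 = p := by omega
    rw [e3] at e1 e2
    rw [e1, e2, heq]
  · rw [Nat.testBit_lt_two_pow ((hlt v).trans_le (Nat.pow_le_pow_right (by norm_num) hp)),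
      Nat.testBit_lt_two_pow ((hlt v').trans_le (Nat.pow_le_pow_right (by norm_num) hp))]

open Classical in
/-- The vector of stage `s`. -/
noncomputable def vec (s : ℕ) : ℕ := Nat.findGreatest (Good s) (2 ^ 2 ^ (tow s + 1))

theorem good_vec (s : ℕ) : Good s (vec s) := by
  classical
  obtain ⟨v, hv, hg⟩ := exists_good s
  unfold vec
  exact Nat.findGreatest_spec hv hg

theorem prim_vec : Primrec vec := by
  classical
  unfold vec
  exact Primrec.nat_findGreatest (prim_pow (const 2) (prim_pow (const 2)
    (Primrec.succ.comp prim_tow))) prim_good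

/-- The inverse of the tower function. -/
def tinv (n : ℕ) : ℕ := ((List.range (n + 1)).map fun s => if tow s < n then 1 else 0).sum

theorem prim_tinv : Primrec tinv := by
  refine prim_lsum (Primrec.list_range.comp Primrec.succ) ?_
  exact (Primrec.ite (Primrec.nat_lt.comp (prim_tow.comp snd) fst) (const 1) (const 0)).to₂

theorem tinv_tow (s : ℕ) : tinv (tow s) = s := by
  unfold tinv
  have h : ∀ k, ((List.range k).map fun t => if tow t < tow s then 1 else 0).sum = min k s := by
    intro k
    induction k with
    | zero => simp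
    | succ k ih =>
      rw [List.range_succ, List.map_append, List.sum_append, ih]
      simp only [List.map_cons, List.map_nil, List.sum_cons, List.sum_nil, add_zero]
      have hk : tow k < tow s ↔ k < s := tow_strictMono.lt_iff_lt
      by_cases h : k < s
      · rw [if_pos (hk.2 h)]
        omega
      · rw [if_neg (mt hk.1 h)]
        omega
  rw [h]
  have := le_tow s
  omega

end Pool.Agent.CTypes
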