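import Pool.Agent.CTypes.Model

/-! A structured programming language and its compilation to random access machines. -/

namespace Pool.Agent.CTypes

/-! ### Finite computations -/

/-- `Steps s c s'`: a finite computation of total cost `c` leads from `s` to `s'`. -/
inductive Steps (κ : Criterion) (P : Prog) (O : Set Str) (x : Str) : State → ℕ → State → Prop
  | refl (s : State) : Steps κ P O x s 0 s
  | head {s s' : State} {c : ℕ} :
      Steps κ P O x (step P O x s) c s' → Steps κ P O x s ((fetch P s.pc).cost κ s.mem + c) s'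

theorem Steps.trans {κ P O x} {s s' s'' : State} {c c' : ℕ} (h : Steps κ P O x s c s')
    (h' : Steps κ P O x s' c' s'') : Steps κ P O x s (c + c') s'' := by
  induction h with
  | refl s => simpa using h'
  | head _ ih => rw [add_assoc]; exact Steps.head (ih h')

theorem Steps.iterate {κ P O x} {s s' : State} {c : ℕ} (h : Steps κ P O x s c s') :
    ∃ t, (step P O x)^[t] s = s' ∧
      ∑ k ∈ Finset.range t, (fetch P ((step P O x)^[k] s).pc).cost κ ((step P O x)^[k] s).mem
        = c := by
  induction h with
  | refl s => exact ⟨0, rfl, rfl⟩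
  | @head s s' c _ ih =>
    obtain ⟨t, ht, hc⟩ := ih
    refine ⟨t + 1, by rw [Function.iterate_succ_apply]; exact ht, ?_⟩
    rw [Finset.sum_range_succ', ← hc, add_comm]
    rfl

theorem Steps.halts {κ P O x} {s' : State} {c : ℕ} {b : Bool}
    (h : Steps κ P O x (init x) c s') (hb : fetch P s'.pc = .halt b) : Halts κ P O x b c := by
  obtain ⟨t, ht, hc⟩ := h.iterate
  exact ⟨t, by unfold stateAt; rw [ht]; exact hb, hc⟩

/-! ### Segments of programs -/

/-- `Q` is the segment of `P` starting at address `off`. -/
def Seg (P : Prog) (off : ℕ) (Q : Prog) : Prop := ∃ A B, P = A ++ (Q ++ B) ∧ A.length = off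

theorem Seg.left {P off Q Q'} (h : Seg P off (Q ++ Q')) : Seg P off Q := by
  obtain ⟨A, B, rfl, h⟩ := h
  exact ⟨A, Q' ++ B, by simp, h⟩

theorem Seg.right {P off Q Q'} (h : Seg P off (Q ++ Q')) : Seg P (off + Q.length) Q' := by
  obtain ⟨A, B, rfl, rfl⟩ := h
  exact ⟨A ++ Q, B, by simp, by simp⟩

theorem Seg.fetch {P off I Q} (h : Seg P off (I :: Q)) : fetch P off = I := by
  obtain ⟨A, B, rfl, rfl⟩ := h
  simp [CTypes.fetch]

theorem Seg.all (P : Prog) : Seg P 0 P := ⟨[], [], by simp, rfl⟩

/-! ### The language -/

/-- Structured programs. -/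
inductive W
  | skip
  | const (i c : ℕ)
  | add (i j k : ℕ)
  | sub (i j k : ℕ)
  | read (i j : ℕ)
  | write (b : Bool)
  | query (i : ℕ)
  | seq (a b : W)
  | ite (i : ℕ) (a b : W)
  | loop (i : ℕ) (a : W)

/-- Length of the compiled program. -/
def W.len : W → ℕ
  | .skip => 0
  | .const _ _ => 1
  | .add _ _ _ => 1
  | .sub _ _ _ => 1
  | .read _ _ => 1
  | .write _ => 1
  | .query _ => 1
  | .seq a b => a.len + b.len
  | .ite _ a b => 1 + b.len + 1 + a.len
  | .loop _ a => 1 + a.len + 1

/-- Compilation, for a program placed at address `off`. -/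
def W.compile : W → ℕ → Prog
  | .skip, _ => []
  | .const i c, _ => [.const i c]
  | .add i j k, _ => [.add i j k]
  | .sub i j k, _ => [.sub i j k]
  | .read i j, _ => [.read i j]
  | .write b, _ => [.write b]
  | .query i, _ => [.query i]
  | .seq a b, off => a.compile off ++ b.compile (off + a.len)
  | .ite i a b, off =>
      [.jz i (off + 1 + b.len + 1)] ++ (b.compile (off + 1) ++
        ([.jmp (off + 1 + b.len + 1 + a.len)] ++ a.compile (off + 1 + b.len + 1)))
  | .loop i a, off => [.jz i (off + 1 + a.len + 1)] ++ (a.compile (off + 1) ++ [.jmp off])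

theorem W.length_compile (w : W) : ∀ off, (w.compile off).length = w.len := by
  induction w with
  | skip => intro; rfl
  | const => intro; rfl
  | add => intro; rfl
  | sub => intro; rfl
  | read => intro; rfl
  | write => intro; rfl
  | query => intro; rfl
  | seq a b ha hb => intro off; simp [W.compile, W.len, ha, hb]
  | ite i a b ha hb => intro off; simp [W.compile, W.len, ha, hb]; omega
  | loop i a ha => intro off; simp [W.compile, W.len, ha]; omega

open Classical in
/-- Big-step semantics of structured programs with costs. -/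
inductive Runs (κ : Criterion) (x : Str) (O : Set Str) :
    W → (ℕ → ℕ) → Str → (ℕ → ℕ) → Str → ℕ → Prop
  | skip (m q) : Runs κ x O .skip m q m q 0
  | const (i c m q) : Runs κ x O (.const i c) m q (Function.update m i c) q
      ((Instr.const i c).cost κ m)
  | add (i j k m q) : Runs κ x O (.add i j k) m q (Function.update m i (m j + m k)) q
      ((Instr.add i j k).cost κ m)
  | sub (i j k m q) : Runs κ x O (.sub i j k) m q (Function.update m i (m j - m k)) q
      ((Instr.sub i j k).cost κ m)
  | read (i j m q) : Runs κ x O (.read i j) m q (Function.update m i (bitAt x (m j))) q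
      ((Instr.read i j).cost κ m)
  | write (b m q) : Runs κ x O (.write b) m q m (q ++ [b]) ((Instr.write b).cost κ m)
  | query (i m q) : Runs κ x O (.query i) m q (Function.update m i (if q ∈ O then 1 else 0)) []
      ((Instr.query i).cost κ m)
  | seq {a b m q m₁ q₁ m₂ q₂ c₁ c₂} : Runs κ x O a m q m₁ q₁ c₁ → Runs κ x O b m₁ q₁ m₂ q₂ c₂ →
      Runs κ x O (.seq a b) m q m₂ q₂ (c₁ + c₂)
  | ite_zero {i a b m q m₁ q₁ c} : m i = 0 → Runs κ x O a m q m₁ q₁ c →
      Runs κ x O (.ite i a b) m q m₁ q₁ ((Instr.jz i 0).cost κ m + c)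
  | ite_pos {i a b m q m₁ q₁ c} : m i ≠ 0 → Runs κ x O b m q m₁ q₁ c →
      Runs κ x O (.ite i a b) m q m₁ q₁ ((Instr.jz i 0).cost κ m + (c + 1))
  | loop_zero {i a m q} : m i = 0 → Runs κ x O (.loop i a) m q m q ((Instr.jz i 0).cost κ m)
  | loop_pos {i a m q m₁ q₁ m₂ q₂ c₁ c₂} : m i ≠ 0 → Runs κ x O a m q m₁ q₁ c₁ →
      Runs κ x O (.loop i a) m₁ q₁ m₂ q₂ c₂ →
      Runs κ x O (.loop i a) m q m₂ q₂ ((Instr.jz i 0).cost κ m + (c₁ + (1 + c₂)))

theorem steps_one {κ P O x} {pc : ℕ} {m q} {I : Instr} {s' : State} {c : ℕ}
    (h : fetch P pc = I) (h' : exec O x ⟨pc, m, q⟩ I = s') (hc : I.cost κ m = c) :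
    Steps κ P O x ⟨pc, m, q⟩ c s' := by
  have : step P O x ⟨pc, m, q⟩ = s' := by
    unfold step; rw [h]; exact h'
  have h2 := Steps.head (κ := κ) (P := P) (O := O) (x := x) (s := ⟨pc, m, q⟩)
    (Steps.refl (step P O x ⟨pc, m, q⟩))
  rw [this] at h2
  simp only [h, add_zero, hc] at h2
  exact h2

theorem Runs.steps {κ x O w m q m' q' c} (h : Runs κ x O w m q m' q' c) :
    ∀ P off, Seg P off (w.compile off) → Steps κ P O x ⟨off, m, q⟩ c ⟨off + w.len, m', q'⟩ := by
  induction h with
  | skip m q => intro P off _; exact Steps.refl _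
  | const i c m q => intro P off h; exact steps_one h.fetch rfl rfl
  | add i j k m q => intro P off h; exact steps_one h.fetch rfl rfl
  | sub i j k m q => intro P off h; exact steps_one h.fetch rfl rfl
  | read i j m q => intro P off h; exact steps_one h.fetch rfl rfl
  | write b m q => intro P off h; exact steps_one h.fetch rfl rfl
  | query i m q => intro P off h; exact steps_one h.fetch rfl rfl
  | seq _ _ iha ihb =>
    intro P off h
    have h1 := iha P off h.left
    have h2 := h.right
    rw [W.length_compile] at h2
    have h3 := h1.trans (ihb P _ h2)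
    rw [add_assoc] at h3
    exact h3
  | @ite_zero i a b m q m₁ q₁ c hm _ ih =>
    intro P off h
    have hr := h.right
    have hr2 := hr.right.right
    simp only [W.length_compile, List.length_singleton] at hr2
    have h0 : Steps κ P O x ⟨off, m, q⟩ ((Instr.jz i 0).cost κ m) ⟨off + 1 + b.len + 1, m, q⟩ :=
      steps_one h.left.fetch (by simp [exec, hm]) rfl
    have h1 := h0.trans (ih P _ hr2)
    have e : off + 1 + b.len + 1 + a.len = off + (W.ite i a b).len := by
      simp only [W.len]; omega
    rwa [e] at h1
  | @ite_pos i a b m q m₁ q₁ c hm _ ih =>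
    intro P off h
    have hr := h.right
    simp only [List.length_singleton] at hr
    have h0 : Steps κ P O x ⟨off, m, q⟩ ((Instr.jz i 0).cost κ m) ⟨off + 1, m, q⟩ :=
      steps_one h.left.fetch (by simp [exec, hm]) rfl
    have hj := hr.right.left
    simp only [W.length_compile] at hj
    have h2 : Steps κ P O x ⟨off + 1 + b.len, m₁, q₁⟩ 1
        ⟨off + 1 + b.len + 1 + a.len, m₁, q₁⟩ := steps_one hj.fetch rfl rfl
    have h1 := h0.trans ((ih P _ hr.left).trans h2)
    have e : off + 1 + b.len + 1 + a.len = off + (W.ite i a b).len := by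
      simp only [W.len]; omega
    rwa [e] at h1
  | @loop_zero i a m q hm =>
    intro P off h
    have e : off + 1 + a.len + 1 = off + (W.loop i a).len := by
      simp only [W.len]; omega
    rw [← e]
    exact steps_one h.left.fetch (by simp [exec, hm]) rfl
  | @loop_pos i a m q m₁ q₁ m₂ q₂ c₁ c₂ hm _ _ iha ihl =>
    intro P off h
    have hr := h.right
    simp only [List.length_singleton] at hr
    have h0 : Steps κ P O x ⟨off, m, q⟩ ((Instr.jz i 0).cost κ m) ⟨off + 1, m, q⟩ :=
      steps_one h.left.fetch (by simp [exec, hm]) rfl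
    have hj := hr.right
    simp only [W.length_compile] at hj
    have h2 : Steps κ P O x ⟨off + 1 + a.len, m₁, q₁⟩ 1 ⟨off, m₁, q₁⟩ :=
      steps_one hj.fetch rfl rfl
    exact h0.trans ((iha P _ hr.left).trans (h2.trans (ihl P off h)))

/-! ### Programs not referring to input and oracle -/

/-- No reference to the oracle. -/
def W.Plain : W → Prop
  | .write _ => False
  | .query _ => False
  | .seq a b => a.Plain ∧ b.Plain
  | .ite _ a b => a.Plain ∧ b.Plain
  | .loop _ a => a.Plain
  | _ => True

/-- No reference to the oracle or to the input bits. -/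
def W.Pure : W → Prop
  | .read _ _ => False
  | .write _ => False
  | .query _ => False
  | .seq a b => a.Pure ∧ b.Pure
  | .ite _ a b => a.Pure ∧ b.Pure
  | .loop _ a => a.Pure
  | _ => True

theorem W.Pure.plain {w : W} (h : w.Pure) : w.Plain := by
  induction w with
  | seq a b ha hb => exact ⟨ha h.1, hb h.2⟩
  | ite i a b ha hb => exact ⟨ha h.1, hb h.2⟩
  | loop i a ha => exact ha h
  | _ => first | trivial | exact h.elim

theorem W.Plain.compile {w : W} (h : w.Plain) : ∀ off, CTypes.Plain (w.compile off) := by
  induction w with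
  | skip => intro off I hI; exact absurd hI (by simp [W.compile])
  | const i c => intro off I hI; simp only [W.compile, List.mem_singleton] at hI; subst hI; trivial
  | add i j k => intro off I hI; simp only [W.compile, List.mem_singleton] at hI; subst hI; trivial
  | sub i j k => intro off I hI; simp only [W.compile, List.mem_singleton] at hI; subst hI; trivial
  | read i j => intro off I hI; simp only [W.compile, List.mem_singleton] at hI; subst hI; trivial
  | write b => exact h.elim
  | query i => exact h.elim
  | seq a b ha hb =>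
    intro off I hI
    simp only [W.compile, List.mem_append] at hI
    rcases hI with hI | hI
    · exact ha h.1 _ I hI
    · exact hb h.2 _ I hI
  | ite i a b ha hb =>
    intro off I hI
    simp only [W.compile, List.mem_append, List.mem_singleton] at hI
    rcases hI with rfl | hI | rfl | hI
    · trivial
    · exact hb h.2 _ I hI
    · trivial
    · exact ha h.1 _ I hI
  | loop i a ha =>
    intro off I hI
    simp only [W.compile, List.mem_append, List.mem_singleton] at hI
    rcases hI with rfl | hI | rfl
    · trivial
    · exact ha h _ I hI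
    · trivial

theorem Runs.pure {κ x O w m q m' q' c} (h : Runs κ x O w m q m' q' c) (hw : w.Pure) (x' O') :
    Runs κ x' O' w m q m' q' c := by
  induction h with
  | skip m q => exact .skip m q
  | const i c m q => exact .const i c m q
  | add i j k m q => exact .add i j k m q
  | sub i j k m q => exact .sub i j k m q
  | read i j m q => exact hw.elim
  | write b m q => exact hw.elim
  | query i m q => exact hw.elim
  | seq _ _ iha ihb => exact .seq (iha hw.1) (ihb hw.2)
  | ite_zero hm _ ih => exact .ite_zero hm (ih hw.1)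
  | ite_pos hm _ ih => exact .ite_pos hm (ih hw.2)
  | loop_zero hm => exact .loop_zero hm
  | loop_pos hm _ _ iha ihl => exact .loop_pos hm (iha hw) (ihl hw)

/-- The machine running `w` and answering according to whether `R_0 = 0` at the end. -/
def W.toProg (w : W) : Prog :=
  w.compile 0 ++ [.jz 0 (w.len + 2), .halt true, .halt false]

theorem W.Plain.toProg {w : W} (h : w.Plain) : CTypes.Plain w.toProg := by
  intro I hI
  simp only [W.toProg, List.mem_append, List.mem_cons, List.not_mem_nil, or_false] at hI
  rcases hI with hI | rfl | rfl | rfl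
  · exact h.compile 0 I hI
  · trivial
  · trivial
  · trivial

theorem Runs.halts {κ x O w m' q' c} (h : Runs κ x O w (init x).mem [] m' q' c) :
    Halts κ w.toProg O x (decide (m' 0 ≠ 0)) (c + (Instr.jz 0 0).cost κ m') := by
  have hs : Seg w.toProg 0 (w.compile 0 ++ [.jz 0 (w.len + 2), .halt true, .halt false]) :=
    Seg.all _
  have h1 := h.steps w.toProg 0 hs.left
  have h2 := hs.right
  rw [W.length_compile] at h2
  have hj : fetch w.toProg (0 + w.len) = .jz 0 (w.len + 2) := h2.fetch
  have h3 : Seg w.toProg (0 + w.len + 1) [.halt true, .halt false] :=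
    Seg.right (Q := [.jz 0 (w.len + 2)]) (Q' := [.halt true, .halt false]) h2
  have h4 : Seg w.toProg (0 + w.len + 1 + 1) [.halt false] :=
    Seg.right (Q := [.halt true]) (Q' := [.halt false]) h3
  by_cases hm : m' 0 = 0
  · have h5 : Steps κ w.toProg O x ⟨0 + w.len, m', q'⟩ ((Instr.jz 0 0).cost κ m')
        ⟨0 + w.len + 1 + 1, m', q'⟩ :=
      steps_one hj (by simp [exec, hm]) rfl
    have h6 := (h1.trans h5).halts (b := false) h4.fetch
    simpa [hm] using h6
  · have h5 : Steps κ w.toProg O x ⟨0 + w.len, m', q'⟩ ((Instr.jz 0 0).cost κ m')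
        ⟨0 + w.len + 1, m', q'⟩ :=
      steps_one hj (by simp [exec, hm]) rfl
    have h6 := (h1.trans h5).halts (b := true) h3.fetch
    simpa [hm] using h6

end Pool.Agent.CTypes
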